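import Pool.Agent.Full.Loop.AnnDisc
import Pool.Agent.Full.Turn.Final
import Pool.Agent.Full.Net.Net

/-!
# The state of a simply connected region

`Loop.good_AS0` : a connected region `(T, g)` with the turning law (`Turn.Good`) is a state without
windings: all ends are on the bottom line, in the order of the boundary cycle which starts at `b`.
-/

set_option autoImplicit false
set_option linter.unusedSectionVars false

namespace Full.Loop
open Function Relation Finset

variable {τ : Type*} [DecidableEq τ] {T : Finset τ} {g : Half τ → Half τ} {b : Half τ}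

open Classical in
/-- the boundary half edges as a finite set -/
noncomputable def bds (T : Finset τ) (g : Half τ → Half τ) : Finset (Half τ) :=
  (T ×ˢ (Finset.univ : Finset Dir)).filter fun x => g x = x

lemma mem_bds {x : Half τ} : x ∈ bds T g ↔ Bd T g x := by
  unfold bds Bd
  rw [Finset.mem_filter, Finset.mem_product]
  simp

/-- turning of one step of the walk, in left quarter turns -/
def aT (ω : Finset τ) (x : Half τ) : ℤ := tr ω (mate ω x)

lemma aT_mate (ω : Finset τ) (x : Half τ) : aT ω (mate ω x) = -aT ω x := by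
  unfold aT
  rw [mate_mate, ← neg_inj, neg_neg, ← tr_mate]

lemma aT_eq (ω : Finset τ) (x : Half τ) : aT ω x = Turn.tq ω x := by
  unfold aT Turn.tq
  rw [tr_mate]
  unfold tr Dir.tt mate rho
  obtain ⟨t, d⟩ := x
  simp only [Prod.mk.injEq, true_and]
  split_ifs <;> norm_num

lemma hsum_aT (ω : Finset τ) (n : ℕ) (x : Half τ) :
    hsum (mate ω) g (aT ω) (fun _ => 0) n x = Turn.tsum ω g x n := by
  unfold hsum Turn.tsum
  refine Finset.sum_congr rfl fun k _ => ?_
  rw [add_zero, aT_eq]

/-- **the state of a disc** -/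
theorem good_AS0 (h : Turn.Good T g) (hc : ∀ s ∈ T, ∀ t ∈ T, TConn T g s t) (hb : Bd T g b)
    (ω : Finset τ) (P : Half τ → ℚ) (hP : ∀ e, Bd T g e → P e = bpos g b e) (θ : Half τ → ℤ) (κ : ℤ)
    (hθ : ∀ e, Bd T g e → θ e = Turn.lb g b (bpos g b e) + κ) :
    AS0 (mate ω) g (fun x => ((0, aT ω x, 0) : ℤ × ℤ × ℤ)) (fun _ => 0) ⟨fun _ => Side.bot, P⟩
      (bds T g) θ := by
  have hG := h.glu
  have hon : ∀ e, Bd T g e → Full.On T g b e := fun e he => ⟨he, hc _ hb.1 _ he.1⟩
  refine AS0.disc (hG.two ω) (hG.periodic ω) (aT_mate ω) (fun p hp => (mem_bds.1 hp).2)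
    (fun p hp => mem_bds.2 (hG.other_bd (mem_bds.1 hp))) P ?_ ?_ ?_ ?_
  · intro p hp q hq hpq
    rw [hP p (mem_bds.1 hp), hP q (mem_bds.1 hq)] at hpq
    exact hG.pos_inj h.sc hb (hon p (mem_bds.1 hp)) (hon q (mem_bds.1 hq)) (by exact_mod_cast hpq)
  · intro p hp q hq h1 h2
    have hp' := mem_bds.1 hp
    have hq' := mem_bds.1 hq
    rw [hP p hp', hP q hq', hP _ (hG.other_bd hp'), hP _ (hG.other_bd hq')]
    have := hG.noncross_pos h.sc ω hb (hon p hp') (hon q hq') h1 h2
    simpa only [Nat.cast_lt] using this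
  · intro p hp hlt
    have hp' := mem_bds.1 hp
    have ho := hG.other_bd (ω := ω) hp'
    rw [hP p hp', hP _ ho, Nat.cast_lt] at hlt
    have := Turn.law_pos h.glu h.straight h.flat h.op h.sc ω hb (hon p hp') hlt
    rw [hθ p hp', hθ _ ho]
    have e : hol (mate ω) g (aT ω) (fun _ => 0) p = Turn.turn ω g p := hsum_aT ω _ p
    rw [e, this]
    ring
  · intro p hp
    have hpT : p.1 ∈ T := by
      by_contra hn
      exact hp p (Conn.refl _) (hG.out p hn)
    have e : lhol (mate ω) g (aT ω) (fun _ => 0) p =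
        Turn.tsum ω g p (minimalPeriod (g ∘ mate ω) p) := hsum_aT ω _ p
    rw [e]
    exact Turn.loop_law h.glu h.straight h.flat h.op h.sc ω hpT fun j =>
      hp _ ((Conn.iter j p).trans (Conn.m_step _))

end Full.Loop
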