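import Pool.Agent.Full.Loop.GoSC
import Pool.Agent.Full.Loop.DiscLaw

/-!
# The chain of ends along the cut

`D.cch x y j`, `0 ≤ j ≤ 2 (x - l)`: the ends `sN l, …, sN (x - 1)`, `z`, `nN (x - 1), …, nN l`, which are
consecutive on the boundary of the cut domain.
-/

set_option autoImplicit false
set_option linter.unusedSectionVars false

namespace Full
open Function Relation Finset

namespace Slab

/-- hypotheses on the domain: `z` is inside the slab, the sheets are connected without holes -/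
structure GoOk (D : Slab) (x y : ℤ) : Prop where
  lx : D.l ≤ x
  xr : x < D.r
  by' : D.b < y
  yt : y < D.t
  hL : Disc.NoHole (D.TL y : Set (ℤ × ℤ))
  hU : Disc.NoHole (D.TU y : Set (ℤ × ℤ))
  cL : ∀ s ∈ D.TL y, ∀ t ∈ D.TL y, TConn (D.TL y) (plane.glue (D.TL y)) s t
  cU : ∀ s ∈ D.TU y, ∀ t ∈ D.TU y, TConn (D.TU y) (plane.glue (D.TU y)) s t

variable {D : Slab} {x y : ℤ}

theorem GoOk.good (h : GoOk D x y) : Turn.Good (D.T y) (D.gcut x y x) where
  glu := glu_gcut h.xr h.by' h.yt le_rfl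
  straight := by
    rintro ⟨s, d⟩ hz
    obtain ⟨s', k1, -⟩ := gcut_mv h.lx h.xr hz
    rw [k1]
  flat := flat_gcut h.lx h.xr h.by' h.yt
  op := open_gcut h.lx h.xr
  sc := sc_gcut h.lx h.xr h.by' h.yt h.hL h.hU

theorem GoOk.conn (h : GoOk D x y) : ∀ s ∈ D.T y, ∀ t ∈ D.T y, TConn (D.T y) (D.gcut x y x) s t :=
  tconn_gcut h.lx h.xr h.by' h.yt h.cL h.cU

/-- the ends along the cut -/
def cch (D : Slab) (x y : ℤ) (j : ℕ) : Half ZT :=
  if D.l + j < x then sN y (D.l + j) else nN y (2 * x - D.l - j)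

lemma cch_s {j : ℕ} (hj : D.l + j < x) : D.cch x y j = sN y (D.l + j) := if_pos hj

lemma cch_n {j : ℕ} (hj : x ≤ D.l + j) : D.cch x y j = nN y (2 * x - D.l - j) :=
  if_neg (by omega)

lemma cch_inj {i j : ℕ} (h : D.cch x y i = D.cch x y j) : i = j := by
  rcases lt_or_ge (D.l + i) x with hi | hi <;> rcases lt_or_ge (D.l + j) x with hj | hj
  · rw [cch_s hi, cch_s hj] at h
    have := sN_inj h
    omega
  · rw [cch_s hi, cch_n hj] at h
    exact absurd h sN_ne_nN
  · rw [cch_n hi, cch_s hj] at h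
    exact absurd h.symm sN_ne_nN
  · rw [cch_n hi, cch_n hj] at h
    have := nN_inj h
    omega

section
variable (H : GoOk D x y)
include H

lemma GoOk.bd_ch {j : ℕ} (hj : (j : ℤ) ≤ 2 * (x - D.l)) : Bd (D.T y) (D.gcut x y x) (D.cch x y j) := by
  have h1 := H.lx
  have h2 := H.xr
  have h3 := H.by'
  have h4 := H.yt
  rcases lt_or_ge (D.l + j) x with hi | hi
  · rw [cch_s hi]
    refine ⟨?_, gcut_cut ⟨D.l + j, by omega, hi, Or.inl rfl⟩⟩
    exact mem_up.2 (Or.inr ⟨⟨by omega, by omega⟩, le_rfl, h4⟩)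
  · rw [cch_n hi]
    refine ⟨?_, ?_⟩
    · exact mem_low.2 (Or.inr ⟨⟨by omega, by omega⟩, by omega, by omega⟩)
    · by_cases hx : 2 * x - D.l - j = x
      · rw [hx]
        exact gcut_z h1 h2
      · exact gcut_cut ⟨2 * x - D.l - j, by omega, by omega, Or.inr rfl⟩

lemma GoOk.next_ch {j : ℕ} (hj : (j : ℤ) + 1 ≤ 2 * (x - D.l)) :
    next (D.gcut x y x) (D.cch x y j) = D.cch x y (j + 1) := by
  have h1 := H.lx
  have h2 := H.xr
  have h3 := H.by'
  have h4 := H.yt
  rcases lt_trichotomy (D.l + j + 1) x with hi | hi | hi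
  · rw [cch_s (by omega), cch_s (by push_cast; omega), next_sN h1 h2 h3 h4 (by omega) hi]
    congr 1
    push_cast
    ring
  · rw [cch_s (by omega), cch_n (by push_cast; omega)]
    have e1 : D.l + j = x - 1 := by omega
    have e2 : 2 * x - D.l - ((j + 1 : ℕ) : ℤ) = x := by push_cast; omega
    rw [e1, e2]
    exact next_sN_last h1 h2 h3 h4 (by omega)
  · rw [cch_n (by omega), cch_n (by push_cast; omega), next_nN h1 h2 h3 h4 (by omega) (by omega)]
    congr 1
    push_cast
    ring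

lemma GoOk.iter_ch (j : ℕ) (hj : (j : ℤ) ≤ 2 * (x - D.l)) :
    (next (D.gcut x y x))^[j] (D.cch x y 0) = D.cch x y j := by
  induction j with
  | zero => rfl
  | succ j ih =>
    push_cast at hj
    rw [iterate_succ_apply', ih (by omega), H.next_ch hj]

lemma GoOk.bd0 : Bd (D.T y) (D.gcut x y x) (D.cch x y 0) := H.bd_ch (by
  have := H.lx
  push_cast
  omega)

/-- number of ends of the cut domain -/
noncomputable def cnb (D : Slab) (x y : ℤ) : ℕ := minimalPeriod (next (D.gcut x y x)) (D.cch x y 0)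

lemma GoOk.lt_nb : 2 * (x - D.l) < D.cnb x y := by
  have h1 := H.lx
  by_contra hn
  have hpos : 0 < D.cnb x y := minimalPeriod_pos_of_mem_periodicPts (H.good.glu.next_periodic H.bd0)
  have h5 : (next (D.gcut x y x))^[D.cnb x y] (D.cch x y 0) = D.cch x y 0 := iterate_minimalPeriod
  rw [H.iter_ch _ (by omega)] at h5
  have := cch_inj h5
  omega

lemma GoOk.pos_ch {j : ℕ} (hj : (j : ℤ) ≤ 2 * (x - D.l)) :
    bpos (D.gcut x y x) (D.cch x y 0) (D.cch x y j) = j := by
  rw [← H.iter_ch j hj]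
  exact H.good.glu.pos_iter (by
    have := H.lt_nb
    unfold cnb at this
    omega)

omit H in
lemma Rk.bt {τ : Type*} [DecidableEq τ] {g : Half τ → Half τ} {h h' : Half τ} {k : ℕ}
    (R : Rk g h k h') : Turn.bt g h = 2 - k := by
  have := Turn.bt_of (g := g) (x := h) R.1 (by rw [R.2.1]; exact R.2.2.1) R.2.2.2
  exact this.1

/-- labels along the chain -/
lemma GoOk.lb_lt (j : ℕ) (hj : D.l + j < x) :
    Turn.lb (D.gcut x y x) (D.cch x y 0) j = 0 := by
  have h1 := H.lx
  have h2 := H.xr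
  have h3 := H.by'
  have h4 := H.yt
  unfold Turn.lb
  refine Finset.sum_eq_zero fun i hi => ?_
  rw [Finset.mem_range] at hi
  rw [H.iter_ch i (by omega), cch_s (by omega), (rk_sN h1 h2 h3 h4 (by omega) (by omega)).bt]
  norm_num

lemma GoOk.lb_ge (j : ℕ) (hj : x ≤ D.l + j) (hj' : (j : ℤ) ≤ 2 * (x - D.l)) :
    Turn.lb (D.gcut x y x) (D.cch x y 0) j = if D.l < x then -2 else 0 := by
  have h1 := H.lx
  have h2 := H.xr
  have h3 := H.by'
  have h4 := H.yt
  induction j with
  | zero =>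
    rw [if_neg (by push_cast at hj; omega)]
    simp [Turn.lb]
  | succ j ih =>
    push_cast at hj hj'
    have e : Turn.lb (D.gcut x y x) (D.cch x y 0) (j + 1) =
        Turn.lb (D.gcut x y x) (D.cch x y 0) j + Turn.bt (D.gcut x y x) (D.cch x y j) := by
      unfold Turn.lb
      rw [Finset.sum_range_succ, H.iter_ch j (by omega)]
    rw [e]
    rcases eq_or_lt_of_le hj with h5 | h5
    · rw [if_pos (by omega), H.lb_lt j (by omega), cch_s (by omega),
        show D.l + j = x - 1 by omega, (rk_last h1 h2 h3 h4 (by omega)).bt]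
      norm_num
    · rw [ih (by omega) (by omega), cch_n (by omega), (rk_nN h1 h2 h3 h4 (by omega) (by omega)).bt]
      norm_num

/-- position of `z` -/
def cpz (D : Slab) (x : ℤ) : ℕ := (x - D.l).toNat

/-- number of the ends of the chain -/
def cm0 (D : Slab) (x : ℤ) : ℕ := 2 * (x - D.l).toNat + 1

/-- position of an end in the cut domain -/
noncomputable def cps (D : Slab) (x y : ℤ) (e : Half ZT) : ℕ := bpos (D.gcut x y x) (D.cch x y 0) e

/-- directions of the boundary -/
noncomputable def cth (D : Slab) (x y : ℤ) (e : Half ZT) : ℤ :=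
  Turn.lb (D.gcut x y x) (D.cch x y 0) (D.cps x y e) -
    Turn.lb (D.gcut x y x) (D.cch x y 0) (D.cpz x) - 2

lemma GoOk.th_s {i : ℤ} (hi : D.l ≤ i) (hix : i < x) : D.cth x y (sN y i) = 0 := by
  have e : sN y i = D.cch x y (i - D.l).toNat := by
    rw [cch_s (by omega)]
    congr 1
    omega
  unfold cth cps cpz
  rw [e, H.pos_ch (by omega), H.lb_lt _ (by omega), H.lb_ge _ (by omega) (by omega), if_pos (by omega)]
  norm_num

lemma GoOk.th_n {i : ℤ} (hi : D.l ≤ i) (hix : i ≤ x) : D.cth x y (nN y i) = -2 := by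
  have e : nN y i = D.cch x y (2 * x - D.l - i).toNat := by
    rw [cch_n (by omega)]
    congr 1
    omega
  unfold cth cps cpz
  rw [e, H.pos_ch (by omega), H.lb_ge _ (by omega) (by omega), H.lb_ge _ (by omega) (by omega)]
  ring

lemma GoOk.ps_s {i : ℤ} (hi : D.l ≤ i) (hix : i < x) : D.cps x y (sN y i) = (i - D.l).toNat := by
  have e : sN y i = D.cch x y (i - D.l).toNat := by
    rw [cch_s (by omega)]
    congr 1
    omega
  unfold cps
  rw [e, H.pos_ch (by omega)]

lemma GoOk.ps_n {i : ℤ} (hi : D.l ≤ i) (hix : i ≤ x) :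
    D.cps x y (nN y i) = (2 * x - D.l - i).toNat := by
  have e : nN y i = D.cch x y (2 * x - D.l - i).toNat := by
    rw [cch_n (by omega)]
    congr 1
    omega
  unfold cps
  rw [e, H.pos_ch (by omega)]

/-- every end is on the boundary cycle -/
lemma GoOk.hon {e : Half ZT} (he : Bd (D.T y) (D.gcut x y x) e) :
    Full.On (D.T y) (D.gcut x y x) (D.cch x y 0) e := ⟨he, H.conn _ H.bd0.1 _ he.1⟩

lemma GoOk.ps_lt {e : Half ZT} (he : Bd (D.T y) (D.gcut x y x) e) : D.cps x y e < D.cnb x y :=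
  H.good.glu.pos_lt H.good.sc H.bd0 (H.hon he)

lemma GoOk.ps_spec {e : Half ZT} (he : Bd (D.T y) (D.gcut x y x) e) :
    (next (D.gcut x y x))^[D.cps x y e] (D.cch x y 0) = e :=
  H.good.glu.pos_spec H.good.sc H.bd0 (H.hon he)

lemma GoOk.ps_inj {e e' : Half ZT} (he : Bd (D.T y) (D.gcut x y x) e)
    (he' : Bd (D.T y) (D.gcut x y x) e') (h : D.cps x y e = D.cps x y e') : e = e' := by
  rw [← H.ps_spec he, ← H.ps_spec he', h]

/-- the ends of the domain are the ends of the cut domain which are not on the chain -/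
lemma GoOk.bd_go {e : Half ZT} (hz : e ≠ nN y x) :
    Bd (D.T y) (D.go x y) e ↔ Bd (D.T y) (D.gcut x y x) e ∧ D.cm0 x ≤ D.cps x y e := by
  have h1 := H.lx
  have h2 := H.xr
  have h3 := H.by'
  have h4 := H.yt
  constructor
  · intro he
    have hc : ¬ D.InCut y x e := by
      rintro ⟨i, i1, i2, rfl | rfl⟩
      · have := he.2
        rw [go_sN h2 h3 h4 i1 i2] at this
        exact sN_ne_nN this.symm
      · have := he.2
        rw [go_nN h2 h3 h4 i1 i2] at this
        exact sN_ne_nN this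
    have he' : Bd (D.T y) (D.gcut x y x) e := ⟨he.1, by rw [gcut_not hc]; exact he.2⟩
    refine ⟨he', ?_⟩
    by_contra hn
    unfold cm0 at hn
    have h5 := H.ps_spec he'
    rw [H.iter_ch _ (by omega)] at h5
    rcases lt_or_ge (D.l + (D.cps x y e : ℤ)) x with h6 | h6
    · rw [cch_s h6] at h5
      exact hc ⟨_, by omega, h6, Or.inl h5.symm⟩
    · rw [cch_n h6] at h5
      by_cases h7 : 2 * x - D.l - (D.cps x y e : ℤ) = x
      · rw [h7] at h5
        exact hz h5.symm
      · exact hc ⟨_, by omega, by omega, Or.inr h5.symm⟩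
  · rintro ⟨he, hm⟩
    unfold cm0 at hm
    have hc : ¬ D.InCut y x e := by
      rintro ⟨i, i1, i2, rfl | rfl⟩
      · rw [H.ps_s i1 i2] at hm
        omega
      · rw [H.ps_n i1 i2.le] at hm
        omega
    exact ⟨he.1, by rw [← gcut_not hc]; exact he.2⟩

end

end Slab

end Full
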