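import Mathlib

/-!
# Kernels of systems of strands

A system of strands on a finite set `X` of nodes is an involution `f` without fixed points on `X`,
together with the phase `t p` (in units of `lam / 2 = pi / 6`) of the strand which starts at `p` and
ends at `f p`.  `kern X f t σ` is the six vertex amplitude of the system when the node `p` carries
the outward arrow `σ p`.  Joining two nodes `x`, `y` by a link of phase `φ` contracts the kernel.
-/

set_option autoImplicit false

namespace Full.Loop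

open Finset

noncomputable section

variable {α : Type*}

/-- the sign of an arrow -/
def sg (b : Bool) : ℤ := if b then 1 else -1

@[simp] lemma sg_true : sg true = 1 := rfl
@[simp] lemma sg_false : sg false = -1 := rfl
@[simp] lemma sg_not (b : Bool) : sg (!b) = - sg b := by cases b <;> simp

/-- the unit phase `exp (i lam / 4)`, `lam = pi / 3` -/
def om : ℂ := Complex.exp (Complex.I * (Real.pi / 12 : ℝ))

lemma om_ne : om ≠ 0 := Complex.exp_ne_zero _

/-- amplitude of one node -/
def nf (f : α → α) (t : α → ℤ) (σ : α → Bool) (p : α) : ℂ :=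
  if σ (f p) = !σ p then om ^ (t p * sg (σ p)) else 0

/-- amplitude of a system of strands -/
def kern (X : Finset α) (f : α → α) (t : α → ℤ) (σ : α → Bool) : ℂ :=
  ∏ p ∈ X, nf f t σ p

/-- `f` is an involution of `X` without fixed points and `t` is the phase of its strands -/
structure Sys (X : Finset α) (f : α → α) (t : α → ℤ) : Prop where
  mem : ∀ p ∈ X, f p ∈ X
  inv : ∀ p ∈ X, f (f p) = p
  ne : ∀ p ∈ X, f p ≠ p
  t_f : ∀ p ∈ X, t (f p) = - t p

lemma kern_congr {X : Finset α} {f f' : α → α} {t t' : α → ℤ} {σ σ' : α → Bool}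
    (hf : ∀ p ∈ X, f' p = f p) (ht : ∀ p ∈ X, t' p = t p)
    (hσ : ∀ p ∈ X, σ' p = σ p) (hσf : ∀ p ∈ X, σ' (f p) = σ (f p)) :
    kern X f' t' σ' = kern X f t σ := by
  refine Finset.prod_congr rfl fun p hp => ?_
  simp only [nf, hf p hp, ht p hp, hσ p hp, hσf p hp]

variable [DecidableEq α]

/-- the partner after joining `x` and `y` -/
def jf (x y : α) (f : α → α) (p : α) : α :=
  if f p = x then f y else if f p = y then f x else f p

/-- the holonomy after joining `x` and `y` by a link of holonomy `φ` (from `x` to `y`);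
`h p` is the holonomy of the strand from `p` to `f p` -/
def jh {G : Type*} [AddGroup G] (x y : α) (φ : G) (f : α → α) (h : α → G) (p : α) : G :=
  if f p = x then h p + φ + h y else if f p = y then h p - φ + h x else h p

lemma om_add (a b : ℤ) : om ^ (a + b) = om ^ a * om ^ b := zpow_add₀ om_ne a b

section jlem

variable {G : Type*} [AddGroup G] {x y p : α} {f : α → α}

lemma jf_x (h : f p = x) : jf x y f p = f y := if_pos h
lemma jf_y (h1 : f p ≠ x) (h2 : f p = y) : jf x y f p = f x := by
  unfold jf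
  rw [if_neg h1, if_pos h2]
lemma jf_o (h1 : f p ≠ x) (h2 : f p ≠ y) : jf x y f p = f p := by
  unfold jf
  rw [if_neg h1, if_neg h2]
lemma jh_x {φ : G} {h : α → G} (h1 : f p = x) : jh x y φ f h p = h p + φ + h y := if_pos h1
lemma jh_y {φ : G} {h : α → G} (h1 : f p ≠ x) (h2 : f p = y) :
    jh x y φ f h p = h p - φ + h x := by
  unfold jh
  rw [if_neg h1, if_pos h2]
lemma jh_o {φ : G} {h : α → G} (h1 : f p ≠ x) (h2 : f p ≠ y) : jh x y φ f h p = h p := by
  unfold jh
  rw [if_neg h1, if_neg h2]

end jlem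

/-- the four nodes of two different strands -/
lemma kern_four {X : Finset α} {f : α → α} {t : α → ℤ} (H : Sys X f t) {x y : α} (hx : x ∈ X)
    (hy : y ∈ X) (hxy : x ≠ y) (hfx : f x ≠ y) (σ : α → Bool) :
    kern X f t σ = (if σ (f x) = !σ x then om ^ (2 * (t x * sg (σ x))) else 0) *
      (if σ (f y) = !σ y then om ^ (2 * (t y * sg (σ y))) else 0) *
      ∏ p ∈ (((X.erase x).erase y).erase (f x)).erase (f y), nf f t σ p := by
  have h1 : f y ≠ x := fun h => hfx (by rw [← h, H.inv y hy])
  have h2 : f x ≠ f y := fun h => hxy (by rw [← H.inv x hx, h, H.inv y hy])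
  have m1 : y ∈ X.erase x := Finset.mem_erase.mpr ⟨hxy.symm, hy⟩
  have m2 : f x ∈ (X.erase x).erase y :=
    Finset.mem_erase.mpr ⟨hfx, Finset.mem_erase.mpr ⟨H.ne x hx, H.mem x hx⟩⟩
  have m3 : f y ∈ ((X.erase x).erase y).erase (f x) :=
    Finset.mem_erase.mpr ⟨h2.symm, Finset.mem_erase.mpr ⟨H.ne y hy,
      Finset.mem_erase.mpr ⟨h1, H.mem y hy⟩⟩⟩
  have key : ∀ p ∈ X, nf f t σ p * nf f t σ (f p) =
      if σ (f p) = !σ p then om ^ (2 * (t p * sg (σ p))) else 0 := by
    intro p hp
    unfold nf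
    rw [H.inv p hp, H.t_f p hp]
    by_cases h : σ (f p) = !σ p
    · have h' : σ p = !σ (f p) := by rw [h, Bool.not_not]
      rw [if_pos h, if_pos h', if_pos h, ← om_add, h, sg_not]
      congr 1
      ring
    · rw [if_neg h, if_neg h, zero_mul]
  unfold kern
  rw [← Finset.mul_prod_erase X _ hx, ← Finset.mul_prod_erase _ _ m1, ← Finset.mul_prod_erase _ _ m2,
    ← Finset.mul_prod_erase _ _ m3, ← key x hx, ← key y hy]
  ring

lemma jf_ne {X : Finset α} {f : α → α} {t : α → ℤ} (H : Sys X f t) {x y p : α}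
    (hx : x ∈ X) (hy : y ∈ X) (hp : p ∈ X) (h1 : p ≠ x) (h2 : p ≠ y) :
    jf x y f p ≠ x ∧ jf x y f p ≠ y := by
  have a1 := H.inv x hx
  have a2 := H.inv y hy
  have a3 := H.inv p hp
  have b1 := H.ne x hx
  have b2 := H.ne y hy
  unfold jf
  grind

/-- joining gives a system of strands -/
lemma Sys.join {X : Finset α} {f : α → α} {t : α → ℤ} (H : Sys X f t) {x y : α} (hx : x ∈ X)
    (hy : y ∈ X) (hxy : x ≠ y) (φ : ℤ) :
    Sys ((X.erase x).erase y) (jf x y f) (jh x y φ f t) := by
  have a1 := H.inv x hx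
  have a2 := H.inv y hy
  have b1 := H.ne x hx
  have b2 := H.ne y hy
  have c1 := H.t_f x hx
  have c2 := H.t_f y hy
  refine ⟨fun p hp => ?_, fun p hp => ?_, fun p hp => ?_, fun p hp => ?_⟩
  all_goals
    simp only [Finset.mem_erase] at hp ⊢
    obtain ⟨h2, h1, hp⟩ := hp
    have a3 := H.inv p hp
    have b3 := H.ne p hp
    have c3 := H.t_f p hp
  · have d := jf_ne H hx hy hp h1 h2
    refine ⟨d.2, d.1, ?_⟩
    unfold jf
    split_ifs
    · exact H.mem y hy
    · exact H.mem x hx
    · exact H.mem p hp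
  · unfold jf
    grind
  · unfold jf
    grind
  · unfold jh jf
    split_ifs <;> grind

/-- the two nodes of one strand -/
lemma kern_two {X : Finset α} {f : α → α} {t : α → ℤ} (H : Sys X f t) {x : α} (hx : x ∈ X)
    (σ : α → Bool) :
    kern X f t σ = (if σ (f x) = !σ x then om ^ (2 * (t x * sg (σ x))) else 0) *
      ∏ p ∈ (X.erase x).erase (f x), nf f t σ p := by
  have m2 : f x ∈ X.erase x := Finset.mem_erase.mpr ⟨H.ne x hx, H.mem x hx⟩
  unfold kern
  rw [← Finset.mul_prod_erase X _ hx, ← Finset.mul_prod_erase _ _ m2, ← mul_assoc]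
  congr 1
  unfold nf
  rw [H.inv x hx, H.t_f x hx]
  by_cases h : σ (f x) = !σ x
  · have h' : σ x = !σ (f x) := by rw [h, Bool.not_not]
    rw [if_pos h, if_pos h', if_pos h, ← om_add, h, sg_not]
    congr 1
    ring
  · rw [if_neg h, if_neg h, zero_mul]

/-- set two arrows -/
def up2 (σ : α → Bool) (x y : α) (a b : Bool) : α → Bool :=
  Function.update (Function.update σ x a) y b

lemma up2_x (σ : α → Bool) {x y : α} (h : x ≠ y) (a b : Bool) : up2 σ x y a b x = a := by
  unfold up2
  rw [Function.update_of_ne h, Function.update_self]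

lemma up2_y (σ : α → Bool) (x y : α) (a b : Bool) : up2 σ x y a b y = b := by
  unfold up2
  rw [Function.update_self]

lemma up2_o (σ : α → Bool) {x y p : α} (h1 : p ≠ x) (h2 : p ≠ y) (a b : Bool) :
    up2 σ x y a b p = σ p := by
  unfold up2
  rw [Function.update_of_ne h2, Function.update_of_ne h1]

/-- **closing a loop** -/
lemma kern_loop {X : Finset α} {f : α → α} {t : α → ℤ} (H : Sys X f t) {x y : α} (hx : x ∈ X)
    (hy : y ∈ X) (hxy : x ≠ y) (hfx : f x = y) (φ : ℤ) (σ : α → Bool) :
    ∑ a : Bool, om ^ (-2 * φ * sg a) * kern X f t (up2 σ x y a (!a)) =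
      (om ^ (2 * (t x - φ)) + om ^ (-(2 * (t x - φ)))) *
        kern ((X.erase x).erase y) (jf x y f) (jh x y φ f t) σ := by
  have a1 := H.inv x hx
  have e1 : ∀ a, kern X f t (up2 σ x y a (!a)) = om ^ (2 * (t x * sg a)) *
      kern ((X.erase x).erase y) (jf x y f) (jh x y φ f t) σ := by
    intro a
    rw [kern_two H hx, hfx, up2_x σ hxy, up2_y, if_pos rfl]
    congr 1
    refine Finset.prod_congr rfl fun p hp => ?_
    simp only [Finset.mem_erase] at hp
    obtain ⟨h2, h1, hp⟩ := hp
    have a3 := H.inv p hp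
    have f1 : f p ≠ x := fun h => h2 (by rw [← a3, h, hfx])
    have f2 : f p ≠ y := fun h => h1 (by rw [← a3, h, ← hfx, a1])
    unfold nf jf jh
    rw [if_neg f1, if_neg f2, if_neg f1, if_neg f2, up2_o σ f1 f2, up2_o σ h1 h2]
  have g1 : om ^ (2 * (t x - φ)) = om ^ (-2 * φ * sg true) * om ^ (2 * (t x * sg true)) := by
    rw [← om_add, sg_true]
    congr 1
    ring
  have g2 : om ^ (-(2 * (t x - φ))) = om ^ (-2 * φ * sg false) * om ^ (2 * (t x * sg false)) := by
    rw [← om_add, sg_false]
    congr 1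
    ring
  rw [Fintype.sum_bool, e1, e1, g1, g2]
  ring

/-- **joining two strands** -/
lemma kern_join {X : Finset α} {f : α → α} {t : α → ℤ} (H : Sys X f t) {x y : α} (hx : x ∈ X)
    (hy : y ∈ X) (hxy : x ≠ y) (hfx : f x ≠ y) (φ : ℤ) (σ : α → Bool) :
    ∑ a : Bool, om ^ (-2 * φ * sg a) * kern X f t (up2 σ x y a (!a)) =
      kern ((X.erase x).erase y) (jf x y f) (jh x y φ f t) σ := by
  have a1 := H.inv x hx
  have a2 := H.inv y hy
  have b1 := H.ne x hx
  have b2 := H.ne y hy
  have h1 : f y ≠ x := fun h => hfx (by rw [← h, a2])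
  have h2 : f x ≠ f y := fun h => hxy (by rw [← a1, h, a2])
  have hX' := H.join hx hy hxy φ
  have m1 : f x ∈ (X.erase x).erase y :=
    Finset.mem_erase.mpr ⟨hfx, Finset.mem_erase.mpr ⟨b1, H.mem x hx⟩⟩
  have e2 : jf x y f (f x) = f y := by
    unfold jf
    rw [if_pos a1]
  have e3 : jh x y φ f t (f x) = - t x + φ + t y := by
    unfold jh
    rw [if_pos a1, H.t_f x hx]
  have e4 : kern ((X.erase x).erase y) (jf x y f) (jh x y φ f t) σ =
      (if σ (f y) = !σ (f x) then om ^ (2 * ((- t x + φ + t y) * sg (σ (f x)))) else 0) *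
      ∏ p ∈ (((X.erase x).erase y).erase (f x)).erase (f y), nf f t σ p := by
    rw [kern_two hX' m1, e2, e3]
    congr 1
    refine Finset.prod_congr rfl fun p hp => ?_
    simp only [Finset.mem_erase] at hp
    obtain ⟨g4, g3, g2, g1, hp⟩ := hp
    have a3 := H.inv p hp
    have f1 : f p ≠ x := fun h => g3 (by rw [← a3, h])
    have f2 : f p ≠ y := fun h => g4 (by rw [← a3, h])
    unfold nf jf jh
    rw [if_neg f1, if_neg f2, if_neg f1, if_neg f2]
  have e5 : ∀ a, kern X f t (up2 σ x y a (!a)) =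
      (if σ (f x) = !a then om ^ (2 * (t x * sg a)) else 0) *
      (if σ (f y) = a then om ^ (-(2 * (t y * sg a))) else 0) *
      ∏ p ∈ (((X.erase x).erase y).erase (f x)).erase (f y), nf f t σ p := by
    intro a
    rw [kern_four H hx hy hxy hfx, up2_x σ hxy, up2_y, up2_o σ b1 hfx, up2_o σ h1 b2, Bool.not_not,
      sg_not]
    congr 1
    · congr 2
      congr 1
      ring
    · refine Finset.prod_congr rfl fun p hp => ?_
      simp only [Finset.mem_erase] at hp
      obtain ⟨g4, g3, g2, g1, hp⟩ := hp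
      have a3 := H.inv p hp
      have f1 : f p ≠ x := fun h => g3 (by rw [← a3, h])
      have f2 : f p ≠ y := fun h => g4 (by rw [← a3, h])
      unfold nf
      rw [up2_o σ f1 f2, up2_o σ g1 g2]
  have g0 : ∀ A B C D E F P : ℂ, A * (B * C * P) + D * (E * F * P) = (A * (B * C) + D * (E * F)) * P :=
    fun A B C D E F P => by ring
  rw [e4, Fintype.sum_bool, e5, e5, g0]
  congr 1
  cases hσx : σ (f x) <;> cases hσy : σ (f y) <;>
    simp only [Bool.not_true, Bool.not_false, if_true, if_false, mul_zero, zero_mul, add_zero,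
      zero_add, reduceCtorEq, sg_true, sg_false, ← om_add]
  all_goals
    congr 1
    ring

end

end Full.Loop
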