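import Pool.Agent.Full.Loop.GoLaw

/-!
# The law of the strands in terms of other labels

`GoLab D x y o th` : an order `o` and directions `th` of the ends, compatible with the boundary
permutation of `D.go x y`; the laws hold for them.
-/

set_option autoImplicit false
set_option linter.unusedSectionVars false

namespace Full
open Function Relation Finset Full.Loop

namespace Slab
variable {D : Slab} {x y : ℤ} {ι : Type*} [Preorder ι]

/-- an order of the ends other than `z`, starting below the line of `z` on the left side of the slab,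
and their directions -/
structure GoLab (D : Slab) (x y : ℤ) (o : Half ZT → ι) (th : Half ZT → ℤ) : Prop where
  first : th (Sum.inl (D.l, y - 1), Dir.W) = -1
  lt : ∀ e, Bd (D.T y) (D.go x y) e → e ≠ nN y x → e ≠ (Sum.inr (D.l, y), Dir.W) →
    o e < o (next (D.go x y) e)
  th : ∀ e, Bd (D.T y) (D.go x y) e → e ≠ nN y x → e ≠ (Sum.inr (D.l, y), Dir.W) →
    th (next (D.go x y) e) = th e + Turn.bt (D.go x y) e

section
variable {o : Half ZT → ι} {th : Half ZT → ℤ} (H : GoOk D x y) (L : GoLab D x y o th)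
include H L

lemma GoLab.step {i : ℕ} (hi : i + 1 < D.gnum x y) :
    o (D.gend x y i) < o (D.gend x y (i + 1)) ∧
      th (D.gend x y (i + 1)) = th (D.gend x y i) + Turn.bt (D.go x y) (D.gend x y i) := by
  obtain ⟨b, z⟩ := H.bd_gend (show i < D.gnum x y by omega)
  have hne : D.gend x y i ≠ (Sum.inr (D.l, y), Dir.W) := by
    intro h
    have h1 := H.gend_last.1
    have h2 := H.gpos_gend (show D.gnum x y - 1 < D.gnum x y by omega)
    rw [h1, ← h, H.gpos_gend (by omega)] at h2
    omega
  rw [(H.gend_succ hi).1]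
  exact ⟨L.lt _ b z hne, L.th _ b z hne⟩

lemma GoLab.th_gend {i : ℕ} (hi : i < D.gnum x y) : th (D.gend x y i) = D.cth x y (D.gend x y i) := by
  induction i with
  | zero =>
    rw [H.gend_zero.2, H.gend_zero.1, L.first]
  | succ i ih =>
    rw [(L.step H hi).2, (H.gend_succ hi).2, ih (by omega)]

lemma GoLab.lt_gend {i j : ℕ} (hij : i < j) (hj : j < D.gnum x y) :
    o (D.gend x y i) < o (D.gend x y j) := by
  induction j with
  | zero => omega
  | succ j ih =>
    have h1 := (L.step H hj).1
    rcases Nat.lt_succ_iff_lt_or_eq.1 hij with h | h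
    · exact (ih h (by omega)).trans h1
    · rw [h]; exact h1

theorem GoLab.th_eq {e : Half ZT} (he : Bd (D.T y) (D.go x y) e) (hz : e ≠ nN y x) :
    th e = D.cth x y e := by
  have h1 := L.th_gend H (H.gpos_lt he hz)
  rwa [H.gend_gpos he hz] at h1

theorem GoLab.lt_iff {e e' : Half ZT} (he : Bd (D.T y) (D.go x y) e) (hz : e ≠ nN y x)
    (he' : Bd (D.T y) (D.go x y) e') (hz' : e' ≠ nN y x) :
    o e < o e' ↔ D.gpos x y e < D.gpos x y e' := by
  have key : ∀ {a b : Half ZT}, Bd (D.T y) (D.go x y) a → a ≠ nN y x → Bd (D.T y) (D.go x y) b →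
      b ≠ nN y x → D.gpos x y a < D.gpos x y b → o a < o b := by
    intro a b ha haz hb hbz h
    have h1 := L.lt_gend H h (H.gpos_lt hb hbz)
    rwa [H.gend_gpos ha haz, H.gend_gpos hb hbz] at h1
  constructor
  · intro h
    rcases lt_trichotomy (D.gpos x y e) (D.gpos x y e') with h1 | h1 | h1
    · exact h1
    · rw [H.gpos_inj he hz he' hz' h1] at h
      exact absurd h (lt_irrefl _)
    · exact absurd h (key he' hz' he hz h1).asymm
  · exact key he hz he' hz'

variable {ω : Finset ZT}

/-- **arcs do not cross** -/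
theorem GoLab.noncross {e e' : Half ZT} (he : Bd (D.T y) (D.go x y) e) (hz : e ≠ nN y x)
    (ho : other (mate ω) (D.go x y) e ≠ nN y x) (he' : Bd (D.T y) (D.go x y) e')
    (hz' : e' ≠ nN y x) (ho' : other (mate ω) (D.go x y) e' ≠ nN y x)
    (h1 : o e < o e') (h2 : o e' < o (other (mate ω) (D.go x y) e)) :
    o e < o (other (mate ω) (D.go x y) e') ∧
      o (other (mate ω) (D.go x y) e') < o (other (mate ω) (D.go x y) e) := by
  have hG : Glu (D.T y) (D.go x y) := glu_go
  have bo := hG.other_bd (ω := ω) he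
  have bo' := hG.other_bd (ω := ω) he'
  rw [L.lt_iff H he hz he' hz'] at h1
  rw [L.lt_iff H he' hz' bo ho] at h2
  rw [L.lt_iff H he hz bo' ho', L.lt_iff H bo' ho' bo ho]
  exact H.noncross he hz ho he' hz' ho' h1 h2

/-- **arcs**: turning and string crossings -/
theorem GoLab.arc {e : Half ZT} (he : Bd (D.T y) (D.go x y) e) (hz : e ≠ nN y x)
    (ho : other (mate ω) (D.go x y) e ≠ nN y x)
    (hlt : o e < o (other (mate ω) (D.go x y) e)) :
    D.gtn x y ω e = th (other (mate ω) (D.go x y) e) - th e - 2 ∧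
      ((o e < o (other (mate ω) (D.go x y) (nN y x)) ∧
        o (other (mate ω) (D.go x y) (nN y x)) < o (other (mate ω) (D.go x y) e)) →
        D.gcr x y ω e = 1) ∧
      (¬ (o e < o (other (mate ω) (D.go x y) (nN y x)) ∧
        o (other (mate ω) (D.go x y) (nN y x)) < o (other (mate ω) (D.go x y) e)) →
        D.gcr x y ω e = 0) := by
  have hG : Glu (D.T y) (D.go x y) := glu_go
  have bo := hG.other_bd (ω := ω) he
  have hzb : Bd (D.T y) (D.go x y) (nN y x) := mem_bds.1 (H.state ω).pt.mem
  have hkb := hG.other_bd (ω := ω) hzb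
  have hkz : other (mate ω) (D.go x y) (nN y x) ≠ nN y x := hG.other_ne hzb
  rw [L.lt_iff H he hz bo ho] at hlt
  rw [L.lt_iff H he hz hkb hkz, L.lt_iff H hkb hkz bo ho, L.th_eq H he hz, L.th_eq H bo ho]
  obtain ⟨t1, t2⟩ := H.arc he hz ho hlt
  refine ⟨t1, fun h => ?_, fun h => ?_⟩
  · rw [t2, if_pos h]
  · rw [t2, if_neg h]

/-- **the strand of `z`** -/
theorem GoLab.strand_z : D.gtn x y ω (nN y x) + 4 * D.gcr x y ω (nN y x) =
    th (other (mate ω) (D.go x y) (nN y x)) := by
  have hG : Glu (D.T y) (D.go x y) := glu_go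
  have hzb : Bd (D.T y) (D.go x y) (nN y x) := mem_bds.1 (H.state ω).pt.mem
  have hkb := hG.other_bd (ω := ω) hzb
  have hkz : other (mate ω) (D.go x y) (nN y x) ≠ nN y x := hG.other_ne hzb
  rw [H.strand_z, L.th_eq H hkb hkz]

end

end Slab

end Full
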