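import Pool.Agent.Full.Loop.Seam

/-!
# Planar strands in the annulus: directions, a puncture and its string

`θ p` is the direction of the boundary at `p` in quarter turns, `φ` a potential of the string counter
and `a` a point of the bottom line where the string of the puncture `z` ends.
-/

set_option autoImplicit false

namespace Full.Loop

open Finset

variable {α : Type*} {g : Geo α} {X : Finset α} {f : α → α} {w : α → ℤ} {x y z a : α} {s : ℤ}

/-- `(y, s)` is the right neighbour of `(x, 0)` on the same line -/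
structure Geo.Nr (g : Geo α) (X : Finset α) (x y : α) (s : ℤ) : Prop where
  adj : g.Adj X x y s
  side : g.sd y = g.sd x
  lt : g.lt x y s
  nlt : ¬ g.lt y x (-s)
  sb : s + g.b x y = 1
  sb' : g.b y x = s

lemma Geo.Adj.mono {X Y : Finset α} (A : g.Adj Y x y s) (h : X ⊆ Y) : g.Adj X x y s :=
  ⟨A.nx, A.ny, fun p hp => A.a1 p (h hp), fun p hp => A.a2 p (h hp)⟩

lemma Geo.Nr.mono {X Y : Finset α} (A : g.Nr Y x y s) (h : X ⊆ Y) : g.Nr X x y s :=
  ⟨A.adj.mono h, A.side, A.lt, A.nlt, A.sb, A.sb'⟩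

lemma Geo.D_bot {p q : α} (h1 : g.sd p = Side.bot) (h2 : g.sd q = Side.bot) : g.D p q = 1 := by
  unfold Geo.D
  rw [h1, h2]
  rfl

lemma Geo.D_ne {p q : α} (h : g.sd p ≠ g.sd q) : g.D p q = 0 := by
  unfold Geo.D
  split_ifs with h1 h2
  · exact absurd (h1.1.trans h1.2.symm) h
  · exact absurd (h2.1.trans h2.2.symm) h
  · rfl

lemma Geo.D_comm (g : Geo α) (p q : α) : g.D p q = g.D q p := by
  unfold Geo.D
  cases g.sd p <;> cases g.sd q <;> rfl

lemma Geo.Nr.T (B : g.Nr X x y s) : g.T x y s = - g.D x y := by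
  unfold Geo.T
  rw [g.u_eq, g.u_eq, if_neg B.nlt, if_pos B.lt]
  ring

lemma Geo.Nr.D_ne (B : g.Nr X x y s) : g.D x y = -1 ∧ g.sd x = Side.top ∨
    g.D x y = 1 ∧ g.sd x = Side.bot := by
  have h := B.side
  have hx := B.adj.nx
  unfold Geo.nz at hx
  cases h1 : g.sd x
  · rw [h1] at h
    exact Or.inl ⟨Geo.D_top h1 h, rfl⟩
  · rw [h1] at h
    exact Or.inr ⟨Geo.D_bot h1 h, rfl⟩
  · exact absurd h1 hx

lemma Geo.Nr.b1 (B : g.Nr X x y s) {q : α} (hq : q ∈ X) (qx : q ≠ x) (qy : q ≠ y)
    (tq : g.sd q = g.sd x) : g.b y q = s + g.b x q := by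
  have h := (B.adj.S1 hq qx qy).2 0
  have hd := (B.adj.S1 hq qx qy).1
  unfold Geo.S at h
  rw [← hd] at h
  have h1 : g.D x q = -1 ∨ g.D x q = 1 := by
    rcases B.D_ne with ⟨_, h2⟩ | ⟨_, h2⟩
    · exact Or.inl (Geo.D_top h2 (tq.trans h2))
    · exact Or.inr (Geo.D_bot h2 (tq.trans h2))
  rcases h1 with h1 | h1 <;> rw [h1] at h <;> omega

/-! ### directions -/

/-- the turning of planar strands between walls with the directions `θ` -/
def Geo.LD (g : Geo α) (X : Finset α) (f : α → α) (w θ t : α → ℤ) : Prop :=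
  ∀ p ∈ X, g.nz p → g.nz (f p) → t p = θ (f p) - θ p + 2 * g.T p (f p) (w p)

/-- arcs are shorter than the period -/
lemma Geo.NC.shorter (H : Inv X f w) (N : g.NC X f w) (hs : g.Sep X) {p : α} (hp : p ∈ X)
    (h1 : g.nz p) (h2 : g.sd (f p) = g.sd p) :
    g.T p (f p) (w p) = - g.D p p * (2 * w p - 1 + 2 * g.b p (f p)) := by
  have h1' : g.nz (f p) := by unfold Geo.nz at h1 ⊢; rwa [h2]
  have n1 := N p hp h1 h1' p hp h1 h1' 1 (by
      rintro (⟨_, c⟩ | ⟨c, _⟩)
      · omega
      · exact H.ne p hp c.symm)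
  have hix := hs p hp (f p) (H.mem p hp) h2.symm (H.ne p hp).symm
  have d1 : g.D (f p) p = g.D p p := by unfold Geo.D; rw [h2]
  have d2 : g.D p (f p) = g.D p p := by unfold Geo.D; rw [h2]
  have d3 : g.D (f p) (f p) = g.D p p := by unfold Geo.D; rw [h2]
  have d4 : g.D p p = -1 ∨ g.D p p = 1 := by
    unfold Geo.nz at h1
    cases h3 : g.sd p
    · exact Or.inl (Geo.D_top h3 h3)
    · exact Or.inr (Geo.D_bot h3 h3)
    · exact absurd h3 h1
  unfold Geo.L at n1
  rw [g.u_eq, g.u_eq, g.u_eq, g.u_eq, d1, d2, d3] at n1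
  have e1 : g.lt p p 1 := Or.inl (by omega)
  have e2 : g.lt (f p) (f p) (1 + w p - w p) := Or.inl (by omega)
  rw [if_pos e1, if_pos e2] at n1
  have A : g.lt (f p) p (1 - w p) := by
    by_contra h
    rw [if_neg h] at n1
    rcases d4 with d4 | d4 <;> rw [d4] at n1 <;> split_ifs at n1 <;> omega
  have B : g.lt p (f p) (1 + w p) := by
    by_contra h
    rw [if_neg h] at n1
    rcases d4 with d4 | d4 <;> rw [d4] at n1 <;> split_ifs at n1 <;> omega
  unfold Geo.T
  rw [g.u_eq, g.u_eq, d1, d2]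
  unfold Geo.lt at A B ⊢
  unfold Geo.b
  have key : ((if 0 < -w p ∨ -w p = 0 ∧ g.ix (f p) < g.ix p then (1 : ℤ) else 0) -
      (if 0 < w p ∨ w p = 0 ∧ g.ix p < g.ix (f p) then 1 else 0)) =
      - (2 * w p - 1 + 2 * (if g.ix p < g.ix (f p) then 1 else 0)) := by
    rcases lt_or_gt_of_ne hix with h | h
    · rw [if_pos h]
      have h' : ¬ g.ix (f p) < g.ix p := not_lt.mpr h.le
      simp only [h, h', and_true, and_false, or_false] at A B ⊢
      have c : w p = 0 ∨ w p = -1 := by omega
      rcases c with c | c <;> rw [c] <;> norm_num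
    · have h' : ¬ g.ix p < g.ix (f p) := not_lt.mpr h.le
      rw [if_neg h']
      simp only [h, h', and_true, and_false, or_false] at A B ⊢
      have c : w p = 0 ∨ w p = 1 := by omega
      rcases c with c | c <;> rw [c] <;> norm_num
  rw [← mul_sub, key]
  ring

/-! ### the string of the puncture -/

/-- number of crossings of the string of the puncture: `(e, κ)` is the end of the strand of the
puncture, `a` the end of the string -/
def Geo.R (g : Geo α) (f : α → α) (w : α → ℤ) (e : α) (κ : ℤ) (a p : α) : ℤ :=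
  g.S p e (-κ) - g.S (f p) e (w p - κ) - g.S p a 0 + g.S (f p) a (w p)

/-- the law of the string -/
def Geo.LR (g : Geo α) (X : Finset α) (f : α → α) (w : α → ℤ) (z a : α) (φ c : α → ℤ) : Prop :=
  ∀ p ∈ X, g.nz p → g.nz (f p) → c p = φ (f p) - φ p + g.R f w (f z) (w z) a p

/-- correction of the turning of the strand of the puncture -/
def Geo.B4 (g : Geo α) (a q : α) (k : ℤ) : ℤ :=
  if g.sd q = Side.bot then -4 * k - 2 + 4 * g.b q a else 0

/-- the law of the strand of the puncture -/
def Geo.LZZ (g : Geo α) (f : α → α) (w θ : α → ℤ) (z a : α) (φ c t : α → ℤ) : Prop :=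
  t z = θ (f z) - θ z + 4 * (φ (f z) - c z) + g.B4 a (f z) (w z)

/-- sums of two kernels differ by a constant -/
lemma Geo.D_top_sub {e q q' : α} (he : g.nz e) (hq : g.nz q) (hq' : g.nz q') :
    g.D e q - g.D e q' = (if g.sd q' = Side.top then 1 else 0) - (if g.sd q = Side.top then 1 else 0) := by
  have h1 := Geo.dl_eq he hq
  have h2 := Geo.dl_eq he hq'
  linarith

variable [DecidableEq α]

/-- additivity of the crossing number -/
lemma Geo.R_add (A : g.Adj (insert a X) x y s) {e : α} (he : e ∈ X) (ne : g.nz e) (na : g.nz a)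
    (ex : e ≠ x) (ey : e ≠ y) (ax : a ≠ x) (ay : a ≠ y) (nfy : g.nz (f y))
    {p : α} (h1 : f p = x) (κ : ℤ) :
    g.S p e (-κ) - g.S (f y) e (w p + s + w y - κ) - g.S p a 0 + g.S (f y) a (w p + s + w y) =
      g.R f w e κ a p + g.R f w e κ a y := by
  have s1 := (A.S1 (mem_insert_of_mem he) ex ey).2 (-κ)
  have s2 := (A.S1 (mem_insert_self a X) ax ay).2 0
  have d1 := Geo.D_top_sub nfy ne na
  have d2 := Geo.D_top_sub A.nx ne na
  have d3 : (g.D (f y) e - g.D (f y) a) = (g.D x e - g.D x a) := by rw [d1, d2]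
  unfold Geo.R
  rw [h1, s1, s2]
  have c1 := g.S_sub (f y) e (w y - κ) (-(w p + s))
  have c2 := g.S_sub (f y) a (w y) (-(w p + s))
  have c3 := g.S_sub x e (-κ - s) (-(w p + s))
  have c4 := g.S_sub x a (0 - s) (-(w p + s))
  have e1 : w y - κ - -(w p + s) = w p + s + w y - κ := by ring
  have e2 : w y - -(w p + s) = w p + s + w y := by ring
  have e3 : -κ - s - -(w p + s) = w p - κ := by ring
  have e4 : 0 - s - -(w p + s) = w p := by ring
  rw [e1] at c1
  rw [e2] at c2
  rw [e3] at c3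
  rw [e4] at c4
  rw [c1, c2, c3, c4]
  linear_combination (w p + s) * d3

omit [DecidableEq α] in
/-- moving the end of the strand of the puncture along a strand -/
lemma Geo.R_move (N : g.NC X f w) (A : g.Adj X x y s) (hy : y ∈ X) (ny : g.nz y)
    (nfy : g.nz (f y)) {p : α} (hp : p ∈ X) (hfp : f p ∈ X) (np : g.nz p) (nfp : g.nz (f p))
    (yp : y ≠ p) (yfp : y ≠ f p) (px : p ≠ x) (fpx : f p ≠ x) (κ : ℤ) :
    g.R f w (f y) (κ + s + w y) a p = g.R f w x κ a p := by
  have e := Geo.NC.sumL N hp np nfp hy ny nfy yp yfp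
  have a1 := A.S2 hp px (Ne.symm yp)
  have a2 := A.S2 hfp fpx (Ne.symm yfp)
  obtain ⟨e1, e2⟩ := e
  have b1 := a1.2 0
  have b2 := a2.2 (w p)
  have c1 := g.S_sub p (f y) 0 (κ + s + w y)
  have c2 := g.S_sub (f p) (f y) (w p) (κ + s + w y)
  have c3 := g.S_sub p x 0 κ
  have c4 := g.S_sub (f p) x (w p) κ
  rw [zero_sub] at c1 c3
  unfold Geo.R
  rw [c1, c2, c3, c4]
  have d1 := a1.1
  have d2 := a2.1
  have f1 : g.D p (f y) - g.D (f p) (f y) = g.D p x - g.D (f p) x := by rw [e1, d1, d2]
  have f2 : g.S p (f y) 0 - g.S (f p) (f y) (w p) = g.S p x 0 - g.S (f p) x (w p) -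
      (g.D p x - g.D (f p) x) * s - (g.D p x - g.D (f p) x) * w y := by
    rw [← f1]
    rw [b1, b2] at e2
    have : g.D p x - g.D (f p) x = g.D p (f y) - g.D (f p) (f y) := f1.symm
    linear_combination e2 + (-s) * this
  linear_combination f2 + (κ + s + w y) * f1

/-- standing assumptions: `z` is the only puncture -/
structure Geo.Pt (g : Geo α) (X : Finset α) (z : α) : Prop where
  mem : z ∈ X
  non : g.sd z = Side.non
  nz : ∀ p ∈ X, p ≠ z → g.nz p

/-- moving the end of the strand of the puncture: its own turning -/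
lemma Geo.B4_move (H : Inv X f w) (N : g.NC X f w) (hs : g.Sep X) (B : g.Nr (insert a X) x y s)
    (hx : x ∈ X) (hy : y ∈ X) (ba : g.sd a = Side.bot) (ax : a ≠ x) (ay : a ≠ y)
    (nfy : g.nz (f y)) (hfx : f x ≠ y) (κ : ℤ) :
    g.B4 a (f y) (κ + s + w y) = g.B4 a x κ + 4 * g.R f w x κ a y + 2 * g.T y (f y) (w y) -
      2 * g.T x y s := by
  have a2 := H.inv y hy
  have hyx : f y ≠ x := fun e => hfx (by rw [← e, a2])
  have hyy := H.ne y hy
  have hfy := H.mem y hy
  have sb := B.sb
  have sb' := B.sb'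
  rcases B.D_ne with ⟨dxy, tx⟩ | ⟨dxy, tx⟩
  · -- top
    have ty : g.sd y = Side.top := B.side.trans tx
    have dyx : g.D y x = -1 := Geo.D_top ty tx
    have dya : g.D y a = 0 := Geo.D_ne (by rw [ty, ba]; decide)
    by_cases ta : g.sd (f y) = Side.top
    · have sh := Geo.NC.shorter H N hs hy (g.nz_top ty) (ta.trans ty.symm)
      rw [Geo.D_top ty ty] at sh
      have dfx : g.D (f y) x = -1 := Geo.D_top ta tx
      have dfa : g.D (f y) a = 0 := Geo.D_ne (by rw [ta, ba]; decide)
      have b1 := B.b1 (mem_insert_of_mem hfy) hyx hyy (ta.trans tx.symm)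
      have hix := hs x hx (f y) hfy (by rw [tx, ta]) (Ne.symm hyx)
      have b2 : g.b (f y) x = 1 - g.b x (f y) := by
        unfold Geo.b
        rcases lt_or_gt_of_ne hix with h | h
        · rw [if_pos h, if_neg (not_lt.mpr h.le)]; ring
        · rw [if_pos h, if_neg (not_lt.mpr h.le)]; ring
      unfold Geo.B4 Geo.R Geo.S
      rw [B.T, sh, dxy, dyx, dya, dfx, dfa, b2, b1, sb', if_neg (by rw [ta]; decide),
        if_neg (by rw [tx]; decide)]
      linear_combination (0 : ℤ) * sb
    · have tb : g.sd (f y) = Side.bot := by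
        unfold Geo.nz at nfy
        cases h : g.sd (f y)
        · exact absurd h ta
        · rfl
        · exact absurd h nfy
      have T0 : g.T y (f y) (w y) = 0 := by
        unfold Geo.T
        rw [g.u_eq, g.u_eq, Geo.D_ne (p := f y) (q := y) (by rw [tb, ty]; decide),
          Geo.D_ne (p := y) (q := f y) (by rw [tb, ty]; decide)]
        ring
      have dfx : g.D (f y) x = 0 := Geo.D_ne (by rw [tb, tx]; decide)
      have dfa : g.D (f y) a = 1 := Geo.D_bot tb ba
      unfold Geo.B4 Geo.R Geo.S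
      rw [B.T, T0, dxy, dyx, dya, dfx, dfa, sb', if_pos tb, if_neg (by rw [tx]; decide)]
      ring
  · -- bottom
    have ty : g.sd y = Side.bot := B.side.trans tx
    have dyx : g.D y x = 1 := Geo.D_bot ty tx
    have dya : g.D y a = 1 := Geo.D_bot ty ba
    have ba1 := B.b1 (mem_insert_self a X) ax ay (ba.trans tx.symm)
    by_cases ta : g.sd (f y) = Side.bot
    · have sh := Geo.NC.shorter H N hs hy (by unfold Geo.nz; rw [ty]; decide) (ta.trans ty.symm)
      rw [Geo.D_bot ty ty] at sh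
      have dfx : g.D (f y) x = 1 := Geo.D_bot ta tx
      have dfa : g.D (f y) a = 1 := Geo.D_bot ta ba
      have b1 := B.b1 (mem_insert_of_mem hfy) hyx hyy (ta.trans tx.symm)
      have hix := hs x hx (f y) hfy (by rw [tx, ta]) (Ne.symm hyx)
      have b2 : g.b (f y) x = 1 - g.b x (f y) := by
        unfold Geo.b
        rcases lt_or_gt_of_ne hix with h | h
        · rw [if_pos h, if_neg (not_lt.mpr h.le)]; ring
        · rw [if_pos h, if_neg (not_lt.mpr h.le)]; ring
      unfold Geo.B4 Geo.R Geo.S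
      rw [B.T, sh, dxy, dyx, dya, dfx, dfa, b2, b1, sb', ba1, if_pos ta, if_pos tx]
      ring
    · have tb : g.sd (f y) = Side.top := by
        unfold Geo.nz at nfy
        cases h : g.sd (f y)
        · rfl
        · exact absurd h ta
        · exact absurd h nfy
      have T0 : g.T y (f y) (w y) = 0 := by
        unfold Geo.T
        rw [g.u_eq, g.u_eq, Geo.D_ne (p := f y) (q := y) (by rw [tb, ty]; decide),
          Geo.D_ne (p := y) (q := f y) (by rw [tb, ty]; decide)]
        ring
      have dfx : g.D (f y) x = 0 := Geo.D_ne (by rw [tb, tx]; decide)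
      have dfa : g.D (f y) a = 0 := Geo.D_ne (by rw [tb, ba]; decide)
      unfold Geo.B4 Geo.R Geo.S
      rw [B.T, T0, dxy, dyx, dya, dfx, dfa, sb', ba1, if_neg (by rw [tb]; decide), if_pos tx]
      ring

section join

theorem Geo.LD.join {θ t : α → ℤ} (H : Inv X f w) (N : g.NC X f w)
    (A : g.Adj X x y s) (hx : x ∈ X) (hy : y ∈ X) (hxy : x ≠ y)
    (hθ : θ y = θ x + 2 * g.T x y s) (h : g.LD X f w θ t) :
    g.LD ((X.erase x).erase y) (jf x y f) (jh x y s f w) θ (jh x y 0 f t) := by
  intro p hp' np nfp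
  have hp := hp'
  simp only [Finset.mem_erase] at hp
  obtain ⟨py, px, hp⟩ := hp
  by_cases h1 : f p = x
  · rw [jf_x h1] at nfp
    rw [jf_x h1, jh_x h1, jh_x h1, h p hp np (by rw [h1]; exact A.nx), h y hy A.ny nfp,
      Geo.T_join H N A hy hxy hp px py np h1 nfp, h1, hθ]
    ring
  · by_cases h2 : f p = y
    · rw [jf_y h1 h2] at nfp
      have e := Geo.T_join H N A.symm hx hxy.symm hp py px np h2 nfp
      have e' : g.T y x (-s) = - g.T x y s := g.T_neg x y s
      rw [jf_y h1 h2, jh_y h1 h2, jh_y h1 h2, h p hp np (by rw [h2]; exact A.ny),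
        h x hx A.nx nfp, sub_eq_add_neg (w p), e, e', h2, hθ]
      ring
    · rw [jf_o h1 h2] at nfp
      rw [jf_o h1 h2, jh_o h1 h2, jh_o h1 h2, h p hp np nfp]

theorem Geo.LR.join {φ c : α → ℤ} {sc : ℤ} (H : Inv X f w) (N : g.NC X f w) (P : g.Pt X z)
    (A : g.Adj (insert a X) x y s) (hx : x ∈ X) (hy : y ∈ X) (hxy : x ≠ y) (na : g.nz a)
    (ax : a ≠ x) (ay : a ≠ y) (hφ : φ y = φ x + sc) (h : g.LR X f w z a φ c) (hfx : f x ≠ y) :
    g.LR ((X.erase x).erase y) (jf x y f) (jh x y s f w) z a φ (jh x y sc f c) := by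
  have A' := A.mono (Finset.subset_insert a X)
  have hz := P.mem
  have zx : z ≠ x := fun e => A.nx (by rw [← e]; exact P.non)
  have zy : z ≠ y := fun e => A.ny (by rw [← e]; exact P.non)
  have a0 := H.inv z hz
  have a1 := H.inv x hx
  have a2 := H.inv y hy
  have fzz := H.ne z hz
  have nz1 : ∀ p ∈ X, p ≠ z → g.nz p := P.nz
  have ne := nz1 _ (H.mem z hz) fzz
  have hyx : f y ≠ x := fun e => hfx (by rw [← e, a2])
  intro p hp' np nfp
  have hp := hp'
  simp only [Finset.mem_erase] at hp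
  obtain ⟨py, px, hp⟩ := hp
  have a3 := H.inv p hp
  have pz : p ≠ z := fun e => np (by rw [e]; exact P.non)
  have hfp := H.mem p hp
  by_cases h1 : f z = x
  · -- the end of the strand of z is x
    have fxz : f x = z := by rw [← h1, a0]
    have fpx : f p ≠ x := fun e => pz (by rw [← a3, e, fxz])
    have fpy : f p ≠ y := by
      intro e
      rw [jf_y fpx e, fxz] at nfp
      exact nfp P.non
    rw [jf_o fpx fpy] at nfp
    have nfy : g.nz (f y) := nz1 _ (H.mem y hy) (fun e => hxy (by rw [← h1, ← e, a2]))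
    have m := Geo.R_move (a := a) N A' hy A.ny nfy hp hfp np nfp (Ne.symm py) (Ne.symm fpy) px fpx
      (w z)
    have e0 : g.R (jf x y f) (jh x y s f w) (jf x y f z) (jh x y s f w z) a p =
        g.R f w (f y) (w z + s + w y) a p := by
      unfold Geo.R
      rw [jf_o fpx fpy, jh_o fpx fpy, jf_x h1, jh_x h1]
    rw [e0, m, jf_o fpx fpy, jh_o fpx fpy, h p hp np nfp, h1]
  · by_cases h2 : f z = y
    · have fyz : f y = z := by rw [← h2, a0]
      have fpy : f p ≠ y := fun e => pz (by rw [← a3, e, fyz])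
      have fpx : f p ≠ x := by
        intro e
        rw [jf_x e, fyz] at nfp
        exact nfp P.non
      rw [jf_o fpx fpy] at nfp
      have nfx : g.nz (f x) := nz1 _ (H.mem x hx) (fun e => hxy (by rw [← h2, ← e, a1]))
      have m := Geo.R_move (a := a) N A'.symm hx A.nx nfx hp hfp np nfp (Ne.symm px) (Ne.symm fpx)
        py fpy (w z)
      have e0 : g.R (jf x y f) (jh x y s f w) (jf x y f z) (jh x y s f w z) a p =
          g.R f w (f x) (w z + -s + w x) a p := by
        unfold Geo.R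
        rw [jf_o fpx fpy, jh_o fpx fpy, jf_y h1 h2, jh_y h1 h2]
        rfl
      rw [e0, m, jf_o fpx fpy, jh_o fpx fpy, h p hp np nfp, h2]
    · have nfx : g.nz (f x) := nz1 _ (H.mem x hx) (fun e => h1 (by rw [← e, a1]))
      have nfy : g.nz (f y) := nz1 _ (H.mem y hy) (fun e => h2 (by rw [← e, a2]))
      by_cases c1 : f p = x
      · have r := Geo.R_add (f := f) (w := w) A (H.mem z hz) ne na h1 h2 ax ay nfy c1 (w z)
        have e0 : g.R (jf x y f) (jh x y s f w) (jf x y f z) (jh x y s f w z) a p =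
            g.S p (f z) (-w z) - g.S (f y) (f z) (w p + s + w y - w z) - g.S p a 0 +
              g.S (f y) a (w p + s + w y) := by
          unfold Geo.R
          rw [jf_x c1, jh_x c1, jf_o h1 h2, jh_o h1 h2]
        rw [e0, r, jf_x c1, jh_x c1, h p hp np (by rw [c1]; exact A.nx), h y hy A.ny nfy, c1, hφ]
        ring
      · by_cases c2 : f p = y
        · have A2 : g.Adj (insert a X) y x (-s) := A.symm
          have r := Geo.R_add (f := f) (w := w) A2 (H.mem z hz) ne na h2 h1 ay ax nfx c2 (w z)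
          have e0 : g.R (jf x y f) (jh x y s f w) (jf x y f z) (jh x y s f w z) a p =
              g.S p (f z) (-w z) - g.S (f x) (f z) (w p + -s + w x - w z) - g.S p a 0 +
                g.S (f x) a (w p + -s + w x) := by
            unfold Geo.R
            rw [jf_y c1 c2, jh_y c1 c2, jf_o h1 h2, jh_o h1 h2]
            rfl
          rw [e0, r, jf_y c1 c2, jh_y c1 c2, h p hp np (by rw [c2]; exact A.ny),
            h x hx A.nx nfx, c2, hφ]
          ring
        · rw [jf_o c1 c2] at nfp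
          have e0 : g.R (jf x y f) (jh x y s f w) (jf x y f z) (jh x y s f w z) a p =
              g.R f w (f z) (w z) a p := by
            unfold Geo.R
            rw [jf_o c1 c2, jh_o c1 c2, jf_o h1 h2, jh_o h1 h2]
          rw [e0, jf_o c1 c2, jh_o c1 c2, h p hp np nfp]

end join

end Full.Loop
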