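import Pool.Agent.Full.Loop.AnnSt

/-!
# A disc is a state without windings
-/

set_option autoImplicit false

namespace Full.Loop

open Finset Function

variable {α : Type*} {m g : α → α}

section hom
variable {G G' : Type*} [AddCommGroup G] [AddCommGroup G'] {a b : α → G}

lemma hsum_map (F : G →+ G') (n : ℕ) (x : α) :
    F (hsum m g a b n x) = hsum m g (fun y => F (a y)) (fun y => F (b y)) n x := by
  unfold hsum
  rw [map_sum]
  refine Finset.sum_congr rfl fun k _ => ?_
  rw [map_add]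

lemma hol_map (F : G →+ G') (x : α) :
    F (hol m g a b x) = hol m g (fun y => F (a y)) (fun y => F (b y)) x := hsum_map F _ x

lemma lhol_map (F : G →+ G') (x : α) :
    F (lhol m g a b x) = lhol m g (fun y => F (a y)) (fun y => F (b y)) x := hsum_map F _ x

lemma hsum_const_zero (n : ℕ) (x : α) : hsum m g (fun _ => (0 : G)) (fun _ => 0) n x = 0 := by
  unfold hsum
  exact Finset.sum_eq_zero fun k _ => add_zero 0

end hom

/-- winding of the holonomy -/
def F1 : ℤ × ℤ × ℤ →+ ℤ := AddMonoidHom.fst ℤ (ℤ × ℤ)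
/-- turning -/
def F2 : ℤ × ℤ × ℤ →+ ℤ := (AddMonoidHom.fst ℤ ℤ).comp (AddMonoidHom.snd ℤ (ℤ × ℤ))
/-- string -/
def F3 : ℤ × ℤ × ℤ →+ ℤ := (AddMonoidHom.snd ℤ ℤ).comp (AddMonoidHom.snd ℤ (ℤ × ℤ))

variable {aT : α → ℤ} {X : Finset α} {θ : α → ℤ}

lemma hol_disc (p : α) : hol m g (fun x => ((0, aT x, 0) : ℤ × ℤ × ℤ)) (fun _ => 0) p =
    (0, hol m g aT (fun _ => 0) p, 0) := by
  have h1 := hol_map (m := m) (g := g) (a := fun x => ((0, aT x, 0) : ℤ × ℤ × ℤ))
    (b := fun _ => 0) F1 p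
  have h2 := hol_map (m := m) (g := g) (a := fun x => ((0, aT x, 0) : ℤ × ℤ × ℤ))
    (b := fun _ => 0) F2 p
  have h3 := hol_map (m := m) (g := g) (a := fun x => ((0, aT x, 0) : ℤ × ℤ × ℤ))
    (b := fun _ => 0) F3 p
  refine Prod.ext ?_ (Prod.ext ?_ ?_)
  · exact h1.trans (hsum_const_zero _ _)
  · exact h2
  · exact h3.trans (hsum_const_zero _ _)

lemma lhol_disc (p : α) : lhol m g (fun x => ((0, aT x, 0) : ℤ × ℤ × ℤ)) (fun _ => 0) p =
    (0, lhol m g aT (fun _ => 0) p, 0) := by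
  have h1 := lhol_map (m := m) (g := g) (a := fun x => ((0, aT x, 0) : ℤ × ℤ × ℤ))
    (b := fun _ => 0) F1 p
  have h2 := lhol_map (m := m) (g := g) (a := fun x => ((0, aT x, 0) : ℤ × ℤ × ℤ))
    (b := fun _ => 0) F2 p
  have h3 := lhol_map (m := m) (g := g) (a := fun x => ((0, aT x, 0) : ℤ × ℤ × ℤ))
    (b := fun _ => 0) F3 p
  refine Prod.ext ?_ (Prod.ext ?_ ?_)
  · exact h1.trans (hsum_const_zero _ _)
  · exact h2
  · exact h3.trans (hsum_const_zero _ _)

/-- **the law of a disc**: non crossing in the linear order `P` and the turning law -/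
theorem AS0.disc (h2 : Two m g) (per : ∀ z, z ∈ periodicPts (g ∘ m)) (haT : ∀ x, aT (m x) = -aT x)
    (hfix : ∀ p ∈ X, g p = p) (hmem : ∀ p ∈ X, other m g p ∈ X) (P : α → ℚ)
    (hinj : ∀ p ∈ X, ∀ q ∈ X, P p = P q → p = q)
    (hN : ∀ p ∈ X, ∀ q ∈ X, q ≠ p → q ≠ other m g p →
      ((P p < P q ↔ P (other m g p) < P q) ↔
        (P p < P (other m g q) ↔ P (other m g p) < P (other m g q))))
    (hT : ∀ p ∈ X, P p < P (other m g p) →
      hol m g aT (fun _ => 0) p = θ (other m g p) - θ p - 2)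
    (hL : ∀ p, Closed m g p → lhol m g aT (fun _ => 0) p = 4 ∨ lhol m g aT (fun _ => 0) p = -4) :
    AS0 m g (fun x => ((0, aT x, 0) : ℤ × ℤ × ℤ)) (fun _ => 0) ⟨fun _ => Side.bot, P⟩ X θ := by
  have hd : HolD m g (fun x => ((0, aT x, 0) : ℤ × ℤ × ℤ)) (fun _ => 0) := by
    refine ⟨fun x => ?_, fun x => ?_, fun _ _ => rfl⟩
    · rw [haT]
      simp
    · simp
  have hdT : HolD m g aT (fun _ => 0) := ⟨haT, fun x => by simp, fun _ _ => rfl⟩
  have hw0 : ∀ p, hw m g (fun x => ((0, aT x, 0) : ℤ × ℤ × ℤ)) (fun _ => 0) p = 0 := fun p => by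
    unfold hw
    rw [hol_disc]
  have ht0 : ∀ p, ht m g (fun x => ((0, aT x, 0) : ℤ × ℤ × ℤ)) (fun _ => 0) p =
      hol m g aT (fun _ => 0) p := fun p => by
    unfold ht
    rw [hol_disc]
  have hc0 : ∀ p, hc m g (fun x => ((0, aT x, 0) : ℤ × ℤ × ℤ)) (fun _ => 0) p = 0 := fun p => by
    unfold hc
    rw [hol_disc]
  have hu : ∀ p q k, (⟨fun _ => Side.bot, P⟩ : Geo α).u p q k = if 0 < k ∨ k = 0 ∧ P p < P q then 1 else 0 := by
    intro p q k
    unfold Geo.u
    rw [if_neg (by rintro ⟨h, -⟩; cases h)]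
    by_cases h : 0 < k ∨ k = 0 ∧ P p < P q
    · rw [if_pos ⟨rfl, rfl, h⟩, if_pos h]
    · rw [if_neg (fun h' => h h'.2.2), if_neg h]
  have hoo : ∀ p ∈ X, other m g (other m g p) = p := fun p hp => h2.other_other (hfix p hp) (per p)
  have hne : ∀ p ∈ X, other m g p ≠ p := fun p hp => h2.other_ne (hfix p hp) (per p)
  refine ⟨⟨h2, per, hd, hfix, hmem, fun p hp q hq _ hpq h => hpq (hinj p hp q hq h), ?_, ?_⟩,
    fun _ _ h => (by cases h), fun p _ => hc0 p, ?_⟩
  · -- non crossing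
    intro p hp _ _ q hq _ _ k hk
    unfold Geo.L
    rw [hw0, hw0, sub_zero, add_zero, hu, hu, hu, hu]
    rcases lt_trichotomy k 0 with h | h | h
    · rw [if_neg (by omega), if_neg (by omega), if_neg (by omega), if_neg (by omega)]
    · subst h
      have n1 : q ≠ p := fun h => hk (Or.inl ⟨h, rfl⟩)
      have n2 : q ≠ other m g p := fun h => hk (Or.inr ⟨h, (hw0 p).symm⟩)
      have := hN p hp q hq n1 n2
      have e0 : ∀ R : Prop, [Decidable R] → (if (0 : ℤ) < 0 ∨ (0 : ℤ) = 0 ∧ R then (1 : ℤ) else 0) =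
          if R then 1 else 0 := by
        intro R _
        by_cases hR : R
        · rw [if_pos (Or.inr ⟨rfl, hR⟩), if_pos hR]
        · rw [if_neg (by rintro (h | ⟨-, h⟩) <;> simp_all), if_neg hR]
      rw [sub_zero, e0, e0, e0, e0]
      by_cases a1 : P p < P q <;> by_cases a2 : P (other m g p) < P q <;>
        by_cases a3 : P p < P (other m g q) <;> by_cases a4 : P (other m g p) < P (other m g q) <;>
        simp only [a1, a2, a3, a4, if_true, if_false, iff_true, iff_false,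
          not_true] at this ⊢
      all_goals
        first
          | rfl
          | (exfalso; linarith [not_lt.1 a2, not_lt.1 a3])
          | (exfalso; linarith [not_lt.1 a1, not_lt.1 a4])
    · rw [if_pos (by omega), if_pos (by omega), if_pos (by omega), if_pos (by omega)]
  · -- turning
    intro p hp _ _
    rw [ht0, hw0]
    unfold Geo.T
    rw [hu, hu]
    have hpo : P p ≠ P (other m g p) := fun h => hne p hp (hinj _ hp _ (hmem p hp) h).symm
    rcases lt_or_gt_of_ne hpo with h | h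
    · rw [hT p hp h, if_neg, if_pos (Or.inr ⟨rfl, h⟩)]
      · ring
      · rintro (h' | ⟨-, h'⟩)
        · simp at h'
        · exact absurd h' (not_lt.mpr h.le)
    · have h3 : P (other m g p) < P (other m g (other m g p)) := by rw [hoo p hp]; exact h
      have h4 := hT (other m g p) (hmem p hp) h3
      rw [hoo p hp] at h4
      have h5 := hol_other h2 hdT (hfix p hp) (per p)
      rw [h5] at h4
      rw [if_pos (Or.inr ⟨rfl, h⟩), if_neg]
      · linarith
      · rintro (h' | ⟨-, h'⟩)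
        · simp at h'
        · exact absurd h' (not_lt.mpr h.le)
  · intro p hp
    rw [lhol_disc]
    rcases hL p hp with h | h
    · rw [h]; exact Or.inl rfl
    · rw [h]; exact Or.inr (Or.inl rfl)

end Full.Loop
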