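import Pool.Agent.Full.Loop.AnnZ
import Pool.Agent.Full.Turn.Hol

/-!
# States: strands of two involutions with their holonomies

The holonomy `(w, t, c)` of a strand has three components: the winding, the turning (in left quarter
turns) and the number of crossings of the string of the puncture.  `AS0` is the state of a region
without puncture, `ASZ` the state of a region with the puncture `z`.  Both are preserved when two
neighbouring ends are glued, and `AS0` becomes `ASZ` when an end is left behind as a puncture.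
-/

set_option autoImplicit false

namespace Full.Loop

open Finset Function

variable {α : Type*} [DecidableEq α] {m g : α → α} {a b : α → ℤ × ℤ × ℤ} {G : Geo α}
  {X : Finset α} {θ φ : α → ℤ} {x y z e : α} {s : ℤ}

/-- winding -/
noncomputable def hw (m g : α → α) (a b : α → ℤ × ℤ × ℤ) (p : α) : ℤ := (hol m g a b p).1
/-- turning -/
noncomputable def ht (m g : α → α) (a b : α → ℤ × ℤ × ℤ) (p : α) : ℤ := (hol m g a b p).2.1
/-- crossings of the string -/
noncomputable def hc (m g : α → α) (a b : α → ℤ × ℤ × ℤ) (p : α) : ℤ := (hol m g a b p).2.2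

omit [DecidableEq α] in
lemma jh_fst [DecidableEq α] (f : α → α) (h : α → ℤ × ℤ × ℤ) (φ : ℤ × ℤ × ℤ) (p : α) :
    (jh x y φ f h p).1 = jh x y φ.1 f (fun q => (h q).1) p := by
  unfold jh
  split_ifs <;> simp

omit [DecidableEq α] in
lemma jh_snd [DecidableEq α] (f : α → α) (h : α → ℤ × ℤ × ℤ) (φ : ℤ × ℤ × ℤ) (p : α) :
    (jh x y φ f h p).2.1 = jh x y φ.2.1 f (fun q => (h q).2.1) p := by
  unfold jh
  split_ifs <;> simp

omit [DecidableEq α] in
lemma jh_thd [DecidableEq α] (f : α → α) (h : α → ℤ × ℤ × ℤ) (φ : ℤ × ℤ × ℤ) (p : α) :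
    (jh x y φ f h p).2.2 = jh x y φ.2.2 f (fun q => (h q).2.2) p := by
  unfold jh
  split_ifs <;> simp

/-- the common part of the states -/
structure Base (m g : α → α) (a b : α → ℤ × ℤ × ℤ) (G : Geo α) (X : Finset α) (θ : α → ℤ) :
    Prop where
  two : Two m g
  per : ∀ z, z ∈ periodicPts (g ∘ m)
  hd : HolD m g a b
  fix : ∀ p ∈ X, g p = p
  mem : ∀ p ∈ X, other m g p ∈ X
  sep : G.Sep X
  nc : G.NC X (other m g) (hw m g a b)
  ld : G.LD X (other m g) (hw m g a b) θ (ht m g a b)

omit [DecidableEq α] in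
lemma Base.inv (S : Base m g a b G X θ) : Inv X (other m g) (hw m g a b) where
  mem := S.mem
  inv p hp := S.two.other_other (S.fix p hp) (S.per p)
  ne p hp := S.two.other_ne (S.fix p hp) (S.per p)
  wf p hp := by
    have := hol_other S.two S.hd (S.fix p hp) (S.per p)
    unfold hw
    rw [this]
    rfl

omit [DecidableEq α] in
lemma Base.ht_other (S : Base m g a b G X θ) {p : α} (hp : p ∈ X) :
    ht m g a b (other m g p) = - ht m g a b p := by
  have := hol_other S.two S.hd (S.fix p hp) (S.per p)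
  unfold ht
  rw [this]
  rfl

omit [DecidableEq α] in
lemma Base.hc_other (S : Base m g a b G X θ) {p : α} (hp : p ∈ X) :
    hc m g a b (other m g p) = - hc m g a b p := by
  have := hol_other S.two S.hd (S.fix p hp) (S.per p)
  unfold hc
  rw [this]
  rfl

/-- state without puncture -/
structure AS0 (m g : α → α) (a b : α → ℤ × ℤ × ℤ) (G : Geo α) (X : Finset α) (θ : α → ℤ) :
    Prop extends Base m g a b G X θ where
  nz : ∀ p ∈ X, G.nz p
  c0 : ∀ p ∈ X, hc m g a b p = 0
  loop : ∀ p, Closed m g p → lhol m g a b p = (0, 4, 0) ∨ lhol m g a b p = (0, -4, 0) ∨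
    lhol m g a b p = (1, 0, 0) ∨ lhol m g a b p = (-1, 0, 0)

/-- state with the puncture `z`; the string of the puncture ends at `e` -/
structure ASZ (m g : α → α) (a b : α → ℤ × ℤ × ℤ) (G : Geo α) (X : Finset α) (θ φ : α → ℤ)
    (z e : α) : Prop extends Base m g a b G X θ where
  pt : G.Pt X z
  be : G.sd e = Side.bot
  eX : e ∉ X
  lr : G.LR X (other m g) (hw m g a b) z e φ (hc m g a b)
  lzz : G.LZZ (other m g) (hw m g a b) θ z e φ (hc m g a b) (ht m g a b)
  loop : ∀ p, Closed m g p → lhol m g a b p = (0, 4, 0) ∨ lhol m g a b p = (0, -4, 0) ∨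
    lhol m g a b p = (1, 0, 0) ∨ lhol m g a b p = (-1, 0, 0) ∨
    lhol m g a b p = (1, 0, -1) ∨ lhol m g a b p = (-1, 0, 1)

/-! ### congruence -/

section congr
variable {f f' : α → α} {w w' t t' c c' : α → ℤ}

omit [DecidableEq α] in
lemma NC_congr (N : G.NC X f w) (hf : ∀ p ∈ X, f' p = f p)
    (hw : ∀ p ∈ X, w' p = w p) : G.NC X f' w' := by
  intro p hp np nfp q hq nq nfq k hk
  rw [hf p hp] at nfp
  rw [hf q hq] at nfq
  unfold On at hk
  rw [hf p hp, hw p hp] at hk
  have := N p hp np nfp q hq nq nfq k hk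
  unfold Geo.L at this ⊢
  rw [hf p hp, hf q hq, hw p hp, hw q hq]
  exact this

omit [DecidableEq α] in
lemma LD_congr (h : G.LD X f w θ t) (hf : ∀ p ∈ X, f' p = f p)
    (hw : ∀ p ∈ X, w' p = w p) (ht : ∀ p ∈ X, t' p = t p) : G.LD X f' w' θ t' := by
  intro p hp np nfp
  rw [hf p hp] at nfp ⊢
  rw [ht p hp, hw p hp]
  exact h p hp np nfp

omit [DecidableEq α] in
lemma LR_congr (h : G.LR X f w z e φ c) (hz : z ∈ X) (hf : ∀ p ∈ X, f' p = f p)
    (hw : ∀ p ∈ X, w' p = w p) (hc : ∀ p ∈ X, c' p = c p) : G.LR X f' w' z e φ c' := by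
  intro p hp np nfp
  rw [hf p hp] at nfp ⊢
  rw [hc p hp, hf z hz, hw z hz, h p hp np nfp]
  unfold Geo.R
  rw [hf p hp, hw p hp]

omit [DecidableEq α] in
lemma LZZ_congr (h : G.LZZ f w θ z e φ c t) (hf : f' z = f z)
    (hw : w' z = w z) (hc : c' z = c z) (ht : t' z = t z) : G.LZZ f' w' θ z e φ c' t' := by
  unfold Geo.LZZ at h ⊢
  rw [hf, hw, hc, ht]
  exact h

end congr

omit [DecidableEq α] in
lemma Sep_mono {Y : Finset α} (h : G.Sep X) (hY : Y ⊆ X) : G.Sep Y :=
  fun p hp q hq => h p (hY hp) q (hY hq)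

/-! ### gluing two neighbours -/

lemma Base.zip (S : Base m g a b G X θ) (hper' : ∀ z, z ∈ periodicPts (tie x y g ∘ m))
    (A : G.Adj X x y s) (hx : x ∈ X) (hy : y ∈ X) (hxy : x ≠ y)
    (hθ : θ y = θ x + 2 * G.T x y s) (sc : ℤ) :
    Base m (tie x y g) a (tieb x y (s, 0, sc) b) G ((X.erase x).erase y) θ ∧
    (∀ p ∈ (X.erase x).erase y, other m (tie x y g) p = jf x y (other m g) p ∧
      hw m (tie x y g) a (tieb x y (s, 0, sc) b) p = jh x y s (other m g) (hw m g a b) p ∧
      ht m (tie x y g) a (tieb x y (s, 0, sc) b) p = jh x y 0 (other m g) (ht m g a b) p ∧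
      hc m (tie x y g) a (tieb x y (s, 0, sc) b) p = jh x y sc (other m g) (hc m g a b) p) := by
  have gx := S.fix x hx
  have gy := S.fix y hy
  have key : ∀ p ∈ (X.erase x).erase y, other m (tie x y g) p = jf x y (other m g) p ∧
      hw m (tie x y g) a (tieb x y (s, 0, sc) b) p = jh x y s (other m g) (hw m g a b) p ∧
      ht m (tie x y g) a (tieb x y (s, 0, sc) b) p = jh x y 0 (other m g) (ht m g a b) p ∧
      hc m (tie x y g) a (tieb x y (s, 0, sc) b) p = jh x y sc (other m g) (hc m g a b) p := by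
    intro p hp
    simp only [Finset.mem_erase] at hp
    obtain ⟨py, px, hp⟩ := hp
    have h := join_tie (φ := ((s, 0, sc) : ℤ × ℤ × ℤ)) S.two S.hd S.per hper' gx gy hxy
      (S.fix p hp) px py
    refine ⟨h.1, ?_, ?_, ?_⟩
    · show (hol m (tie x y g) a (tieb x y (s, 0, sc) b) p).1 = _
      rw [h.2, jh_fst]
      rfl
    · show (hol m (tie x y g) a (tieb x y (s, 0, sc) b) p).2.1 = _
      rw [h.2, jh_snd]
      rfl
    · show (hol m (tie x y g) a (tieb x y (s, 0, sc) b) p).2.2 = _
      rw [h.2, jh_thd]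
      rfl
  have hI := S.inv.join hx hy hxy s
  refine ⟨⟨S.two.tie gx gy hxy, hper', S.hd.tie S.two gx gy hxy, ?_, ?_, ?_, ?_, ?_⟩, key⟩
  · intro p hp
    simp only [Finset.mem_erase] at hp
    exact (tie_fix gx gy hxy).2 ⟨S.fix p hp.2.2, hp.2.1, hp.1⟩
  · intro p hp
    rw [(key p hp).1]
    exact hI.mem p hp
  · exact Sep_mono S.sep ((Finset.erase_subset _ _).trans (Finset.erase_subset _ _))
  · exact NC_congr (S.nc.join S.inv A hx hy hxy) (fun p hp => (key p hp).1)
      (fun p hp => (key p hp).2.1)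
  · exact LD_congr (S.ld.join S.inv S.nc A hx hy hxy hθ) (fun p hp => (key p hp).1)
      (fun p hp => (key p hp).2.1) (fun p hp => (key p hp).2.2.1)

omit [DecidableEq α] in
lemma hol_eq (p : α) : hol m g a b p = (hw m g a b p, ht m g a b p, hc m g a b p) := rfl

/-- **zip, without puncture** -/
theorem AS0.zip (S : AS0 m g a b G X θ) (hper' : ∀ z, z ∈ periodicPts (tie x y g ∘ m))
    (B : G.Nr X x y s) (hx : x ∈ X) (hy : y ∈ X) (hxy : x ≠ y)
    (hθ : θ y = θ x + 2 * G.T x y s) :
    AS0 m (tie x y g) a (tieb x y (s, 0, 0) b) G ((X.erase x).erase y) θ := by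
  obtain ⟨h1, key⟩ := S.toBase.zip hper' B.adj hx hy hxy hθ 0
  refine ⟨h1, fun p hp => S.nz p (Finset.mem_of_mem_erase (Finset.mem_of_mem_erase hp)), ?_, ?_⟩
  · intro p hp
    rw [(key p hp).2.2.2]
    have hp' : p ∈ X := Finset.mem_of_mem_erase (Finset.mem_of_mem_erase hp)
    unfold jh
    rw [S.c0 p hp', S.c0 x hx, S.c0 y hy]
    split_ifs <;> simp
  · intro p hp
    rcases closed_tie (φ := ((s, 0, 0) : ℤ × ℤ × ℤ)) S.two S.hd S.per (S.fix x hx) (S.fix y hy) hxy hp
      with ⟨h2, h3⟩ | ⟨h2, h3⟩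
    · rw [h3]
      exact S.loop p h2
    · have t1 := S.ld x hx (S.nz x hx) (by rw [h2]; exact S.nz y hy)
      rw [h2, hθ] at t1
      have c1 := S.c0 x hx
      have hB := B.T
      have hD := B.D_ne
      rw [hol_eq] at h3
      rcases B.closeT S.inv S.nc S.sep hx h2 with ⟨e1, e2⟩ | ⟨e1, e2⟩
      · rw [e2, hB] at t1
        rcases hD with ⟨d, _⟩ | ⟨d, _⟩
        · have t2 : ht m g a b x = 4 := by rw [t1, d]; ring
          rw [e1, t2, c1] at h3
          rcases h3 with h3 | h3
          · left; rw [h3]; refine Prod.ext ?_ (Prod.ext ?_ ?_) <;> simp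
          · right; left; rw [h3]; refine Prod.ext ?_ (Prod.ext ?_ ?_) <;> simp
        · have t2 : ht m g a b x = -4 := by rw [t1, d]; ring
          rw [e1, t2, c1] at h3
          rcases h3 with h3 | h3
          · right; left; rw [h3]; refine Prod.ext ?_ (Prod.ext ?_ ?_) <;> simp
          · left; rw [h3]; refine Prod.ext ?_ (Prod.ext ?_ ?_) <;> simp
      · have t2 : ht m g a b x = 0 := by rw [t1, e2]; ring
        rw [e1, t2, c1] at h3
        rcases h3 with h3 | h3
        · right; right; right; rw [h3]; refine Prod.ext ?_ (Prod.ext ?_ ?_) <;> simp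
        · right; right; left; rw [h3]; refine Prod.ext ?_ (Prod.ext ?_ ?_) <;> simp

/-- **leaving an end behind as a puncture** -/
theorem AS0.frz (S : AS0 m g a b G X θ) (hz : z ∈ X) (bz : G.sd z = Side.bot)
    (be : G.sd e = Side.bot) (he : e ∉ X) :
    ASZ m g a b (G.frz z) X θ (G.pz z e) z e := by
  have hfz := S.mem z hz
  have hez : e ≠ z := fun h => he (by rw [h]; exact hz)
  refine ⟨⟨S.two, S.per, S.hd, S.fix, S.mem, ?_, S.nc.frz, S.ld.frz⟩, ⟨hz, Geo.frz_z, ?_⟩, ?_, he, ?_, ?_,
    ?_⟩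
  · intro p hp q hq h1 h2
    by_cases pz : p = z
    · subst pz
      rw [Geo.frz_z] at h1
      have h3 : q ≠ p := Ne.symm h2
      rw [Geo.frz_sd h3] at h1
      exact absurd h1.symm (S.nz q hq)
    · by_cases qz : q = z
      · subst qz
        rw [Geo.frz_z, Geo.frz_sd pz] at h1
        exact absurd h1 (S.nz p hp)
      · rw [Geo.frz_sd pz, Geo.frz_sd qz] at h1
        exact S.sep p hp q hq h1 h2
  · intro p hp pz
    exact (Geo.frz_nz pz).mpr (S.nz p hp)
  · rw [Geo.frz_sd hez]
    exact be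
  · exact Geo.LR.frz S.inv S.nc hz bz be hez (S.nz _ hfz) S.c0
  · exact Geo.LZZ.frz S.inv S.nc S.sep hz bz (S.nz _ hfz) S.c0 S.ld
  · intro p hp
    rcases S.loop p hp with h | h | h | h
    · exact Or.inl h
    · exact Or.inr (Or.inl h)
    · exact Or.inr (Or.inr (Or.inl h))
    · exact Or.inr (Or.inr (Or.inr (Or.inl h)))

/-- **zip, with puncture** -/
theorem ASZ.zip {sc : ℤ} (S : ASZ m g a b G X θ φ z e)
    (hper' : ∀ z, z ∈ periodicPts (tie x y g ∘ m))
    (B : G.Nr (insert e X) x y s) (hx : x ∈ X) (hy : y ∈ X) (hxy : x ≠ y)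
    (hθ : θ y = θ x + 2 * G.T x y s) (hφ : φ y = φ x + sc) :
    ASZ m (tie x y g) a (tieb x y (s, 0, sc) b) G ((X.erase x).erase y) θ φ z e := by
  have B' : G.Nr X x y s := B.mono (Finset.subset_insert e X)
  obtain ⟨h1, key⟩ := S.toBase.zip hper' B'.adj hx hy hxy hθ sc
  have zx : z ≠ x := fun h => B.adj.nx (by rw [← h]; exact S.pt.non)
  have zy : z ≠ y := fun h => B.adj.ny (by rw [← h]; exact S.pt.non)
  have ex : e ≠ x := fun h => S.eX (by rw [h]; exact hx)
  have ey : e ≠ y := fun h => S.eX (by rw [h]; exact hy)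
  have ne : G.nz e := by unfold Geo.nz; rw [S.be]; decide
  have hzX : z ∈ (X.erase x).erase y := Finset.mem_erase.mpr ⟨zy, Finset.mem_erase.mpr ⟨zx, S.pt.mem⟩⟩
  have sub : ∀ p ∈ (X.erase x).erase y, p ∈ X := fun p hp =>
    Finset.mem_of_mem_erase (Finset.mem_of_mem_erase hp)
  have hI := S.inv
  refine ⟨h1, ⟨hzX, S.pt.non, fun p hp => S.pt.nz p (sub p hp)⟩, S.be,
    fun h => S.eX (sub e h), ?_, ?_, ?_⟩
  · -- LR
    by_cases hfx : other m g x = y
    · have hfy : other m g y = x := by rw [← hfx, hI.inv x hx]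
      have o : ∀ p ∈ (X.erase x).erase y, other m g p ≠ x ∧ other m g p ≠ y := by
        intro p hp
        have hp' := hp
        simp only [Finset.mem_erase] at hp'
        refine ⟨fun h => hp'.1 ?_, fun h => hp'.2.1 ?_⟩
        · rw [← hI.inv p hp'.2.2, h, hfx]
        · rw [← hI.inv p hp'.2.2, h, hfy]
      have hr : G.LR ((X.erase x).erase y) (other m g) (hw m g a b) z e φ (hc m g a b) :=
        fun p hp => S.lr p (sub p hp)
      refine LR_congr hr hzX (fun p hp => ?_) (fun p hp => ?_) (fun p hp => ?_)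
      · rw [(key p hp).1, jf_o (o p hp).1 (o p hp).2]
      · rw [(key p hp).2.1, jh_o (o p hp).1 (o p hp).2]
      · rw [(key p hp).2.2.2, jh_o (o p hp).1 (o p hp).2]
    · exact LR_congr (S.lr.join hI S.nc S.pt B.adj hx hy hxy ne ex ey hφ hfx) hzX
        (fun p hp => (key p hp).1) (fun p hp => (key p hp).2.1) (fun p hp => (key p hp).2.2.2)
  · -- LZZ
    have kz := key z hzX
    by_cases hfx : other m g x = y
    · have hfy : other m g y = x := by rw [← hfx, hI.inv x hx]
      have o1 : other m g z ≠ x := fun h => zy (by rw [← hI.inv z S.pt.mem, h, hfx])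
      have o2 : other m g z ≠ y := fun h => zx (by rw [← hI.inv z S.pt.mem, h, hfy])
      refine LZZ_congr S.lzz ?_ ?_ ?_ ?_
      · rw [kz.1, jf_o o1 o2]
      · rw [kz.2.1, jh_o o1 o2]
      · rw [kz.2.2.2, jh_o o1 o2]
      · rw [kz.2.2.1, jh_o o1 o2]
    · exact LZZ_congr (S.lzz.join hI S.nc S.sep S.pt B hx hy hxy S.be ex ey hθ hφ S.ld S.lr hfx)
        kz.1 kz.2.1 kz.2.2.2 kz.2.2.1
  · -- closed strands
    intro p hp
    rcases closed_tie (φ := ((s, 0, sc) : ℤ × ℤ × ℤ)) S.two S.hd S.per (S.fix x hx) (S.fix y hy) hxy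
      hp with ⟨h2, h3⟩ | ⟨h2, h3⟩
    · rw [h3]
      exact S.loop p h2
    · have t1 := S.ld x hx B.adj.nx (by rw [h2]; exact B.adj.ny)
      rw [h2, hθ] at t1
      have c1 := B.closeC hI S.pt hx hφ S.be ex ey S.lr h2
      have hB := B.T
      have hD := B.D_ne
      rw [hol_eq] at h3
      rcases B'.closeT hI S.nc S.sep hx h2 with ⟨e1, e2⟩ | ⟨e1, e2⟩
      · have c2 := c1.1 e1
        have c3 : hc m g a b x = sc := by linarith
        rw [e2, hB] at t1
        rcases hD with ⟨d, _⟩ | ⟨d, _⟩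
        · have t2 : ht m g a b x = 4 := by rw [t1, d]; ring
          rw [e1, t2, c3] at h3
          rcases h3 with h3 | h3
          · left; rw [h3]; refine Prod.ext ?_ (Prod.ext ?_ ?_) <;> simp
          · right; left; rw [h3]; refine Prod.ext ?_ (Prod.ext ?_ ?_) <;> simp
        · have t2 : ht m g a b x = -4 := by rw [t1, d]; ring
          rw [e1, t2, c3] at h3
          rcases h3 with h3 | h3
          · right; left; rw [h3]; refine Prod.ext ?_ (Prod.ext ?_ ?_) <;> simp
          · left; rw [h3]; refine Prod.ext ?_ (Prod.ext ?_ ?_) <;> simp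
      · have c2 := c1.2 e1
        have t2 : ht m g a b x = 0 := by rw [t1, e2]; ring
        by_cases hs : G.sd (other m g z) = Side.top
        · rw [if_pos hs] at c2
          have c3 : hc m g a b x = sc + 1 := by linarith
          rw [e1, t2, c3] at h3
          rcases h3 with h3 | h3
          · right; right; right; right; right; rw [h3]; refine Prod.ext ?_ (Prod.ext ?_ ?_) <;> simp
          · right; right; right; right; left; rw [h3]; refine Prod.ext ?_ (Prod.ext ?_ ?_) <;> simp
        · rw [if_neg hs] at c2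
          have c3 : hc m g a b x = sc := by linarith
          rw [e1, t2, c3] at h3
          rcases h3 with h3 | h3
          · right; right; right; left; rw [h3]; refine Prod.ext ?_ (Prod.ext ?_ ?_) <;> simp
          · right; right; left; rw [h3]; refine Prod.ext ?_ (Prod.ext ?_ ?_) <;> simp

end Full.Loop
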