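import Pool.Agent.Full.Loop.Ann

/-!
# The strand of the puncture, closed strands, freeing the puncture
-/

set_option autoImplicit false

namespace Full.Loop

open Finset

variable {α : Type*} {g : Geo α} {X : Finset α} {f : α → α} {w : α → ℤ} {x y z a : α} {s : ℤ}

variable [DecidableEq α]

/-- `(y, s)` is the left neighbour of `(x, 0)`: the exchanged version of `B4_move` -/
lemma Geo.B4_move' (H : Inv X f w) (N : g.NC X f w) (hs : g.Sep X) (B : g.Nr (insert a X) x y s)
    (hx : x ∈ X) (hy : y ∈ X) (ba : g.sd a = Side.bot) (ax : a ≠ x) (ay : a ≠ y)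
    (nfx : g.nz (f x)) (hfx : f x ≠ y) (κ : ℤ) :
    g.B4 a (f x) (κ + -s + w x) = g.B4 a y κ + 4 * g.R f w y κ a x + 2 * g.T x (f x) (w x) -
      2 * g.T y x (-s) := by
  have a2 := H.inv y hy
  have a1 := H.inv x hx
  have hxx := H.ne x hx
  have hfx' := H.mem x hx
  have sb := B.sb
  have sb' := B.sb'
  have hT : g.T y x (-s) = - g.T x y s := g.T_neg x y s
  have hix : g.ix x ≠ g.ix y := hs x hx y hy B.side.symm (fun e => by
    have h1 := B.lt
    have h2 := B.nlt
    rw [e] at h1 h2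
    unfold Geo.lt at h1 h2
    simp only [lt_self_iff_false, and_false, or_false] at h1 h2
    unfold Geo.b at sb sb'
    rw [e] at sb
    simp only [lt_self_iff_false, if_false] at sb sb'
    rw [e] at sb'
    simp only [lt_self_iff_false, if_false] at sb'
    omega)
  rcases B.D_ne with ⟨dxy, tx⟩ | ⟨dxy, tx⟩
  · -- top
    have ty : g.sd y = Side.top := B.side.trans tx
    have dxa : g.D x a = 0 := Geo.D_ne (by rw [tx, ba]; decide)
    by_cases ta : g.sd (f x) = Side.top
    · have sh := Geo.NC.shorter H N hs hx (g.nz_top tx) (ta.trans tx.symm)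
      rw [Geo.D_top tx tx] at sh
      have dfy : g.D (f x) y = -1 := Geo.D_top ta ty
      have dfa : g.D (f x) a = 0 := Geo.D_ne (by rw [ta, ba]; decide)
      have b1 := B.b1 (mem_insert_of_mem hfx') hxx hfx (ta.trans tx.symm)
      have hiy := hs y hy (f x) hfx' (by rw [ty, ta]) (Ne.symm hfx)
      have b2 : g.b (f x) y = 1 - g.b y (f x) := by
        unfold Geo.b
        rcases lt_or_gt_of_ne hiy with h | h
        · rw [if_pos h, if_neg (not_lt.mpr h.le)]; ring
        · rw [if_pos h, if_neg (not_lt.mpr h.le)]; ring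
      unfold Geo.B4 Geo.R Geo.S
      rw [hT, B.T, sh, dxy, dxa, dfy, dfa, b2, b1, if_neg (by rw [ta]; decide),
        if_neg (by rw [ty]; decide)]
      linear_combination (4 : ℤ) * sb
    · have tb : g.sd (f x) = Side.bot := by
        unfold Geo.nz at nfx
        cases h : g.sd (f x)
        · exact absurd h ta
        · rfl
        · exact absurd h nfx
      have T0 : g.T x (f x) (w x) = 0 := by
        unfold Geo.T
        rw [g.u_eq, g.u_eq, Geo.D_ne (p := f x) (q := x) (by rw [tb, tx]; decide),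
          Geo.D_ne (p := x) (q := f x) (by rw [tb, tx]; decide)]
        ring
      have dfy : g.D (f x) y = 0 := Geo.D_ne (by rw [tb, ty]; decide)
      have dfa : g.D (f x) a = 1 := Geo.D_bot tb ba
      unfold Geo.B4 Geo.R Geo.S
      rw [hT, B.T, T0, dxy, dxa, dfy, dfa, if_pos tb, if_neg (by rw [ty]; decide)]
      linear_combination (4 : ℤ) * sb
  · -- bottom
    have ty : g.sd y = Side.bot := B.side.trans tx
    have dxa : g.D x a = 1 := Geo.D_bot tx ba
    have ba1 := B.b1 (mem_insert_self a X) ax ay (ba.trans tx.symm)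
    by_cases ta : g.sd (f x) = Side.bot
    · have sh := Geo.NC.shorter H N hs hx (by unfold Geo.nz; rw [tx]; decide) (ta.trans tx.symm)
      rw [Geo.D_bot tx tx] at sh
      have dfy : g.D (f x) y = 1 := Geo.D_bot ta ty
      have dfa : g.D (f x) a = 1 := Geo.D_bot ta ba
      have b1 := B.b1 (mem_insert_of_mem hfx') hxx hfx (ta.trans tx.symm)
      have hiy := hs y hy (f x) hfx' (by rw [ty, ta]) (Ne.symm hfx)
      have b2 : g.b (f x) y = 1 - g.b y (f x) := by
        unfold Geo.b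
        rcases lt_or_gt_of_ne hiy with h | h
        · rw [if_pos h, if_neg (not_lt.mpr h.le)]; ring
        · rw [if_pos h, if_neg (not_lt.mpr h.le)]; ring
      unfold Geo.B4 Geo.R Geo.S
      rw [hT, B.T, sh, dxy, dxa, dfy, dfa, b2, b1, ba1, if_pos ta, if_pos ty]
      linear_combination (-4 : ℤ) * sb
    · have tb : g.sd (f x) = Side.top := by
        unfold Geo.nz at nfx
        cases h : g.sd (f x)
        · rfl
        · exact absurd h ta
        · exact absurd h nfx
      have T0 : g.T x (f x) (w x) = 0 := by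
        unfold Geo.T
        rw [g.u_eq, g.u_eq, Geo.D_ne (p := f x) (q := x) (by rw [tb, tx]; decide),
          Geo.D_ne (p := x) (q := f x) (by rw [tb, tx]; decide)]
        ring
      have dfy : g.D (f x) y = 0 := Geo.D_ne (by rw [tb, ty]; decide)
      have dfa : g.D (f x) a = 0 := Geo.D_ne (by rw [tb, ba]; decide)
      unfold Geo.B4 Geo.R Geo.S
      rw [hT, B.T, T0, dxy, dxa, dfy, dfa, ba1, if_neg (by rw [tb]; decide), if_pos ty]
      linear_combination (-4 : ℤ) * sb

theorem Geo.LZZ.join {θ φ c t : α → ℤ} {sc : ℤ} (H : Inv X f w) (N : g.NC X f w) (hs : g.Sep X)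
    (P : g.Pt X z) (B : g.Nr (insert a X) x y s) (hx : x ∈ X) (hy : y ∈ X) (hxy : x ≠ y)
    (ba : g.sd a = Side.bot) (ax : a ≠ x) (ay : a ≠ y)
    (hθ : θ y = θ x + 2 * g.T x y s) (hφ : φ y = φ x + sc)
    (hT : g.LD X f w θ t) (hC : g.LR X f w z a φ c) (h : g.LZZ f w θ z a φ c t) (hfx : f x ≠ y) :
    g.LZZ (jf x y f) (jh x y s f w) θ z a φ (jh x y sc f c) (jh x y 0 f t) := by
  have A := B.adj
  have hz := P.mem
  have a0 := H.inv z hz
  have a1 := H.inv x hx
  have a2 := H.inv y hy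
  have hyx : f y ≠ x := fun e => hfx (by rw [← e, a2])
  unfold Geo.LZZ at h ⊢
  by_cases h1 : f z = x
  · have fxz : f x = z := by rw [← h1, a0]
    have nfy : g.nz (f y) := P.nz _ (H.mem y hy) (fun e => hxy (by rw [← h1, ← e, a2]))
    have t1 := hT y hy A.ny nfy
    have c1 := hC y hy A.ny nfy
    have m := Geo.B4_move H N hs B hx hy ba ax ay nfy hfx (w z)
    rw [h1] at h c1
    rw [jf_x h1, jh_x h1, jh_x h1, jh_x h1, m, h, t1, c1, hθ, hφ]
    ring
  · by_cases h2 : f z = y
    · have fyz : f y = z := by rw [← h2, a0]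
      have nfx : g.nz (f x) := P.nz _ (H.mem x hx) (fun e => hxy (by rw [← h2, ← e, a1]))
      have t1 := hT x hx A.nx nfx
      have c1 := hC x hx A.nx nfx
      have m := Geo.B4_move' H N hs B hx hy ba ax ay nfx hfx (w z)
      have e' : g.T y x (-s) = - g.T x y s := g.T_neg x y s
      have e0 : w z - s + w x = w z + -s + w x := by ring
      rw [h2] at h c1
      rw [jf_y h1 h2, jh_y h1 h2, jh_y h1 h2, jh_y h1 h2, e0, m, h, t1, c1, hθ, hφ, e']
      ring
    · rw [jf_o h1 h2, jh_o h1 h2, jh_o h1 h2, jh_o h1 h2, h]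

omit [DecidableEq α] in
/-- closing a strand of neighbours: winding and turning -/
lemma Geo.Nr.closeT (B : g.Nr X x y s) (H : Inv X f w) (N : g.NC X f w) (hs : g.Sep X)
    (hx : x ∈ X) (hfx : f x = y) :
    (w x = s ∧ g.T x y (w x) = g.T x y s) ∨ (w x = s - 1 ∧ g.T x y (w x) = - g.T x y s) := by
  have sh := Geo.NC.shorter H N hs hx B.adj.nx (by rw [hfx]; exact B.side)
  rw [hfx] at sh
  have hD : g.D x x = g.D x y := by
    unfold Geo.D
    rw [B.side]
  have sb := B.sb
  have e : g.T x y (w x) = 1 ∨ g.T x y (w x) = -1 ∨ g.T x y (w x) = 0 := by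
    unfold Geo.T
    rw [g.u_eq, g.u_eq, g.D_comm y x]
    rcases B.D_ne with ⟨d, _⟩ | ⟨d, _⟩ <;> rw [d] <;> split_ifs <;> simp
  rw [B.T]
  rcases B.D_ne with ⟨d, _⟩ | ⟨d, _⟩
  · rw [hD, d] at sh
    rw [d]
    omega
  · rw [hD, d] at sh
    rw [d]
    omega

/-- closing a strand of neighbours, in the presence of the puncture: number of crossings of the
string -/
lemma Geo.Nr.closeC {φ c : α → ℤ} {sc : ℤ} (B : g.Nr (insert a X) x y s) (H : Inv X f w)
    (P : g.Pt X z) (hx : x ∈ X) (hφ : φ y = φ x + sc)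
    (ba : g.sd a = Side.bot) (ax : a ≠ x) (ay : a ≠ y)
    (hC : g.LR X f w z a φ c) (hfx : f x = y) :
    (w x = s → c x - sc = 0) ∧ (w x = s - 1 → c x - sc = if g.sd (f z) = Side.top then 1 else 0) := by
  have zx : z ≠ x := fun e => B.adj.nx (by rw [← e]; exact P.non)
  have zy : z ≠ y := fun e => B.adj.ny (by rw [← e]; exact P.non)
  have h1 : f z ≠ x := fun e => zy (by rw [← hfx, ← e, H.inv z P.mem])
  have h2 : f z ≠ y := fun e => zx (by rw [← H.inv z P.mem, e, ← hfx, H.inv x hx])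
  have ne := P.nz _ (H.mem z P.mem) (H.ne z P.mem)
  have na : g.nz a := by unfold Geo.nz; rw [ba]; decide
  have c1 := hC x hx B.adj.nx (by rw [hfx]; exact B.adj.ny)
  have s1 := (B.adj.S1 (mem_insert_of_mem (H.mem z P.mem)) h1 h2).2
  have s2 := (B.adj.S1 (mem_insert_self a X) ax ay).2
  have d1 := Geo.D_top_sub B.adj.nx na ne
  rw [ba] at d1
  unfold Geo.R at c1
  rw [hfx, s1, s2] at c1
  constructor
  · intro hw
    rw [c1, hw, hφ]
    have e1 : s - w z - s = - w z := by ring
    rw [e1, sub_self]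
    ring_nf
  · intro hw
    rw [c1, hw, hφ]
    have e1 : s - 1 - w z - s = - w z - 1 := by ring
    have e2 : s - 1 - s = 0 - 1 := by ring
    rw [e1, e2, g.S_sub, g.S_sub]
    have : (if Side.bot = Side.top then (1 : ℤ) else 0) = 0 := if_neg (by decide)
    rw [this] at d1
    linear_combination d1

/-! ### freeing the puncture -/

/-- potential of the string when the puncture is freed -/
def Geo.pz (g : Geo α) (z a q : α) : ℤ := if g.sd q = Side.bot then g.b q z - g.b q a else 0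

theorem Geo.LR.frz {c : α → ℤ} (H : Inv X f w) (N : g.NC X f w) (hz : z ∈ X)
    (bz : g.sd z = Side.bot) (ba : g.sd a = Side.bot) (az : a ≠ z) (hne : g.nz (f z))
    (hc : ∀ p ∈ X, c p = 0) : (g.frz z).LR X f w z a (g.pz z a) c := by
  intro p hp np nfp
  have h1 := Geo.nz_frz np
  have h2 := Geo.nz_frz nfp
  have h3 : f z ≠ z := H.ne z hz
  have h4 : z ≠ f p := Ne.symm h2
  have n1 := (Geo.frz_nz h1).mp np
  have n2 := (Geo.frz_nz h2).mp nfp
  have nz' : g.nz z := by unfold Geo.nz; rw [bz]; decide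
  obtain ⟨e1, e2⟩ := Geo.NC.sumL N hp n1 n2 hz nz' hne (Ne.symm h1) h4
  rw [hc p hp]
  unfold Geo.R
  rw [Geo.frz_S h1 h3, Geo.frz_S h2 h3, Geo.frz_S h1 az, Geo.frz_S h2 az]
  have c1 := g.S_sub p (f z) 0 (w z)
  have c2 := g.S_sub (f p) (f z) (w p) (w z)
  rw [zero_sub] at c1
  rw [c1, c2]
  have k1 : ∀ q, g.S q z 0 - g.S q a 0 = g.pz z a q := by
    intro q
    unfold Geo.S Geo.pz
    by_cases hq : g.sd q = Side.bot
    · rw [if_pos hq, Geo.D_bot hq bz, Geo.D_bot hq ba]
      ring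
    · rw [if_neg hq, Geo.D_ne (p := q) (q := z) (by rw [bz]; exact hq),
        Geo.D_ne (p := q) (q := a) (by rw [ba]; exact hq)]
      ring
  have k2 : ∀ q k, g.S q z k - g.S q a k = g.pz z a q := by
    intro q k
    have a1 := g.S_sub q z 0 (-k)
    have a2 := g.S_sub q a 0 (-k)
    rw [sub_neg_eq_add, zero_add] at a1 a2
    rw [a1, a2]
    have hd : g.D q z = g.D q a := by
      unfold Geo.D
      rw [bz, ba]
    rw [hd, ← k1 q]
    ring
  have k3 := k1 p
  have k4 := k2 (f p) (w p)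
  linear_combination -e2 - k3 + k4

omit [DecidableEq α] in
lemma Geo.T_mix {p q : α} (h : g.sd p ≠ g.sd q) (k : ℤ) : g.T p q k = 0 := by
  unfold Geo.T
  rw [g.u_eq, g.u_eq, Geo.D_ne h, Geo.D_ne (Ne.symm h)]
  ring

theorem Geo.LZZ.frz {θ c t : α → ℤ} (H : Inv X f w) (N : g.NC X f w) (hs : g.Sep X) (hz : z ∈ X)
    (bz : g.sd z = Side.bot) (hne : g.nz (f z))
    (hc : ∀ p ∈ X, c p = 0) (h : g.LD X f w θ t) :
    (g.frz z).LZZ f w θ z a (g.pz z a) c t := by
  have h3 : f z ≠ z := H.ne z hz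
  have nz' : g.nz z := by unfold Geo.nz; rw [bz]; decide
  unfold Geo.LZZ Geo.B4 Geo.pz
  rw [Geo.frz_sd h3, h z hz nz' hne, hc z hz]
  by_cases hq : g.sd (f z) = Side.bot
  · rw [if_pos hq, if_pos hq, Geo.NC.shorter H N hs hz nz' (hq.trans bz.symm), Geo.D_bot bz bz]
    have hix := hs z hz (f z) (H.mem z hz) (by rw [bz, hq]) (Ne.symm h3)
    have b2 : g.b (f z) z = 1 - g.b z (f z) := by
      unfold Geo.b
      rcases lt_or_gt_of_ne hix with h | h
      · rw [if_pos h, if_neg (not_lt.mpr h.le)]; ring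
      · rw [if_pos h, if_neg (not_lt.mpr h.le)]; ring
    have b3 : (g.frz z).b (f z) a = g.b (f z) a := rfl
    rw [b2, b3]
    ring
  · rw [if_neg hq, if_neg hq, Geo.T_mix (by rw [bz]; exact Ne.symm hq)]
    ring

theorem Geo.LD.frz {θ t : α → ℤ} (h : g.LD X f w θ t) : (g.frz z).LD X f w θ t := by
  intro p hp np nfp
  have h1 := Geo.nz_frz np
  have h2 := Geo.nz_frz nfp
  rw [h p hp ((Geo.frz_nz h1).mp np) ((Geo.frz_nz h2).mp nfp), Geo.frz_T h1 h2]

end Full.Loop
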