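import Pool.Agent.Full.Loop.Seam

/-!
# Joining neighbours in the presence of the puncture
-/

set_option autoImplicit false

namespace Full.Loop

open Finset

variable {α : Type*} {g : Geo α} {X : Finset α} {f : α → α} {w : α → ℤ} {x y z : α} {s : ℤ}

/-- `(y, s)` is the right neighbour of `(x, 0)` on the top line -/
structure Geo.Nb (g : Geo α) (X : Finset α) (x y : α) (s : ℤ) : Prop where
  adj : g.Adj X x y s
  tx : g.sd x = Side.top
  ty : g.sd y = Side.top
  lt : g.lt x y s
  nlt : ¬ g.lt y x (-s)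
  sb : s + g.b x y = 1
  sb' : g.b y x = s

lemma Geo.Nb.T (B : g.Nb X x y s) : g.T x y s = 1 := by
  unfold Geo.T
  rw [g.u_eq, g.u_eq, if_neg B.nlt, if_pos B.lt, Geo.D_top B.tx B.ty]
  ring

/-- crossing of the seam by the link -/
def Geo.sc (g : Geo α) (z x y : α) (s : ℤ) : ℤ := s + g.b z y - g.b z x

lemma Geo.Nb.b1 (B : g.Nb X x y s) {q : α} (hq : q ∈ X) (qx : q ≠ x) (qy : q ≠ y)
    (tq : g.sd q = Side.top) : g.b y q = s + g.b x q := by
  have h := (B.adj.S1 hq qx qy).2 0
  unfold Geo.S at h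
  rw [Geo.D_top B.tx tq, Geo.D_top B.ty tq] at h
  omega

/-- the potential across a link which does not end in the strand of `z` -/
lemma Geo.Nb.NN (B : g.Nb X x y s) (H : Inv X f w) (hz : z ∈ X) (ne : g.nz (f z))
    (h1 : f z ≠ x) (h2 : f z ≠ y) (κ : ℤ) :
    g.NN z (f z) κ y + g.dl (f z) * s - g.NN z (f z) κ x = g.sc z x y s := by
  have a := (B.adj.S2 (H.mem z hz) h1 h2).2 κ
  have d := Geo.dl_eq ne B.adj.nx
  rw [if_pos B.tx] at d
  unfold Geo.NN Geo.sc
  rw [if_pos B.tx, if_pos B.ty, a, d]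
  ring

/-- moving the end of the strand of `z` along a strand does not change the potential differences
of the other strands -/
lemma Geo.NN_move (N : g.NC X f w) (A : g.Adj X x y s) (hx : x ∈ X)
    (nfx : g.nz (f x)) (ny : g.nz y) {p : α} (hp : p ∈ X) (hfp : f p ∈ X) (np : g.nz p)
    (nfp : g.nz (f p))
    (px : p ≠ x) (pfx : p ≠ f x) (py : p ≠ y) (fpx : f p ≠ x) (fpy : f p ≠ y) (κ : ℤ) :
    g.NN z (f x) (κ - s + w x) (f p) + g.dl (f x) * w p - g.NN z (f x) (κ - s + w x) p =
      g.NN z y κ (f p) + g.dl y * w p - g.NN z y κ p := by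
  have e := Geo.NC.sumL N hx A.nx nfx hp np nfp px pfx
  have key : ∀ q ∈ X, q ≠ x → q ≠ y → g.S (f x) q (κ - s + w x) - g.S y q κ =
      (g.S (f x) q (w x) - g.S x q 0) - (κ - s) * (g.D (f x) q - g.D x q) := by
    intro q hq qx qy
    have a := (A.S1 hq qx qy).2 κ
    have b1 := g.S_sub (f x) q (w x) (-(κ - s))
    have b2 := g.S_sub x q 0 (-(κ - s))
    have e1 : w x - -(κ - s) = κ - s + w x := by ring
    have e2 : 0 - -(κ - s) = κ - s := by ring
    rw [e1] at b1
    rw [e2] at b2
    rw [a, b1, b2]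
    ring
  have k1 := key p hp px py
  have k2 := key (f p) hfp fpx fpy
  have d1 := Geo.dl_eq nfx nfp
  have d2 := Geo.dl_eq ny nfp
  have d3 := (A.S1 hfp fpx fpy).1
  have d4 : g.dl (f x) - g.dl y = g.D (f x) (f p) - g.D x (f p) := by rw [d1, d2, d3]; ring
  have e1 := e.1
  have e2 := e.2
  have d5 : g.dl (f x) * w p = g.dl y * w p + (g.D (f x) (f p) - g.D x (f p)) * w p := by
    rw [← d4]
    ring
  have d6 : (g.D (f x) p - g.D x p) = (g.D (f x) (f p) - g.D x (f p)) := by linarith
  rw [d6] at k1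
  unfold Geo.NN
  linarith

section join

variable [DecidableEq α]

/-- standing assumptions: `z` is the only puncture -/
structure Geo.Punct (g : Geo α) (X : Finset α) (z : α) : Prop where
  mem : z ∈ X
  non : g.sd z = Side.non
  nz : ∀ p ∈ X, p ≠ z → g.nz p

theorem Geo.LC.join {c : α → ℤ} (H : Inv X f w) (N : g.NC X f w) (P : g.Punct X z)
    (B : g.Nb X x y s) (hx : x ∈ X) (hy : y ∈ X) (hxy : x ≠ y) (h : g.LC X f w c z)
    (hfx : f x ≠ y) :
    g.LC ((X.erase x).erase y) (jf x y f) (jh x y s f w) (jh x y (g.sc z x y s) f c) z := by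
  have A := B.adj
  have hz := P.mem
  have zx : z ≠ x := fun e => A.nx (by rw [← e]; exact P.non)
  have zy : z ≠ y := fun e => A.ny (by rw [← e]; exact P.non)
  have a0 := H.inv z hz
  have a1 := H.inv x hx
  have a2 := H.inv y hy
  have fzz := H.ne z hz
  have nz1 : ∀ p ∈ X, p ≠ z → g.nz p := P.nz
  have ne := nz1 _ (H.mem z hz) fzz
  have hyx : f y ≠ x := fun e => hfx (by rw [← e, a2])
  intro p hp' np nfp
  have hp := hp'
  simp only [Finset.mem_erase] at hp
  obtain ⟨py, px, hp⟩ := hp
  have a3 := H.inv p hp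
  have pz : p ≠ z := fun e => np (by rw [e]; exact P.non)
  by_cases h1 : f z = x
  · -- the end of the strand of z is x
    have fxz : f x = z := by rw [← h1, a0]
    have fpx : f p ≠ x := fun e => pz (by rw [← a3, e, fxz])
    have fpy : f p ≠ y := by
      intro e
      rw [jf_y fpx e, fxz] at nfp
      exact nfp P.non
    rw [jf_o fpx fpy] at nfp
    rw [jf_o fpx fpy, jh_o fpx fpy, jh_o fpx fpy, jf_x h1, jh_x h1]
    have pfy : p ≠ f y := fun e => fpy (by rw [e, a2])
    have m := Geo.NN_move (z := z) N A.symm hy (nz1 _ (H.mem y hy) (fun e => by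
      exact hxy (by rw [← h1, ← e, a2]))) A.nx hp (H.mem p hp) np nfp py pfy px fpy fpx (w z)
    rw [h p hp np nfp, h1]
    have e1 : w z - -s + w y = w z + s + w y := by ring
    rw [e1] at m
    linarith
  · by_cases h2 : f z = y
    · have fyz : f y = z := by rw [← h2, a0]
      have fpy : f p ≠ y := fun e => pz (by rw [← a3, e, fyz])
      have fpx : f p ≠ x := by
        intro e
        rw [jf_x e, fyz] at nfp
        exact nfp P.non
      rw [jf_o fpx fpy] at nfp
      rw [jf_o fpx fpy, jh_o fpx fpy, jh_o fpx fpy, jf_y h1 h2, jh_y h1 h2]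
      have pfx : p ≠ f x := fun e => fpx (by rw [e, a1])
      have m := Geo.NN_move (z := z) N A hx (nz1 _ (H.mem x hx) (fun e => by
        exact hxy (by rw [← h2, ← e, a1]))) A.ny hp (H.mem p hp) np nfp px pfx py fpx fpy (w z)
      rw [h p hp np nfp, h2]
      linarith
    · have hN := Geo.Nb.NN B H hz ne h1 h2 (w z)
      have nfx : g.nz (f x) := nz1 _ (H.mem x hx) (fun e => h1 (by rw [← e, a1]))
      have nfy : g.nz (f y) := nz1 _ (H.mem y hy) (fun e => h2 (by rw [← e, a2]))
      rw [jf_o h1 h2, jh_o h1 h2]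
      by_cases c1 : f p = x
      · rw [jf_x c1, jh_x c1, jh_x c1, h p hp np (by rw [c1]; exact A.nx), h y hy A.ny nfy, c1, ← hN]
        ring
      · by_cases c2 : f p = y
        · rw [jf_y c1 c2, jh_y c1 c2, jh_y c1 c2, h p hp np (by rw [c2]; exact A.ny),
            h x hx A.nx nfx, c2, ← hN]
          ring
        · rw [jf_o c1 c2] at nfp
          rw [jf_o c1 c2, jh_o c1 c2, jh_o c1 c2, h p hp np nfp]

theorem Geo.LZ.join {c t : α → ℤ} (H : Inv X f w) (N : g.NC X f w) (hs : g.Sep X)
    (P : g.Punct X z)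
    (B : g.Nb X x y s) (hx : x ∈ X) (hy : y ∈ X) (hxy : x ≠ y) (hT : g.LT X f w c t)
    (hC : g.LC X f w c z) (h : g.LZ f w t z) (hfx : f x ≠ y) :
    g.LZ (jf x y f) (jh x y s f w) (jh x y (-1 + 2 * g.sc z x y s) f t) z := by
  have A := B.adj
  have hz := P.mem
  have a0 := H.inv z hz
  have a1 := H.inv x hx
  have a2 := H.inv y hy
  have hyx : f y ≠ x := fun e => hfx (by rw [← e, a2])
  unfold Geo.LZ at h ⊢
  by_cases h1 : f z = x
  · have fxz : f x = z := by rw [← h1, a0]
    have nfy : g.nz (f y) := P.nz _ (H.mem y hy) (fun e => hxy (by rw [← h1, ← e, a2]))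
    have t1 := hT y hy A.ny nfy
    have c1 := hC y hy A.ny nfy
    rw [h1] at h c1
    rw [if_pos B.tx] at h
    rw [jf_x h1, jh_x h1, jh_x h1]
    have d1 : g.dl x = 0 := by unfold Geo.dl; rw [B.tx]; rfl
    have sb := B.sb
    have sb' := B.sb'
    by_cases ta : g.sd (f y) = Side.top
    · rw [if_pos ta]
      have sh := Geo.NC.short H N hs hy B.ty ta
      have b1 := B.b1 (H.mem y hy) hyx (H.ne y hy) ta
      have n1 : g.NN z x (w z) (f y) = g.b z (f y) + w z - g.b x (f y) := by
        unfold Geo.NN Geo.S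
        rw [if_pos ta, Geo.D_top B.tx ta]
        ring
      have n2 : g.NN z x (w z) y = g.b z y + w z - g.b x y := by
        unfold Geo.NN Geo.S
        rw [if_pos B.ty, Geo.D_top B.tx B.ty]
        ring
      rw [n1, n2, d1] at c1
      unfold Geo.sc
      rw [h, t1, c1, sh]
      linarith
    · rw [if_neg ta]
      have n1 : g.NN z x (w z) (f y) = 0 := by
        unfold Geo.NN Geo.S
        rw [if_neg ta, Geo.D_bt B.tx ta]
        ring
      have n2 : g.NN z x (w z) y = g.b z y + w z - g.b x y := by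
        unfold Geo.NN Geo.S
        rw [if_pos B.ty, Geo.D_top B.tx B.ty]
        ring
      have T0 : g.T y (f y) (w y) = 0 := by
        unfold Geo.T
        have : g.D (f y) y = 0 := by
          unfold Geo.D
          rw [B.ty]
          simp [ta]
        rw [g.u_eq, g.u_eq, Geo.D_bt B.ty ta, this]
        ring
      rw [n1, n2, d1] at c1
      unfold Geo.sc
      rw [h, t1, c1, T0]
      linarith
  · by_cases h2 : f z = y
    · have fyz : f y = z := by rw [← h2, a0]
      have nfx : g.nz (f x) := P.nz _ (H.mem x hx) (fun e => hxy (by rw [← h2, ← e, a1]))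
      have t1 := hT x hx A.nx nfx
      have c1 := hC x hx A.nx nfx
      rw [h2] at h c1
      rw [if_pos B.ty] at h
      rw [jf_y h1 h2, jh_y h1 h2, jh_y h1 h2]
      have d1 : g.dl y = 0 := by unfold Geo.dl; rw [B.ty]; rfl
      have sb := B.sb
      have sb' := B.sb'
      by_cases ta : g.sd (f x) = Side.top
      · rw [if_pos ta]
        have sh := Geo.NC.short H N hs hx B.tx ta
        have b1 := B.b1 (H.mem x hx) (H.ne x hx) hfx ta
        have n1 : g.NN z y (w z) (f x) = g.b z (f x) + w z - g.b y (f x) := by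
          unfold Geo.NN Geo.S
          rw [if_pos ta, Geo.D_top B.ty ta]
          ring
        have n2 : g.NN z y (w z) x = g.b z x + w z - g.b y x := by
          unfold Geo.NN Geo.S
          rw [if_pos B.tx, Geo.D_top B.ty B.tx]
          ring
        rw [n1, n2, d1] at c1
        unfold Geo.sc
        rw [h, t1, c1, sh]
        linarith
      · rw [if_neg ta]
        have n1 : g.NN z y (w z) (f x) = 0 := by
          unfold Geo.NN Geo.S
          rw [if_neg ta, Geo.D_bt B.ty ta]
          ring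
        have n2 : g.NN z y (w z) x = g.b z x + w z - g.b y x := by
          unfold Geo.NN Geo.S
          rw [if_pos B.tx, Geo.D_top B.ty B.tx]
          ring
        have T0 : g.T x (f x) (w x) = 0 := by
          unfold Geo.T
          have : g.D (f x) x = 0 := by
            unfold Geo.D
            rw [B.tx]
            simp [ta]
          rw [g.u_eq, g.u_eq, Geo.D_bt B.tx ta, this]
          ring
        rw [n1, n2, d1] at c1
        unfold Geo.sc
        rw [h, t1, c1, T0]
        linarith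
    · rw [jf_o h1 h2, jh_o h1 h2, jh_o h1 h2, h]

end join

/-- closing a strand of neighbours: turning -/
lemma Geo.Nb.closeT (B : g.Nb X x y s) (H : Inv X f w) (N : g.NC X f w) (hs : g.Sep X)
    (hx : x ∈ X) (hfx : f x = y) :
    (w x = s ∧ g.T x y (w x) = 1) ∨ (w x = s - 1 ∧ g.T x y (w x) = -1) := by
  have sh := Geo.NC.short H N hs hx B.tx (by rw [hfx]; exact B.ty)
  rw [hfx] at sh
  have sb := B.sb
  have e : g.T x y (w x) = 1 ∨ g.T x y (w x) = -1 ∨ g.T x y (w x) = 0 := by
    unfold Geo.T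
    rw [g.u_eq, g.u_eq, Geo.D_top B.tx B.ty, Geo.D_top B.ty B.tx]
    split_ifs <;> simp
  omega

/-- closing a strand of neighbours: phase, in the presence of the puncture -/
lemma Geo.Nb.close {c t : α → ℤ} (B : g.Nb X x y s) (H : Inv X f w) (N : g.NC X f w)
    (hs : g.Sep X) (P : g.Punct X z) (hx : x ∈ X)
    (hT : g.LT X f w c t) (hC : g.LC X f w c z) (hfx : f x = y) :
    (w x = s ∧ t x - (-1 + 2 * g.sc z x y s) = 2) ∨
    (w x = s - 1 ∧ t x - (-1 + 2 * g.sc z x y s) = - 2 * g.dl (f z)) := by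
  have zx : z ≠ x := fun e => B.adj.nx (by rw [← e]; exact P.non)
  have zy : z ≠ y := fun e => B.adj.ny (by rw [← e]; exact P.non)
  have h1 : f z ≠ x := fun e => zy (by rw [← hfx, ← e, H.inv z P.mem])
  have h2 : f z ≠ y := fun e => zx (by rw [← H.inv z P.mem, e, ← hfx, H.inv x hx])
  have ne := P.nz _ (H.mem z P.mem) (H.ne z P.mem)
  have hN := Geo.Nb.NN B H P.mem ne h1 h2 (w z)
  have t1 := hT x hx B.adj.nx (by rw [hfx]; exact B.adj.ny)
  have c1 := hC x hx B.adj.nx (by rw [hfx]; exact B.adj.ny)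
  rw [hfx] at t1 c1
  rcases B.closeT H N hs hx hfx with ⟨a, b⟩ | ⟨a, b⟩
  · left
    refine ⟨a, ?_⟩
    rw [t1, b, c1, ← hN, a]
    ring
  · right
    refine ⟨a, ?_⟩
    rw [t1, b, c1, ← hN, a]
    ring

end Full.Loop
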