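import Pool.Agent.Full.Loop.Kern

/-!
# Planar systems of strands in the strip (universal cover of the annulus)

A node `p` has lifts `(p, k)`, `k : ℤ`.  `u p q k` is the kernel between `(p, 0)` and `(q, k)`: for
two nodes on the top line it is `-1` when `(q, k)` is on the right of `(p, 0)`, for two nodes on the
bottom line it is `1`, otherwise `0`.  The partner of `(p, k)` is `(f p, k + w p)`.
Two strands do not cross iff the bilinear form of the kernel vanishes on them.
-/

set_option autoImplicit false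

namespace Full.Loop

open Finset

inductive Side
  | top
  | bot
  | non
deriving DecidableEq

/-- positions of the nodes -/
structure Geo (α : Type*) where
  sd : α → Side
  ix : α → ℚ

variable {α : Type*}

/-- `(p, 0)` is on the left of `(q, k)` -/
def Geo.lt (g : Geo α) (p q : α) (k : ℤ) : Prop := 0 < k ∨ k = 0 ∧ g.ix p < g.ix q

instance (g : Geo α) (p q : α) (k : ℤ) : Decidable (g.lt p q k) := by
  unfold Geo.lt; infer_instance

/-- the kernel -/
def Geo.u (g : Geo α) (p q : α) (k : ℤ) : ℤ :=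
  if g.sd p = Side.top ∧ g.sd q = Side.top ∧ g.lt p q k then -1
  else if g.sd p = Side.bot ∧ g.sd q = Side.bot ∧ g.lt p q k then 1 else 0

/-- turning (in half turns) of a strand from `(p, 0)` to `(q, k)` -/
def Geo.T (g : Geo α) (p q : α) (k : ℤ) : ℤ := g.u q p (-k) - g.u p q k

lemma Geo.T_neg (g : Geo α) (p q : α) (k : ℤ) : g.T q p (-k) = - g.T p q k := by
  unfold Geo.T
  rw [neg_neg]
  ring

/-- side of `(q, k)` with respect to the strand of `p` -/
def Geo.L (g : Geo α) (f : α → α) (w : α → ℤ) (p q : α) (k : ℤ) : ℤ :=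
  g.u p q k - g.u (f p) q (k - w p)

/-- `(q, k)` is an end of the strand of `(p, 0)` -/
def On (f : α → α) (w : α → ℤ) (p q : α) (k : ℤ) : Prop := (q = p ∧ k = 0) ∨ (q = f p ∧ k = w p)

/-- not the puncture -/
def Geo.nz (g : Geo α) (p : α) : Prop := g.sd p ≠ Side.non

/-- strands which do not end in the puncture do not cross each other -/
def Geo.NC (g : Geo α) (X : Finset α) (f : α → α) (w : α → ℤ) : Prop :=
  ∀ p ∈ X, g.nz p → g.nz (f p) → ∀ q ∈ X, g.nz q → g.nz (f q) → ∀ k, ¬ On f w p q k →
    g.L f w p q k = g.L f w p (f q) (k + w q)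

/-- involution with windings -/
structure Inv (X : Finset α) (f : α → α) (w : α → ℤ) : Prop where
  mem : ∀ p ∈ X, f p ∈ X
  inv : ∀ p ∈ X, f (f p) = p
  ne : ∀ p ∈ X, f p ≠ p
  wf : ∀ p ∈ X, w (f p) = - w p

/-- `(x, 0)` and `(y, s)` are neighbours among the lifts of the nodes of `X` -/
structure Geo.Adj (g : Geo α) (X : Finset α) (x y : α) (s : ℤ) : Prop where
  nx : g.nz x
  ny : g.nz y
  a1 : ∀ p ∈ X, ∀ k, ¬(p = x ∧ k = 0) → ¬(p = y ∧ k = s) → g.u x p k = g.u y p (k - s)
  a2 : ∀ p ∈ X, ∀ k, ¬(p = x ∧ k = 0) → ¬(p = y ∧ k = s) → g.u p x (-k) = g.u p y (s - k)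

variable [DecidableEq α]

omit [DecidableEq α] in
lemma Inv.ff {X : Finset α} {f : α → α} {w : α → ℤ} (H : Inv X f w) {x y : α} (hx : x ∈ X)
    (hy : y ∈ X) (hxy : x ≠ y) : f x ≠ f y := fun h => hxy (by rw [← H.inv x hx, h, H.inv y hy])

lemma Inv.join {X : Finset α} {f : α → α} {w : α → ℤ} (H : Inv X f w) {x y : α} (hx : x ∈ X)
    (hy : y ∈ X) (hxy : x ≠ y) (s : ℤ) :
    Inv ((X.erase x).erase y) (jf x y f) (jh x y s f w) := by
  have a1 := H.inv x hx
  have a2 := H.inv y hy
  have b1 := H.ne x hx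
  have b2 := H.ne y hy
  have c1 := H.wf x hx
  have c2 := H.wf y hy
  have d1 := H.ff hx hy hxy
  refine ⟨fun p hp => ?_, fun p hp => ?_, fun p hp => ?_, fun p hp => ?_⟩
  all_goals
    simp only [Finset.mem_erase] at hp ⊢
    obtain ⟨h2, h1, hp⟩ := hp
    have a3 := H.inv p hp
    have b3 := H.ne p hp
    have c3 := H.wf p hp
  · refine ⟨?_, ?_, ?_⟩
    · unfold jf
      grind
    · unfold jf
      grind
    · unfold jf
      split_ifs
      · exact H.mem y hy
      · exact H.mem x hx
      · exact H.mem p hp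
  · unfold jf
    grind
  · unfold jf
    grind
  · unfold jh jf
    split_ifs <;> grind

omit [DecidableEq α] in
/-- the ends of a strand -/
lemma On.flip {X : Finset α} {f : α → α} {w : α → ℤ} (H : Inv X f w) {p q : α} (hp : p ∈ X)
    (hq : q ∈ X) {k : ℤ} (h : On f w p (f q) (k + w q)) : On f w p q k := by
  have a1 := H.inv p hp
  have a2 := H.inv q hq
  have a3 := H.wf p hp
  rcases h with ⟨h1, h2⟩ | ⟨h1, h2⟩
  · right
    have e1 : q = f p := by rw [← h1, a2]
    refine ⟨e1, ?_⟩
    rw [e1] at h2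
    omega
  · left
    have e1 : q = p := by rw [← a2, h1, a1]
    refine ⟨e1, ?_⟩
    rw [e1] at h2
    omega

omit [DecidableEq α] in
/-- neighbours are on the same side of every other strand -/
lemma Geo.Adj.L {g : Geo α} {X : Finset α} {f : α → α} {w : α → ℤ} (H : Inv X f w) {x y : α}
    {s : ℤ} (A : g.Adj X x y s) {p : α} (hp : p ∈ X) {m : ℤ} (h1 : ¬ On f w p x m)
    (h2 : ¬ On f w p y (m + s)) : g.L f w p x m = g.L f w p y (m + s) := by
  unfold Geo.L
  have b1 := A.a2 p hp (-m) (fun h => h1 (Or.inl ⟨h.1.symm, by omega⟩))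
    (fun h => h2 (Or.inl ⟨h.1.symm, by omega⟩))
  have b2 := A.a2 (f p) (H.mem p hp) (-(m - w p)) (fun h => h1 (Or.inr ⟨h.1.symm, by omega⟩))
    (fun h => h2 (Or.inr ⟨h.1.symm, by omega⟩))
  rw [neg_neg] at b1 b2
  rw [b1, b2]
  congr 2 <;> ring

/-- transport along the new strands -/
lemma Geo.NC.trans {g : Geo α} {X : Finset α} {f : α → α} {w : α → ℤ} (H : Inv X f w)
    (N : g.NC X f w) {x y : α} {s : ℤ} (A : g.Adj X x y s) (hx : x ∈ X) (hy : y ∈ X)
    {p q : α} (hp : p ∈ X) (np : g.nz p) (nfp : g.nz (f p)) (hq : q ∈ X)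
    (nq : g.nz q) (nfq : g.nz (jf x y f q)) {k : ℤ} (hk : ¬ On f w p q k)
    (c1 : f q = x → ¬ On f w p y (k + w q + s)) (c2 : f q = y → ¬ On f w p x (k + w q - s)) :
    g.L f w p q k = g.L f w p (jf x y f q) (k + jh x y s f w q) := by
  have hfq : ¬ On f w p (f q) (k + w q) := fun h => hk (On.flip H hp hq h)
  by_cases h1 : f q = x
  · have e1 : jf x y f q = f y := jf_x h1
    have e2 : jh x y s f w q = w q + s + w y := jh_x h1
    rw [e1] at nfq
    rw [e1, e2, N p hp np nfp q hq nq (by rw [h1]; exact A.nx) k hk, h1]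
    rw [h1] at hfq
    rw [A.L H hp hfq (c1 h1), N p hp np nfp y hy A.ny nfq _ (c1 h1)]
    congr 1
    ring
  · by_cases h2 : f q = y
    · have e1 : jf x y f q = f x := jf_y h1 h2
      have e2 : jh x y s f w q = w q - s + w x := jh_y h1 h2
      rw [e1] at nfq
      rw [e1, e2, N p hp np nfp q hq nq (by rw [h2]; exact A.ny) k hk, h2]
      rw [h2] at hfq
      have e3 := A.L H hp (m := k + w q - s) (c2 h2) (by rw [sub_add_cancel]; exact hfq)
      rw [sub_add_cancel] at e3
      rw [← e3, N p hp np nfp x hx A.nx nfq _ (c2 h2)]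
      congr 1
      ring
    · have e1 : jf x y f q = f q := jf_o h1 h2
      have e2 : jh x y s f w q = w q := jh_o h1 h2
      rw [e1] at nfq
      rw [e1, e2, N p hp np nfp q hq nq nfq k hk]

/-- **joining neighbours preserves planarity** -/
theorem Geo.NC.join {g : Geo α} {X : Finset α} {f : α → α} {w : α → ℤ} (H : Inv X f w)
    (N : g.NC X f w) {x y : α} {s : ℤ} (A : g.Adj X x y s) (hx : x ∈ X) (hy : y ∈ X)
    (hxy : x ≠ y) : g.NC ((X.erase x).erase y) (jf x y f) (jh x y s f w) := by
  have H' := H.join hx hy hxy s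
  intro p hp' np nfp q hq' nq nfq k hk
  have hp := hp'
  have hq := hq'
  simp only [Finset.mem_erase] at hp hq
  obtain ⟨py, px, hp⟩ := hp
  obtain ⟨qy, qx, hq⟩ := hq
  have a1 := H.inv x hx
  have a2 := H.inv y hy
  have a3 := H.inv p hp
  have a4 := H.inv q hq
  have b1 := H.wf x hx
  have b2 := H.wf y hy
  have hfq' := Finset.mem_erase.mp (H'.mem q hq')
  have hfq'' := Finset.mem_erase.mp hfq'.2
  by_cases h1 : f p = x
  · -- p -> x -> y -> f y
    have e1 : jf x y f p = f y := jf_x h1
    have e2 : jh x y s f w p = w p + s + w y := jh_x h1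
    have fx : f x = p := by rw [← h1, a3]
    have wx : w x = - w p := by rw [← h1, H.wf p hp]
    have key : ∀ r ∈ X, r ≠ x → r ≠ y → ∀ m, g.L (jf x y f) (jh x y s f w) p r m =
        g.L f w p r m + g.L f w y r (m - w p - s) := by
      intro r hr rx ry m
      unfold Geo.L
      rw [e1, e2, h1]
      have := A.a1 r hr (m - w p) (fun h => rx h.1) (fun h => ry h.1)
      rw [this]
      have e : m - (w p + s + w y) = m - w p - s - w y := by ring
      rw [e]
      ring
    rw [e1] at nfp
    have hkp : ¬ On f w p q k := by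
      rintro (⟨c1, c2⟩ | ⟨c1, c2⟩)
      · exact hk (Or.inl ⟨c1, c2⟩)
      · exact qx (c1.trans h1)
    have hky : ¬ On f w y q (k - w p - s) := by
      rintro (⟨c1, c2⟩ | ⟨c1, c2⟩)
      · exact qy c1
      · exact hk (Or.inr ⟨by rw [e1]; exact c1, by rw [e2]; omega⟩)
    have t1 := Geo.NC.trans H N A hx hy hp np (by rw [h1]; exact A.nx) hq nq nfq hkp
      (fun hqx => by
        rintro (⟨c1, c2⟩ | ⟨c1, c2⟩)
        · exact py c1.symm
        · exact hxy (by rw [c1, h1]))
      (fun hqy => by
        rintro (⟨c1, c2⟩ | ⟨c1, c2⟩)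
        · exact px c1.symm
        · refine hk (Or.inr ⟨?_, ?_⟩)
          · rw [e1, ← hqy, a4]
          · have : w y = - w q := by rw [← hqy, H.wf q hq]
            rw [e2]
            omega)
    have t2 := Geo.NC.trans H N A hx hy hy A.ny nfp hq nq nfq hky
      (fun hqx => by
        have qp : q = p := by rw [← a4, hqx, fx]
        rintro (⟨c1, c2⟩ | ⟨c1, c2⟩)
        · refine hk (Or.inl ⟨qp, ?_⟩)
          rw [qp] at c2
          omega
        · exact H.ne y hy c1.symm)
      (fun hqy => by
        rintro (⟨c1, c2⟩ | ⟨c1, c2⟩)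
        · exact hxy c1
        · exact qx (by rw [← a4, hqy, ← c1]))
    rw [key q hq qx qy, key _ hfq''.2 hfq''.1 hfq'.1, t1, t2]
    congr 2
    ring
  · by_cases h2 : f p = y
    · have e1 : jf x y f p = f x := jf_y h1 h2
      have e2 : jh x y s f w p = w p - s + w x := jh_y h1 h2
      have fy : f y = p := by rw [← h2, a3]
      have wy : w y = - w p := by rw [← h2, H.wf p hp]
      have key : ∀ r ∈ X, r ≠ x → r ≠ y → ∀ m, g.L (jf x y f) (jh x y s f w) p r m =
          g.L f w p r m + g.L f w x r (m - w p + s) := by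
        intro r hr rx ry m
        unfold Geo.L
        rw [e1, e2, h2]
        have := A.a1 r hr (m - w p + s) (fun h => rx h.1) (fun h => ry h.1)
        rw [this]
        have e : m - (w p - s + w x) = m - w p + s - w x := by ring
        have e' : m - w p + s - s = m - w p := by ring
        rw [e, e']
        ring
      rw [e1] at nfp
      have hkp : ¬ On f w p q k := by
        rintro (⟨c1, c2⟩ | ⟨c1, c2⟩)
        · exact hk (Or.inl ⟨c1, c2⟩)
        · exact qy (c1.trans h2)
      have hky : ¬ On f w x q (k - w p + s) := by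
        rintro (⟨c1, c2⟩ | ⟨c1, c2⟩)
        · exact qx c1
        · exact hk (Or.inr ⟨by rw [e1]; exact c1, by rw [e2]; omega⟩)
      have t1 := Geo.NC.trans H N A hx hy hp np (by rw [h2]; exact A.ny) hq nq nfq hkp
        (fun hqx => by
          rintro (⟨c1, c2⟩ | ⟨c1, c2⟩)
          · exact py c1.symm
          · refine hk (Or.inr ⟨?_, ?_⟩)
            · rw [e1, ← hqx, a4]
            · have : w x = - w q := by rw [← hqx, H.wf q hq]
              rw [e2]
              omega)
        (fun hqy => by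
          rintro (⟨c1, c2⟩ | ⟨c1, c2⟩)
          · exact px c1.symm
          · exact hxy (by rw [c1, h2]))
      have t2 := Geo.NC.trans H N A hx hy hx A.nx nfp hq nq nfq hky
        (fun hqx => by
          rintro (⟨c1, c2⟩ | ⟨c1, c2⟩)
          · exact hxy c1.symm
          · exact qy (by rw [← a4, hqx, ← c1]))
        (fun hqy => by
          have qp : q = p := by rw [← a4, hqy, fy]
          rintro (⟨c1, c2⟩ | ⟨c1, c2⟩)
          · refine hk (Or.inl ⟨qp, ?_⟩)
            rw [qp] at c2
            omega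
          · exact H.ne x hx c1.symm)
      rw [key q hq qx qy, key _ hfq''.2 hfq''.1 hfq'.1, t1, t2]
      congr 2
      ring
    · have e1 : jf x y f p = f p := jf_o h1 h2
      have e2 : jh x y s f w p = w p := jh_o h1 h2
      have key : ∀ r m, g.L (jf x y f) (jh x y s f w) p r m = g.L f w p r m := by
        intro r m
        unfold Geo.L
        rw [e1, e2]
      rw [e1] at nfp
      have hkp : ¬ On f w p q k := by
        rintro (⟨c1, c2⟩ | ⟨c1, c2⟩)
        · exact hk (Or.inl ⟨c1, c2⟩)
        · exact hk (Or.inr ⟨by rw [e1]; exact c1, by rw [e2]; exact c2⟩)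
      rw [key, key]
      exact Geo.NC.trans H N A hx hy hp np nfp hq nq nfq hkp
        (fun _ => by
          rintro (⟨c1, c2⟩ | ⟨c1, c2⟩)
          · exact py c1.symm
          · exact h2 c1.symm)
        (fun _ => by
          rintro (⟨c1, c2⟩ | ⟨c1, c2⟩)
          · exact px c1.symm
          · exact h1 c1.symm)

end Full.Loop
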