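import Pool.Agent.Full.Loop.Ops

/-!
# Systems of strands as data; cups, joins, generators, with kernels
-/

set_option autoImplicit false

namespace Full.Loop

open Finset

noncomputable section

/-- data of a system of strands: partner, winding, crossings of the seam, phase -/
structure Dat (α : Type*) where
  f : α → α
  w : α → ℤ
  c : α → ℤ
  t : α → ℤ

variable {α : Type*} [DecidableEq α]

/-- join `x` and `y` -/
def Dat.join (x y : α) (s sc φ : ℤ) (d : Dat α) : Dat α where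
  f := jf x y d.f
  w := jh x y s d.f d.w
  c := jh x y sc d.f d.c
  t := jh x y φ d.f d.t

/-- insert the strand `x -> y` -/
def Dat.cup (x y : α) (d : Dat α) : Dat α where
  f p := if p = x then y else if p = y then x else d.f p
  w p := if p = x then 0 else if p = y then 0 else d.w p
  c p := if p = x then 0 else if p = y then 0 else d.c p
  t p := if p = x then 1 else if p = y then -1 else d.t p

section cup

variable {x y p : α} {d : Dat α}

lemma cup_fx : (d.cup x y).f x = y := if_pos rfl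
lemma cup_fy (h : x ≠ y) : (d.cup x y).f y = x := by
  show (if y = x then y else if y = y then x else d.f y) = x
  rw [if_neg h.symm, if_pos rfl]
lemma cup_fo (h1 : p ≠ x) (h2 : p ≠ y) : (d.cup x y).f p = d.f p := by
  show (if p = x then y else if p = y then x else d.f p) = d.f p
  rw [if_neg h1, if_neg h2]
lemma cup_wx : (d.cup x y).w x = 0 := if_pos rfl
lemma cup_wy : (d.cup x y).w y = 0 := by
  show (if y = x then 0 else if y = y then 0 else d.w y) = (0 : ℤ)
  simp
lemma cup_wo (h1 : p ≠ x) (h2 : p ≠ y) : (d.cup x y).w p = d.w p := by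
  show (if p = x then 0 else if p = y then 0 else d.w p) = d.w p
  rw [if_neg h1, if_neg h2]
lemma cup_cx : (d.cup x y).c x = 0 := if_pos rfl
lemma cup_cy : (d.cup x y).c y = 0 := by
  show (if y = x then 0 else if y = y then 0 else d.c y) = (0 : ℤ)
  simp
lemma cup_co (h1 : p ≠ x) (h2 : p ≠ y) : (d.cup x y).c p = d.c p := by
  show (if p = x then 0 else if p = y then 0 else d.c p) = d.c p
  rw [if_neg h1, if_neg h2]
lemma cup_tx : (d.cup x y).t x = 1 := if_pos rfl
lemma cup_ty (h : x ≠ y) : (d.cup x y).t y = -1 := by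
  show (if y = x then 1 else if y = y then -1 else d.t y) = (-1 : ℤ)
  rw [if_neg h.symm, if_pos rfl]
lemma cup_to (h1 : p ≠ x) (h2 : p ≠ y) : (d.cup x y).t p = d.t p := by
  show (if p = x then 1 else if p = y then -1 else d.t p) = d.t p
  rw [if_neg h1, if_neg h2]

end cup

/-- kernel of the data -/
def Dat.K (X : Finset α) (d : Dat α) (σ : α → Bool) : ℂ := kern X d.f d.t σ

lemma om4 : om ^ (4 : ℤ) + om ^ (-4 : ℤ) = 1 := by
  have h1 : om ^ (4 : ℤ) = Complex.exp (((Real.pi / 3 : ℝ) : ℂ) * Complex.I) := by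
    unfold om
    rw [← Complex.exp_int_mul]
    congr 1
    push_cast
    ring
  have h2 : om ^ (-4 : ℤ) = Complex.exp (-((Real.pi / 3 : ℝ) : ℂ) * Complex.I) := by
    unfold om
    rw [← Complex.exp_int_mul]
    congr 1
    push_cast
    ring
  have h3 : 2 * Complex.cos ((Real.pi / 3 : ℝ) : ℂ) = 1 := by
    rw [← Complex.ofReal_cos, Real.cos_pi_div_three]
    norm_num
  rw [h1, h2, ← h3, Complex.two_cos]

/-- **Kernel of a join**: all closed strands have weight one. -/
lemma Dat.K_join {X : Finset α} {d : Dat α} (H : Sys X d.f d.t) {x y : α} (hx : x ∈ X)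
    (hy : y ∈ X) (hxy : x ≠ y) (s sc φ : ℤ)
    (hl : d.f x = y → d.t x - φ = 2 ∨ d.t x - φ = -2) (σ : α → Bool) :
    ∑ a : Bool, om ^ (-2 * φ * sg a) * d.K X (up2 σ x y a (!a)) =
      (d.join x y s sc φ).K ((X.erase x).erase y) σ := by
  by_cases h : d.f x = y
  · have := kern_loop H hx hy hxy h φ σ
    unfold Dat.K Dat.join
    rw [this]
    rcases hl h with e | e <;> rw [e]
    · rw [show om ^ (2 * (2 : ℤ)) + om ^ (-(2 * (2 : ℤ))) = 1 from om4, one_mul]
    · rw [show om ^ (2 * (-2 : ℤ)) + om ^ (-(2 * (-2 : ℤ))) = om ^ (4 : ℤ) + om ^ (-4 : ℤ) by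
        rw [add_comm]; norm_num, om4, one_mul]
  · exact kern_join H hx hy hxy h φ σ

/-- kernel of a cup -/
lemma Dat.K_cup {X : Finset α} {d : Dat α} {x y : α} (hx : x ∉ X) (hy : y ∉ X) (hxy : x ≠ y)
    (σ : α → Bool) :
    (d.cup x y).K (insert x (insert y X)) σ =
      (if σ y = !σ x then om ^ (2 * sg (σ x)) else 0) * d.K X σ := by
  have h1 : x ∉ insert y X := by
    rw [Finset.mem_insert, not_or]
    exact ⟨hxy, hx⟩
  unfold Dat.K kern
  rw [Finset.prod_insert h1, Finset.prod_insert hy, ← mul_assoc]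
  congr 1
  · unfold nf
    rw [cup_fx, cup_fy hxy, cup_tx, cup_ty hxy]
    by_cases h : σ y = !σ x
    · have h' : σ x = !σ y := by rw [h, Bool.not_not]
      rw [if_pos h, if_pos h', if_pos h, ← om_add, h, sg_not]
      congr 1
      ring
    · rw [if_neg h, if_neg h, zero_mul]
  · refine Finset.prod_congr rfl fun p hp => ?_
    have px : p ≠ x := fun e => hx (by rw [← e]; exact hp)
    have py : p ≠ y := fun e => hy (by rw [← e]; exact hp)
    unfold nf
    rw [cup_fo px py, cup_to px py]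

/-! ### invariants -/

/-- good data, no puncture -/
structure Ok0 (g : Geo α) (X : Finset α) (d : Dat α) : Prop where
  inv : Inv X d.f d.w
  nc : g.NC X d.f d.w
  sep : g.Sep X
  nz : ∀ p ∈ X, g.nz p
  c0 : ∀ p ∈ X, d.c p = 0
  lt : g.LT X d.f d.w d.c d.t

omit [DecidableEq α] in
lemma Ok0.sys {g : Geo α} {X : Finset α} {d : Dat α} (h : Ok0 g X d) : Sys X d.f d.t where
  mem := h.inv.mem
  inv := h.inv.inv
  ne := h.inv.ne
  t_f p hp := by
    rw [h.lt p hp (h.nz p hp) (h.nz _ (h.inv.mem p hp)), h.lt _ (h.inv.mem p hp)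
      (h.nz _ (h.inv.mem p hp)) (by rw [h.inv.inv p hp]; exact h.nz p hp), h.inv.inv p hp,
      h.inv.wf p hp, g.T_neg, h.c0 p hp, h.c0 _ (h.inv.mem p hp)]
    ring

omit [DecidableEq α] in
lemma Geo.Sep.mono {g : Geo α} {X Y : Finset α} (h : g.Sep X) (hXY : Y ⊆ X) : g.Sep Y :=
  fun p hp q hq => h p (hXY hp) q (hXY hq)

lemma Ok0.join {g : Geo α} {X : Finset α} {d : Dat α} (h : Ok0 g X d) {x y : α} {s : ℤ}
    (B : g.Nb X x y s) (hx : x ∈ X) (hy : y ∈ X) (hxy : x ≠ y) :
    Ok0 g ((X.erase x).erase y) (d.join x y s 0 (-1)) := by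
  have sub : (X.erase x).erase y ⊆ X := (Finset.erase_subset _ _).trans (Finset.erase_subset _ _)
  refine ⟨h.inv.join hx hy hxy s, Geo.NC.join h.inv h.nc B.adj hx hy hxy, h.sep.mono sub,
    fun p hp => h.nz p (sub hp), fun p hp => ?_, ?_⟩
  · show jh x y 0 d.f d.c p = 0
    unfold jh
    rw [h.c0 p (sub hp), h.c0 x hx, h.c0 y hy]
    split_ifs <;> ring
  · have := Geo.LT.join (sc := 0) h.inv h.nc B.adj hx hy hxy h.lt
    rw [B.T] at this
    exact this

lemma Ok0.K_join {g : Geo α} {X : Finset α} {d : Dat α} (h : Ok0 g X d) {x y : α} {s : ℤ}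
    (B : g.Nb X x y s) (hx : x ∈ X) (hy : y ∈ X) (hxy : x ≠ y)
    (hodd : Odd (X.filter (fun p => g.sd p = Side.top)).card) (σ : α → Bool) :
    ∑ a : Bool, om ^ (2 * sg a) * d.K X (up2 σ x y a (!a)) =
      (d.join x y s 0 (-1)).K ((X.erase x).erase y) σ := by
  rw [← Dat.K_join h.sys hx hy hxy s 0 (-1)]
  · refine Finset.sum_congr rfl fun a _ => ?_
    rw [show (-2 * -1 * sg a : ℤ) = 2 * sg a by ring]
  · intro e
    left
    rw [h.lt x hx (h.nz x hx) (h.nz _ (h.inv.mem x hx)), h.c0 x hx, e]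
    rcases B.closeT h.inv h.nc h.sep hx e with ⟨_, b⟩ | ⟨a, _⟩
    · rw [b]
      ring
    · exact absurd a (B.no_nc h.inv h.nc hx hy hxy h.nz hodd e)

/-- cup: invariants -/
lemma Geo.NC.cup {g : Geo α} {X : Finset α} {d : Dat α} (H : Inv X d.f d.w)
    (N : g.NC X d.f d.w) {x y : α} (hx : x ∉ X) (hy : y ∉ X) (hxy : x ≠ y)
    (A : g.Adj (insert x (insert y X)) x y 0) :
    g.NC (insert x (insert y X)) (d.cup x y).f (d.cup x y).w := by
  have old : ∀ p ∈ X, p ≠ x ∧ p ≠ y := fun p hp =>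
    ⟨fun e => hx (by rw [← e]; exact hp), fun e => hy (by rw [← e]; exact hp)⟩
  have Lx : ∀ q, (q = x ∨ q = y ∨ q ∈ X) → ∀ k, ¬ (q = x ∧ k = 0) → ¬ (q = y ∧ k = 0) →
      g.u x q k - g.u y q k = 0 := by
    intro q hq k h1 h2
    have := A.a1 q (by simpa using hq) k h1 h2
    rw [sub_zero] at this
    rw [this, sub_self]
  have Lold : ∀ p ∈ X, ∀ q, q ≠ x → q ≠ y → ∀ k, g.L (d.cup x y).f (d.cup x y).w p q k =
      g.L d.f d.w p q k := by
    intro p hp q _ _ k
    unfold Geo.L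
    rw [cup_fo (old p hp).1 (old p hp).2, cup_wo (old p hp).1 (old p hp).2]
  have Lold' : ∀ p ∈ X, ∀ q k, g.L (d.cup x y).f (d.cup x y).w p q k =
      g.L d.f d.w p q k := by
    intro p hp q k
    unfold Geo.L
    rw [cup_fo (old p hp).1 (old p hp).2, cup_wo (old p hp).1 (old p hp).2]
  have Lxy : ∀ p ∈ X, ∀ k, g.L d.f d.w p x k = g.L d.f d.w p y k := by
    intro p hp k
    unfold Geo.L
    have m1 : p ∈ insert x (insert y X) := by simp [hp]
    have m2 : d.f p ∈ insert x (insert y X) := by simp [H.mem p hp]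
    have o1 := old p hp
    have o2 := old _ (H.mem p hp)
    have b1 := A.a2 p m1 (-k) (fun h => o1.1 h.1) (fun h => o1.2 h.1)
    have b2 := A.a2 (d.f p) m2 (-(k - d.w p)) (fun h => o2.1 h.1) (fun h => o2.2 h.1)
    rw [neg_neg, zero_sub, neg_neg] at b1 b2
    rw [b1, b2]
  intro p hp np nfp q hq nq nfq k hk
  rw [Finset.mem_insert, Finset.mem_insert] at hp hq
  rcases hp with rfl | rfl | hp
  · -- strand of x
    have e1 : ∀ r m, g.L (d.cup p y).f (d.cup p y).w p r m = g.u p r m - g.u y r m := by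
      intro r m
      unfold Geo.L
      rw [cup_fx, cup_wx, sub_zero]
    have hk1 : ¬ (q = p ∧ k = 0) := fun h => hk (Or.inl h)
    have hk2 : ¬ (q = y ∧ k = 0) := fun h => hk (Or.inr ⟨by rw [cup_fx]; exact h.1, by
      rw [cup_wx]; exact h.2⟩)
    rw [e1, e1, Lx q hq k hk1 hk2]
    symm
    rcases hq with rfl | rfl | hq
    · rw [cup_fx, cup_wx, add_zero]
      exact Lx y (Or.inr (Or.inl rfl)) k (fun h => hxy h.1.symm) (fun h => hk1 ⟨rfl, h.2⟩)
    · rw [cup_fy hxy, cup_wy, add_zero]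
      exact Lx p (Or.inl rfl) k (fun h => hk2 ⟨rfl, h.2⟩) (fun h => hxy h.1)
    · have o := old q hq
      rw [cup_fo o.1 o.2, cup_wo o.1 o.2]
      have o' := old _ (H.mem q hq)
      exact Lx _ (Or.inr (Or.inr (H.mem q hq))) _ (fun h => o'.1 h.1) (fun h => o'.2 h.1)
  · -- strand of y
    have e1 : ∀ r m, g.L (d.cup x p).f (d.cup x p).w p r m = g.u p r m - g.u x r m := by
      intro r m
      unfold Geo.L
      rw [cup_fy hxy, cup_wy, sub_zero]
    have hk1 : ¬ (q = x ∧ k = 0) := fun h => hk (Or.inr ⟨by rw [cup_fy hxy]; exact h.1, by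
      rw [cup_wy]; exact h.2⟩)
    have hk2 : ¬ (q = p ∧ k = 0) := fun h => hk (Or.inl h)
    have e2 := Lx q hq k hk1 hk2
    rw [e1, e1, ← neg_sub, e2, neg_zero]
    symm
    rw [← neg_sub, neg_eq_zero]
    rcases hq with rfl | rfl | hq
    · rw [cup_fx, cup_wx, add_zero]
      exact Lx p (Or.inr (Or.inl rfl)) k (fun h => hxy h.1.symm) (fun h => hk1 ⟨rfl, h.2⟩)
    · rw [cup_fy hxy, cup_wy, add_zero]
      exact Lx x (Or.inl rfl) k (fun h => hk2 ⟨rfl, h.2⟩) (fun h => hxy h.1)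
    · have o := old q hq
      rw [cup_fo o.1 o.2, cup_wo o.1 o.2]
      have o' := old _ (H.mem q hq)
      exact Lx _ (Or.inr (Or.inr (H.mem q hq))) _ (fun h => o'.1 h.1) (fun h => o'.2 h.1)
  · -- old strand
    have o := old p hp
    rw [cup_fo o.1 o.2] at nfp
    rw [Lold' p hp, Lold' p hp]
    rcases hq with rfl | rfl | hq
    · rw [cup_fx, cup_wx, add_zero, Lxy p hp]
    · rw [cup_fy hxy, cup_wy, add_zero, Lxy p hp]
    · have o' := old q hq
      rw [cup_fo o'.1 o'.2] at nfq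
      rw [cup_fo o'.1 o'.2, cup_wo o'.1 o'.2]
      refine N p hp np nfp q hq nq nfq k ?_
      rintro (⟨c1, c2⟩ | ⟨c1, c2⟩)
      · exact hk (Or.inl ⟨c1, c2⟩)
      · exact hk (Or.inr ⟨by rw [cup_fo o.1 o.2]; exact c1, by rw [cup_wo o.1 o.2]; exact c2⟩)

lemma Inv.cup {X : Finset α} {d : Dat α} (H : Inv X d.f d.w) {x y : α} (hx : x ∉ X) (hy : y ∉ X)
    (hxy : x ≠ y) : Inv (insert x (insert y X)) (d.cup x y).f (d.cup x y).w := by
  have old : ∀ p ∈ X, p ≠ x ∧ p ≠ y := fun p hp =>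
    ⟨fun e => hx (by rw [← e]; exact hp), fun e => hy (by rw [← e]; exact hp)⟩
  refine ⟨fun p hp => ?_, fun p hp => ?_, fun p hp => ?_, fun p hp => ?_⟩
  all_goals
    rw [Finset.mem_insert, Finset.mem_insert] at hp
  · rcases hp with rfl | rfl | hp
    · rw [cup_fx]; simp
    · rw [cup_fy hxy]; simp
    · rw [cup_fo (old p hp).1 (old p hp).2]
      simp [H.mem p hp]
  · rcases hp with rfl | rfl | hp
    · rw [cup_fx, cup_fy hxy]
    · rw [cup_fy hxy, cup_fx]
    · have o := old _ (H.mem p hp)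
      rw [cup_fo (old p hp).1 (old p hp).2, cup_fo o.1 o.2, H.inv p hp]
  · rcases hp with rfl | rfl | hp
    · rw [cup_fx]; exact hxy.symm
    · rw [cup_fy hxy]; exact hxy
    · rw [cup_fo (old p hp).1 (old p hp).2]; exact H.ne p hp
  · rcases hp with rfl | rfl | hp
    · rw [cup_fx, cup_wy, cup_wx, neg_zero]
    · rw [cup_fy hxy, cup_wy, cup_wx, neg_zero]
    · have o := old _ (H.mem p hp)
      rw [cup_fo (old p hp).1 (old p hp).2, cup_wo o.1 o.2, cup_wo (old p hp).1 (old p hp).2,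
        H.wf p hp]

lemma Geo.LT.cup {g : Geo α} {X : Finset α} {d : Dat α} (h : g.LT X d.f d.w d.c d.t) {x y : α}
    (hx : x ∉ X) (hy : y ∉ X) (hxy : x ≠ y) (hT : g.T x y 0 = 1) :
    g.LT (insert x (insert y X)) (d.cup x y).f (d.cup x y).w (d.cup x y).c (d.cup x y).t := by
  intro p hp np nfp
  rw [Finset.mem_insert, Finset.mem_insert] at hp
  rcases hp with rfl | rfl | hp
  · rw [cup_fx, cup_wx, cup_cx, cup_tx, hT]
    ring
  · rw [cup_fy hxy, cup_wy, cup_cy, cup_ty hxy]
    have := g.T_neg x p 0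
    rw [neg_zero] at this
    rw [this, hT]
    ring
  · have px : p ≠ x := fun e => hx (by rw [← e]; exact hp)
    have py : p ≠ y := fun e => hy (by rw [← e]; exact hp)
    rw [cup_fo px py] at nfp
    rw [cup_fo px py, cup_wo px py, cup_co px py, cup_to px py]
    exact h p hp np nfp

lemma Ok0.cup {g : Geo α} {X : Finset α} {d : Dat α} (h : Ok0 g X d) {x y : α}
    (hx : x ∉ X) (hy : y ∉ X) (hxy : x ≠ y) (B : g.Nb (insert x (insert y X)) x y 0)
    (hs : g.Sep (insert x (insert y X))) :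
    Ok0 g (insert x (insert y X)) (d.cup x y) := by
  refine ⟨h.inv.cup hx hy hxy, Geo.NC.cup h.inv h.nc hx hy hxy B.adj, hs, fun p hp => ?_,
    fun p hp => ?_, Geo.LT.cup h.lt hx hy hxy B.T⟩
  all_goals
    rw [Finset.mem_insert, Finset.mem_insert] at hp
  · rcases hp with rfl | rfl | hp
    · exact B.adj.nx
    · exact B.adj.ny
    · exact h.nz p hp
  · rcases hp with rfl | rfl | hp
    · exact cup_cx
    · exact cup_cy
    · rw [cup_co (fun e => hx (by rw [← e]; exact hp)) (fun e => hy (by rw [← e]; exact hp))]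
      exact h.c0 p hp

end

end Full.Loop
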