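import Pool.Agent.Full.Loop.Dat

/-!
# Data with a puncture
-/

set_option autoImplicit false

namespace Full.Loop

open Finset

noncomputable section

variable {α : Type*} [DecidableEq α]

/-- good data with the puncture `z` -/
structure OkZ (g : Geo α) (X : Finset α) (d : Dat α) (z : α) : Prop where
  inv : Inv X d.f d.w
  nc : g.NC X d.f d.w
  sep : g.Sep X
  pz : g.Punct X z
  sys : Sys X d.f d.t
  lt : g.LT X d.f d.w d.c d.t
  lc : g.LC X d.f d.w d.c z
  lz : g.LZ d.f d.w d.t z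

variable {g : Geo α} {X : Finset α} {d : Dat α} {x y z : α} {s : ℤ}

/-- leaving `z` behind -/
theorem Ok0.frz (h : Ok0 g X d) (hz : z ∈ X) (tz : g.sd z = Side.top) :
    OkZ (g.frz z) X d z where
  inv := h.inv
  nc := h.nc.frz
  sep p hp q hq e hpq := by
    by_cases h1 : p = z
    · by_cases h2 : q = z
      · exact absurd (h1.trans h2.symm) hpq
      · rw [h1, Geo.frz_z, Geo.frz_sd h2] at e
        exact absurd e.symm (h.nz q hq)
    · by_cases h2 : q = z
      · rw [h2, Geo.frz_z, Geo.frz_sd h1] at e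
        exact absurd e (h.nz p hp)
      · rw [Geo.frz_sd h1, Geo.frz_sd h2] at e
        exact h.sep p hp q hq e hpq
  pz := ⟨hz, Geo.frz_z, fun p hp hpz => (Geo.frz_nz hpz).mpr (h.nz p hp)⟩
  sys := h.sys
  lt := h.lt.frz
  lc := by
    have h0 : g.LT X d.f d.w (fun _ => 0) d.t := fun p hp np nfp => by
      rw [h.lt p hp np nfp, h.c0 p hp]
    have := Geo.LC.frz h.inv h.nc hz tz (h.nz _ (h.inv.mem z hz))
    intro p hp np nfp
    rw [h.c0 p hp]
    exact this p hp np nfp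
  lz := by
    have h0 : g.LT X d.f d.w (fun _ => 0) d.t := fun p hp np nfp => by
      rw [h.lt p hp np nfp, h.c0 p hp]
    exact Geo.LZ.frz h.inv h.nc h.sep hz tz (h.nz _ (h.inv.mem z hz)) h0

omit [DecidableEq α] in
lemma OkZ.ne_of_nz (h : OkZ g X d z) {p : α} (hp : g.nz p) : p ≠ z := fun e => hp (by
  rw [e]; exact h.pz.non)

theorem OkZ.join (h : OkZ g X d z) (B : g.Nb X x y s) (hx : x ∈ X) (hy : y ∈ X) (hxy : x ≠ y) :
    OkZ g ((X.erase x).erase y)
      (d.join x y s (g.sc z x y s) (-1 + 2 * g.sc z x y s)) z := by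
  have sub : (X.erase x).erase y ⊆ X := (Finset.erase_subset _ _).trans (Finset.erase_subset _ _)
  have xz := h.ne_of_nz B.adj.nx
  have yz := h.ne_of_nz B.adj.ny
  have hlt := Geo.LT.join (sc := g.sc z x y s) h.inv h.nc B.adj hx hy hxy h.lt
  rw [B.T] at hlt
  refine ⟨h.inv.join hx hy hxy s, Geo.NC.join h.inv h.nc B.adj hx hy hxy, h.sep.mono sub,
    ⟨Finset.mem_erase.mpr ⟨yz.symm, Finset.mem_erase.mpr ⟨xz.symm, h.pz.mem⟩⟩, h.pz.non,
      fun p hp => h.pz.nz p (sub hp)⟩, h.sys.join hx hy hxy _, hlt, ?_, ?_⟩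
  · by_cases hfx : d.f x = y
    · -- closing
      have fy : d.f y = x := by rw [← hfx, h.inv.inv x hx]
      have o : ∀ p ∈ (X.erase x).erase y, d.f p ≠ x ∧ d.f p ≠ y := by
        intro p hp
        simp only [Finset.mem_erase] at hp
        exact ⟨fun e => hp.1 (by rw [← h.inv.inv p hp.2.2, e, hfx]),
          fun e => hp.2.1 (by rw [← h.inv.inv p hp.2.2, e, fy])⟩
      have oz := o z (Finset.mem_erase.mpr ⟨yz.symm, Finset.mem_erase.mpr ⟨xz.symm, h.pz.mem⟩⟩)
      intro p hp np nfp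
      have op := o p hp
      change g.nz (jf x y d.f p) at nfp
      rw [jf_o op.1 op.2] at nfp
      show jh x y _ d.f d.c p = g.NN z (jf x y d.f z) (jh x y s d.f d.w z) (jf x y d.f p) +
        g.dl (jf x y d.f z) * jh x y s d.f d.w p - g.NN z (jf x y d.f z) (jh x y s d.f d.w z) p
      rw [jf_o op.1 op.2, jf_o oz.1 oz.2, jh_o op.1 op.2, jh_o op.1 op.2, jh_o oz.1 oz.2]
      exact h.lc p (sub hp) np nfp
    · exact Geo.LC.join h.inv h.nc h.pz B hx hy hxy h.lc hfx
  · by_cases hfx : d.f x = y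
    · have fy : d.f y = x := by rw [← hfx, h.inv.inv x hx]
      have o1 : d.f z ≠ x := fun e => yz (by rw [← hfx, ← e, h.inv.inv z h.pz.mem])
      have o2 : d.f z ≠ y := fun e => xz (by rw [← fy, ← e, h.inv.inv z h.pz.mem])
      show g.LZ (jf x y d.f) (jh x y s d.f d.w) (jh x y _ d.f d.t) z
      unfold Geo.LZ
      rw [jf_o o1 o2, jh_o o1 o2, jh_o o1 o2]
      exact h.lz
    · exact Geo.LZ.join h.inv h.nc h.sep h.pz B hx hy hxy h.lt h.lc h.lz hfx

theorem OkZ.K_join (h : OkZ g X d z) (B : g.Nb X x y s) (hx : x ∈ X) (hy : y ∈ X) (hxy : x ≠ y)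
    (hev : Even (X.filter (fun p => g.sd p = Side.top)).card) (σ : α → Bool) :
    ∑ a : Bool, om ^ (-2 * (-1 + 2 * g.sc z x y s) * sg a) * d.K X (up2 σ x y a (!a)) =
      (d.join x y s (g.sc z x y s) (-1 + 2 * g.sc z x y s)).K ((X.erase x).erase y) σ := by
  apply Dat.K_join h.sys hx hy hxy
  intro e
  rcases B.close h.inv h.nc h.sep h.pz hx h.lt h.lc e with ⟨_, b⟩ | ⟨a, b⟩
  · left
    exact b
  · right
    rw [b, B.no_nc' h.inv h.nc h.pz hx hy hxy hev e a]
    norm_num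

theorem OkZ.cup (h : OkZ g X d z) (hx : x ∉ X) (hy : y ∉ X) (hxy : x ≠ y)
    (B : g.Nb (insert x (insert y X)) x y 0) (hs : g.Sep (insert x (insert y X)))
    (hsc : g.b z y = g.b z x) :
    OkZ g (insert x (insert y X)) (d.cup x y) z := by
  have xz := h.ne_of_nz B.adj.nx
  have yz := h.ne_of_nz B.adj.ny
  have H' := h.inv.cup hx hy hxy
  have fz : d.f z ≠ x ∧ d.f z ≠ y :=
    ⟨fun e => hx (by rw [← e]; exact h.inv.mem z h.pz.mem),
      fun e => hy (by rw [← e]; exact h.inv.mem z h.pz.mem)⟩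
  have mz : z ∈ insert x (insert y X) := by simp [h.pz.mem]
  have ne : g.nz (d.f z) := h.pz.nz _ (h.inv.mem z h.pz.mem) (h.inv.ne z h.pz.mem)
  have efz : (d.cup x y).f z = d.f z := cup_fo xz.symm yz.symm
  have ewz : (d.cup x y).w z = d.w z := cup_wo xz.symm yz.symm
  have etz : (d.cup x y).t z = d.t z := cup_to xz.symm yz.symm
  have hN := Geo.Nb.NN B H' mz (by rw [efz]; exact ne) (by rw [efz]; exact fz.1)
    (by rw [efz]; exact fz.2) (d.w z)
  rw [efz] at hN
  have hsc' : g.sc z x y 0 = 0 := by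
    unfold Geo.sc
    rw [hsc]
    ring
  rw [hsc'] at hN
  refine ⟨H', Geo.NC.cup h.inv h.nc hx hy hxy B.adj, hs, ⟨mz, h.pz.non, fun p hp hpz => ?_⟩, ?_,
    Geo.LT.cup h.lt hx hy hxy B.T, ?_, ?_⟩
  · rw [Finset.mem_insert, Finset.mem_insert] at hp
    rcases hp with rfl | rfl | hp
    · exact B.adj.nx
    · exact B.adj.ny
    · exact h.pz.nz p hp hpz
  · refine ⟨H'.mem, H'.inv, H'.ne, fun p hp => ?_⟩
    rw [Finset.mem_insert, Finset.mem_insert] at hp
    rcases hp with rfl | rfl | hp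
    · rw [cup_fx, cup_ty hxy, cup_tx]
    · rw [cup_fy hxy, cup_tx, cup_ty hxy, neg_neg]
    · have o : p ≠ x ∧ p ≠ y := ⟨fun e => hx (by rw [← e]; exact hp),
        fun e => hy (by rw [← e]; exact hp)⟩
      have o' : d.f p ≠ x ∧ d.f p ≠ y := ⟨fun e => hx (by rw [← e]; exact h.inv.mem p hp),
        fun e => hy (by rw [← e]; exact h.inv.mem p hp)⟩
      rw [cup_fo o.1 o.2, cup_to o'.1 o'.2, cup_to o.1 o.2]
      exact h.sys.t_f p hp
  · intro p hp np nfp
    rw [efz, ewz]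
    rw [Finset.mem_insert, Finset.mem_insert] at hp
    rcases hp with rfl | rfl | hp
    · rw [cup_fx, cup_wx, cup_cx]
      linarith
    · rw [cup_fy hxy, cup_wy, cup_cy]
      linarith
    · have o : p ≠ x ∧ p ≠ y := ⟨fun e => hx (by rw [← e]; exact hp),
        fun e => hy (by rw [← e]; exact hp)⟩
      rw [cup_fo o.1 o.2] at nfp
      rw [cup_fo o.1 o.2, cup_wo o.1 o.2, cup_co o.1 o.2]
      exact h.lc p hp np nfp
  · unfold Geo.LZ
    rw [efz, ewz, etz]
    exact h.lz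

end

end Full.Loop
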