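import Pool.Agent.Full.SixV.Half
import Pool.Agent.Full.Loop.DatZ

/-!
# Expansion of a row of the six vertex model at the isotropic point

Tile bit `false`: identity (bottom to left, right to top), tile bit `true`: generator (bottom to right,
left to top).  The row `rpw` with bits `om` acts on functions of the arrows as a cup at the right end,
generators and identities from right to left, and a cap around the cylinder.
-/

set_option autoImplicit false

namespace Full.Loop

open Finset Full.SixV

noncomputable section

/-- local tensor with a given bit -/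
def Lb (b : Bool) (s' s : Bool) : Matrix Bool Bool ℂ := fun x' x =>
  if b then (if x = !s ∧ x' = !s' then om ^ (sg s + sg x') else 0)
  else (if x' = s ∧ s' = x then om ^ (sg x - sg s) else 0)

lemma om_zero : om ^ (0 : ℤ) = 1 := zpow_zero _

lemma om2 : om ^ (2 : ℤ) + om ^ (-2 : ℤ) = (Real.sqrt 3 : ℝ) := by
  have h1 : om ^ (2 : ℤ) = Complex.exp (((Real.pi / 6 : ℝ) : ℂ) * Complex.I) := by
    unfold om
    rw [← Complex.exp_int_mul]
    congr 1
    push_cast
    ring
  have h2 : om ^ (-2 : ℤ) = Complex.exp (-((Real.pi / 6 : ℝ) : ℂ) * Complex.I) := by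
    unfold om
    rw [← Complex.exp_int_mul]
    congr 1
    push_cast
    ring
  have h3 : 2 * Complex.cos ((Real.pi / 6 : ℝ) : ℂ) = (Real.sqrt 3 : ℝ) := by
    rw [← Complex.ofReal_cos, Real.cos_pi_div_six]
    push_cast
    ring
  rw [h1, h2, ← h3, Complex.two_cos]

/-- the isotropic tensor -/
lemma Lt_half (s' s : Bool) :
    Lt (1 / 2) (1 / 2) ((Real.sqrt 3 / 2 : ℝ) : ℂ) s' s = (1 / 2 : ℂ) • (Lb false s' s + Lb true s' s) := by
  have h : ((Real.sqrt 3 / 2 : ℝ) : ℂ) = 1 / 2 * (om ^ (2 : ℤ) + om ^ (-2 : ℤ)) := by
    rw [om2]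
    push_cast
    ring
  ext x' x
  rw [h]
  cases s' <;> cases s <;> cases x' <;> cases x <;>
    simp [Lt, Lb, add_comm]

lemma L_iso (s' s : Bool) : L (Real.pi / 6 : ℝ) s' s =
    (1 / 2 : ℂ) • (Lb false s' s + Lb true s' s) := by
  rw [← Lt_half]
  have h1 : Complex.sin (lam + (Real.pi / 6 : ℝ)) = 1 := by
    unfold lam
    rw [← Complex.ofReal_add, ← Complex.ofReal_sin]
    rw [show Real.pi / 3 + Real.pi / 6 = Real.pi / 2 by ring, Real.sin_pi_div_two]
    norm_num
  have h2 : Complex.sin (lam - (Real.pi / 6 : ℝ)) = 1 / 2 := by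
    unfold lam
    rw [← Complex.ofReal_sub, ← Complex.ofReal_sin]
    rw [show Real.pi / 3 - Real.pi / 6 = Real.pi / 6 by ring, Real.sin_pi_div_six]
    push_cast
    ring
  have h3 : Complex.sin ((Real.pi / 6 : ℝ) : ℂ) = 1 / 2 := by
    rw [← Complex.ofReal_sin, Real.sin_pi_div_six]
    push_cast
    ring
  have h4 : Complex.sin lam = ((Real.sqrt 3 / 2 : ℝ) : ℂ) := by
    unfold lam
    rw [← Complex.ofReal_sin, Real.sin_pi_div_three]
  unfold L
  rw [h1, h2, h3, h4, div_one, div_one]

/-- row with given bits -/
def rpw : (n : ℕ) → (Fin n → Bool) → Cfg n → Cfg n → Matrix Bool Bool ℂ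
  | 0, _, _, _ => 1
  | (n + 1), b, s', s => Lb (b 0) (s' 0) (s 0) * rpw n (Fin.tail b) (Fin.tail s') (Fin.tail s)

lemma rpw_succ (n : ℕ) (b : Fin (n + 1) → Bool) (s' s : Cfg (n + 1)) :
    rpw (n + 1) b s' s = Lb (b 0) (s' 0) (s 0) * rpw n (Fin.tail b) (Fin.tail s') (Fin.tail s) := rfl

lemma rp_expand : ∀ (n : ℕ) (s' s : Cfg n),
    rp (L (Real.pi / 6 : ℝ)) n s' s = (1 / 2 : ℂ) ^ n • ∑ b : Fin n → Bool, rpw n b s' s
  | 0, s', s => by
      rw [rp_zero, pow_zero, one_smul, Fintype.sum_unique]
      rfl
  | (n + 1), s', s => by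
      rw [rp_succ, rp_expand n, L_iso]
      have e := sum_cfg n (fun b => rpw (n + 1) b s' s)
      rw [e, Fintype.sum_bool]
      simp only [rpw_succ, Fin.cons_zero, Fin.tail_cons]
      rw [← Finset.mul_sum, ← Finset.mul_sum, ← Matrix.add_mul, smul_mul_smul_comm,
        ← pow_succ', add_comm (Lb false _ _)]

/-! ### the row as an operator on functions of the arrows -/

/-- cup at `(j, j+1)` -/
def cupO (j : ℕ) (F : (ℕ → Bool) → ℂ) (σ : ℕ → Bool) : ℂ :=
  (if σ (j + 1) = !σ j then om ^ (2 * sg (σ j)) else 0) * F σ

/-- generator at `(j, j+1)` -/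
def genO (j : ℕ) (F : (ℕ → Bool) → ℂ) (σ : ℕ → Bool) : ℂ :=
  (if σ (j + 1) = !σ j then om ^ (2 * sg (σ j)) else 0) *
    ∑ a : Bool, om ^ (2 * sg a) * F (up2 σ j (j + 1) a (!a))

/-- generator or identity -/
def bitO (b : Bool) (j : ℕ) (F : (ℕ → Bool) → ℂ) : (ℕ → Bool) → ℂ := if b then genO j F else F

/-- open row on the sites `j, ..., j + n - 1` -/
def rowO : (n : ℕ) → (j : ℕ) → (Fin n → Bool) → ((ℕ → Bool) → ℂ) → (ℕ → Bool) → ℂ
  | 0, j, _, F => cupO j F
  | (n + 1), j, b, F => bitO (b 0) j (rowO n (j + 1) (Fin.tail b) F)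

/-- the arrows `σ` with the sites `j, ..., j + n - 1` replaced by `s` -/
def gl {n : ℕ} (j : ℕ) (s : Cfg n) (σ : ℕ → Bool) : ℕ → Bool := fun r =>
  if h : j ≤ r ∧ r < j + n then s ⟨r - j, by omega⟩ else σ r

/-- the function only depends on the sites below `M` -/
def Loc (M : ℕ) (F : (ℕ → Bool) → ℂ) : Prop := ∀ σ σ' : ℕ → Bool, (∀ r < M, σ r = σ' r) → F σ = F σ'

/-- arrows after the row: `x'` on the left end, `s'` on the new sites, `!x` on the right end -/
def out {n : ℕ} (j : ℕ) (s' : Cfg n) (x' x : Bool) (σ : ℕ → Bool) : ℕ → Bool := fun r =>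
  if r = j then x' else if h : j + 1 ≤ r ∧ r < j + 1 + n then s' ⟨r - (j + 1), by omega⟩
  else if r = j + n + 1 then !x else σ r

lemma gl_cons {n : ℕ} (j : ℕ) (s0 : Bool) (t : Cfg n) (σ : ℕ → Bool) :
    gl j (Fin.cons s0 t : Cfg (n + 1)) σ = gl (j + 1) t (Function.update σ j s0) := by
  funext r
  unfold gl
  by_cases h1 : r = j
  · subst h1
    rw [dif_pos ⟨le_refl _, by omega⟩, dif_neg (by omega), Function.update_self]
    have : (⟨r - r, by omega⟩ : Fin (n + 1)) = 0 := by
      apply Fin.ext
      simp
    rw [this, Fin.cons_zero]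
  · by_cases h2 : j + 1 ≤ r ∧ r < j + 1 + n
    · rw [dif_pos ⟨by omega, by omega⟩, dif_pos h2]
      have : (⟨r - j, by omega⟩ : Fin (n + 1)) = Fin.succ ⟨r - (j + 1), by omega⟩ := by
        apply Fin.ext
        simp
        omega
      rw [this, Fin.cons_succ]
    · rw [dif_neg (by omega), dif_neg h2, Function.update_of_ne h1]

theorem rpw_rowO : ∀ (n j : ℕ) (b : Fin n → Bool) (F : (ℕ → Bool) → ℂ), Loc (j + n) F →
    ∀ (s' : Cfg n) (x' x : Bool) (σ : ℕ → Bool),
    ∑ s : Cfg n, rpw n b s' s x' x * F (gl j s σ) =
      om ^ (- sg x' - sg x) * rowO n j b F (out j s' x' x σ)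
  | 0, j, b, F => by
      intro hF s' x' x σ
      rw [Fintype.sum_subsingleton _ s']
      have h1 : rpw 0 b s' s' x' x = if x' = x then 1 else 0 := by
        unfold rpw
        rw [Matrix.one_apply]
      have h2 : F (gl j s' σ) = F (out j s' x' x σ) := by
        apply hF
        intro r hr
        unfold gl out
        rw [dif_neg (by omega), if_neg (by omega), dif_neg (by omega), if_neg (by omega)]
      have h3 : out j s' x' x σ j = x' := if_pos rfl
      have h4 : out j s' x' x σ (j + 1) = !x := by
        unfold out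
        rw [if_neg (by omega), dif_neg (by omega), if_pos (by omega)]
      rw [h1, h2]
      show _ = _ * cupO j F _
      unfold cupO
      rw [h3, h4]
      by_cases h : x' = x
      · subst h
        rw [if_pos rfl, if_pos rfl, ← mul_assoc, ← om_add, one_mul]
        rw [show - sg x' - sg x' + 2 * sg x' = 0 by ring, zpow_zero, one_mul]
      · have h' : ¬ ((!x) = !x') := fun e => h (by rw [← Bool.not_not x', ← e, Bool.not_not])
        rw [if_neg h, if_neg h']
        ring
  | (n + 1), j, b, F => by
      intro hF s' x' x σ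
      have hF' : Loc (j + 1 + n) F := by
        rw [show j + 1 + n = j + (n + 1) by ring]
        exact hF
      set G := rowO n (j + 1) (Fin.tail b) F with hG
      have IH := rpw_rowO n (j + 1) (Fin.tail b) F hF' (Fin.tail s')
      have e1 : ∑ s : Cfg (n + 1), rpw (n + 1) b s' s x' x * F (gl j s σ) =
          ∑ s0 : Bool, ∑ a : Bool, Lb (b 0) (s' 0) s0 x' a *
            (om ^ (- sg a - sg x) * G (out (j + 1) (Fin.tail s') a x (Function.update σ j s0))) := by
        rw [sum_cfg n (fun s => rpw (n + 1) b s' s x' x * F (gl j s σ))]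
        refine Finset.sum_congr rfl fun s0 _ => ?_
        have e2 : ∀ t : Cfg n, rpw (n + 1) b s' (Fin.cons s0 t) x' x *
            F (gl j (Fin.cons s0 t : Cfg (n + 1)) σ) = ∑ a : Bool, Lb (b 0) (s' 0) s0 x' a *
            (rpw n (Fin.tail b) (Fin.tail s') t a x *
              F (gl (j + 1) t (Function.update σ j s0))) := by
          intro t
          rw [rpw_succ, Fin.cons_zero, Fin.tail_cons, gl_cons, Matrix.mul_apply, Finset.sum_mul]
          refine Finset.sum_congr rfl fun a _ => ?_
          ring
        rw [Finset.sum_congr rfl fun t _ => e2 t, Finset.sum_comm]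
        refine Finset.sum_congr rfl fun a _ => ?_
        rw [← Finset.mul_sum, IH]
      have e3 : ∀ s0 a, out (j + 1) (Fin.tail s') a x (Function.update σ j s0) =
          up2 (out j s' x' x σ) j (j + 1) s0 a := by
        intro s0 a
        funext r
        by_cases h1 : r = j
        · subst h1
          rw [up2_x _ (by omega)]
          unfold out
          rw [if_neg (by omega), dif_neg (by omega), if_neg (by omega), Function.update_self]
        · by_cases h2 : r = j + 1
          · subst h2
            rw [up2_y]
            exact if_pos rfl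
          · rw [up2_o _ h1 h2]
            unfold out
            rw [if_neg h2, if_neg h1]
            by_cases h3 : j + 1 + 1 ≤ r ∧ r < j + 1 + 1 + n
            · rw [dif_pos h3, dif_pos (by omega)]
              unfold Fin.tail
              congr 1
              apply Fin.ext
              simp
              omega
            · rw [dif_neg h3, dif_neg (by omega)]
              by_cases h4 : r = j + (n + 1) + 1
              · rw [if_pos (by omega), if_pos h4]
              · rw [if_neg (by omega), if_neg h4, Function.update_of_ne h1]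
      have o1 : out j s' x' x σ j = x' := if_pos rfl
      have o2 : out j s' x' x σ (j + 1) = s' 0 := by
        unfold out
        rw [if_neg (by omega), dif_pos ⟨by omega, by omega⟩]
        congr 1
        apply Fin.ext
        simp
      rw [e1]
      simp only [e3]
      show _ = _ * bitO (b 0) j G _
      unfold bitO
      cases hb : b 0
      · -- identity
        rw [if_neg (by decide)]
        have e4 : ∀ s0 a : Bool, Lb false (s' 0) s0 x' a *
            (om ^ (- sg a - sg x) * G (up2 (out j s' x' x σ) j (j + 1) s0 a)) =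
            if s0 = x' then (if a = s' 0 then om ^ (- sg x' - sg x) * G (out j s' x' x σ) else 0)
            else 0 := by
          intro s0 a
          unfold Lb
          rw [if_neg (by decide)]
          by_cases h1 : s0 = x'
          · by_cases h2 : a = s' 0
            · rw [if_pos ⟨h1.symm, h2.symm⟩, if_pos h1, if_pos h2, ← mul_assoc, ← om_add]
              have e5 : up2 (out j s' x' x σ) j (j + 1) s0 a = out j s' x' x σ := by
                funext r
                by_cases h3 : r = j
                · subst h3
                  rw [up2_x _ (by omega), o1, h1]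
                · by_cases h4 : r = j + 1
                  · subst h4
                    rw [up2_y, o2, h2]
                  · rw [up2_o _ h3 h4]
              rw [e5, h1]
              congr 2
              ring
            · rw [if_neg (fun h => h2 h.2.symm), if_pos h1, if_neg h2, zero_mul]
          · rw [if_neg (fun h => h1 h.1.symm), if_neg h1, zero_mul]
        simp only [e4]
        rw [Finset.sum_comm]
        simp
      · -- generator
        rw [if_pos rfl]
        unfold genO
        rw [o1, o2]
        have e4 : ∀ s0 a : Bool, Lb true (s' 0) s0 x' a *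
            (om ^ (- sg a - sg x) * G (up2 (out j s' x' x σ) j (j + 1) s0 a)) =
            if a = !s0 then (if s' 0 = !x' then om ^ (2 * sg x') else 0) * (om ^ (- sg x' - sg x) *
              (om ^ (2 * sg s0) * G (up2 (out j s' x' x σ) j (j + 1) s0 (!s0)))) else 0 := by
          intro s0 a
          unfold Lb
          rw [if_pos rfl]
          by_cases h1 : a = !s0
          · by_cases h2 : s' 0 = !x'
            · have h2' : x' = !(s' 0) := by rw [h2, Bool.not_not]
              rw [if_pos ⟨h1, h2'⟩, if_pos h1, if_pos h2, h1, sg_not, ← mul_assoc, ← mul_assoc,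
                ← mul_assoc, ← om_add, ← om_add, ← om_add]
              congr 2
              ring
            · have h2' : ¬ (x' = !(s' 0)) := fun h => h2 (by rw [h, Bool.not_not])
              rw [if_neg (fun h => h2' h.2), if_pos h1, if_neg h2, zero_mul, zero_mul]
          · rw [if_neg (fun h => h1 h.1), if_neg h1, zero_mul]
        simp only [e4, Finset.sum_ite_eq', Finset.mem_univ, if_true]
        rw [← Finset.mul_sum, ← Finset.mul_sum]
        ring

end

end Full.Loop
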