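import Pool.Agent.Full.Def.Geo
import Pool.Agent.Full.Turn.Hol

/-!
# The domain with the interior end `z`, cut along the line on the left of `z`

`D.sN i` is the lower side of the upper tile above the line `y` at the abscissa `i`, `D.nN i` the upper
side of the lower tile.  `D.gcut x y c` is the gluing `D.go x y` without the links `l ≤ i < c` of the
line `y`.  For `c = l` this is `D.go x y`, for `c = x` the end `z` is on the boundary of a simply
connected region.
-/

set_option autoImplicit false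
set_option linter.unusedSectionVars false

namespace Full
open Function Relation Finset

namespace Slab
variable (D : Slab) (x y c : ℤ)

/-- lower side of the upper tile `(i, y)` -/
def sN (y i : ℤ) : Half ZT := (Sum.inr (i, y), Dir.S)

/-- upper side of the lower tile `(i, y - 1)` -/
def nN (y i : ℤ) : Half ZT := (Sum.inl (i, y - 1), Dir.N)

lemma sN_inj {y i j : ℤ} (h : sN y i = sN y j) : i = j := by
  unfold sN at h
  simpa using h

lemma nN_inj {y i j : ℤ} (h : nN y i = nN y j) : i = j := by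
  unfold nN at h
  simpa using h

lemma sN_ne_nN {y i j : ℤ} : sN y i ≠ nN y j := by
  unfold sN nN
  simp

/-- the half edge belongs to a cut link -/
def InCut (h : Half ZT) : Prop := ∃ i, D.l ≤ i ∧ i < c ∧ (h = sN y i ∨ h = nN y i)

open Classical in
/-- the gluing of the domain without the links `l ≤ i < c` of the line `y` -/
noncomputable def gcut (h : Half ZT) : Half ZT := if D.InCut y c h then h else D.go x y h

open Classical in
/-- holonomy of the steps across the links `c ≤ i < x`: the third component counts the crossings of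
the line `y` on the left of `z`, upwards -/
noncomputable def bcut (h : Half ZT) : ℤ × ℤ × ℤ :=
  if ∃ i, c ≤ i ∧ i < x ∧ h = nN y i then (0, 0, 1)
  else if ∃ i, c ≤ i ∧ i < x ∧ h = sN y i then (0, 0, -1) else 0

variable {D x y c}

lemma gcut_l : D.gcut x y D.l = D.go x y := by
  funext h
  unfold gcut
  rw [if_neg]
  rintro ⟨i, h1, h2, -⟩
  omega

section links
variable (h1 : D.l ≤ x) (h2 : x < D.r) (h3 : D.b < y) (h4 : y < D.t)
include h1 h2 h3 h4

omit h1 in
lemma go_sN {i : ℤ} (hi : D.l ≤ i) (hix : i < x) : D.go x y (sN y i) = nN y i := by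
  have hm : (i, y - 1) ∈ D.TL y := by
    have : (Sum.inl (i, y - 1) : ZT) ∈ D.T y := mem_low.2 (Or.inr ⟨⟨hi, by omega⟩, by omega, by omega⟩)
    unfold T at this
    rwa [Finset.inl_mem_disjSum] at this
  have t1 : (Sum.inr (i, y) : ZT) ∈ D.T y := mem_up.2 (Or.inr ⟨⟨hi, by omega⟩, by omega, by omega⟩)
  have t2 : (Sum.inl (i, y - 1) : ZT) ∈ D.T y :=
    mem_low.2 (Or.inr ⟨⟨hi, by omega⟩, by omega, by omega⟩)
  have h5 : (Sum.inl (i, y - 1) : ZT) ∈ (zsurf D.l D.r x y y y).nb .S (Sum.inr (i, y)) := by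
    rw [zs_S_left hi (by omega) hix]
    rfl
  exact Surf.glue_of_mem h5 t1 t2

omit h1 in
lemma go_nN {i : ℤ} (hi : D.l ≤ i) (hix : i < x) : D.go x y (nN y i) = sN y i := by
  rw [← go_sN h2 h3 h4 hi hix]
  exact (glu_go (D := D)).inv _

omit h1 h2 h3 h4 in
lemma gcut_cut {h : Half ZT} (hc : D.InCut y c h) : D.gcut x y c h = h := by
  unfold gcut
  rw [if_pos hc]

omit h1 h2 h3 h4 in
lemma gcut_not {h : Half ZT} (hc : ¬ D.InCut y c h) : D.gcut x y c h = D.go x y h := by
  unfold gcut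
  rw [if_neg hc]

omit h1 in
/-- a cut link is glued with a cut link -/
lemma inCut_go {h : Half ZT} (hcx : c ≤ x) (hc : D.InCut y c h) : D.InCut y c (D.go x y h) := by
  obtain ⟨i, i1, i2, rfl | rfl⟩ := hc
  · exact ⟨i, i1, i2, Or.inr (go_sN h2 h3 h4 i1 (by omega))⟩
  · exact ⟨i, i1, i2, Or.inl (go_nN h2 h3 h4 i1 (by omega))⟩

omit h1 in
theorem glu_gcut (hcx : c ≤ x) : Glu (D.T y) (D.gcut x y c) where
  inv h := by
    by_cases hc : D.InCut y c h
    · rw [gcut_cut hc, gcut_cut hc]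
    · have hc' : ¬ D.InCut y c (D.go x y h) := fun h5 => hc (by
        have := inCut_go h2 h3 h4 hcx h5
        rwa [(glu_go (D := D)).inv] at this)
      rw [gcut_not hc, gcut_not hc', (glu_go (D := D)).inv]
  mem h hm := by
    by_cases hc : D.InCut y c h
    · rwa [gcut_cut hc]
    · rw [gcut_not hc]
      exact (glu_go (D := D)).mem h hm
  out h hm := by
    by_cases hc : D.InCut y c h
    · rw [gcut_cut hc]
    · rw [gcut_not hc]
      exact (glu_go (D := D)).out h hm

omit h1 in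
/-- gluing one link -/
theorem tie_gcut (hc : D.l ≤ c) (hcx : c < x) :
    tie (sN y c) (nN y c) (D.gcut x y (c + 1)) = D.gcut x y c := by
  funext h
  by_cases e1 : h = sN y c
  · subst e1
    have : ¬ D.InCut y c (sN y c) := by
      rintro ⟨i, i1, i2, h5 | h5⟩
      · have := sN_inj h5
        omega
      · exact sN_ne_nN h5
    rw [tie_x, gcut_not this, go_sN h2 h3 h4 hc hcx]
  · by_cases e2 : h = nN y c
    · subst e2
      have : ¬ D.InCut y c (nN y c) := by
        rintro ⟨i, i1, i2, h5 | h5⟩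
        · exact sN_ne_nN h5.symm
        · have := nN_inj h5
          omega
      rw [tie_y sN_ne_nN, gcut_not this, go_nN h2 h3 h4 hc hcx]
    · rw [tie_o e1 e2]
      by_cases hh : D.InCut y c h
      · rw [gcut_cut hh]
        obtain ⟨i, i1, i2, h5⟩ := hh
        exact gcut_cut ⟨i, i1, by omega, h5⟩
      · rw [gcut_not hh]
        apply gcut_not
        rintro ⟨i, i1, i2, h5⟩
        by_cases hi : i = c
        · subst hi
          rcases h5 with h5 | h5
          · exact e1 h5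
          · exact e2 h5
        · exact hh ⟨i, i1, by omega, h5⟩

omit h1 h2 h3 h4 in
theorem tieb_bcut (hcx : c < x) :
    tieb (sN y c) (nN y c) ((0, 0, -1) : ℤ × ℤ × ℤ) (bcut x y (c + 1)) = bcut x y c := by
  funext h
  unfold tieb bcut
  by_cases e1 : h = sN y c
  · subst e1
    rw [if_pos rfl, if_neg, if_pos ⟨c, le_rfl, hcx, rfl⟩]
    rintro ⟨i, -, -, h5⟩
    exact sN_ne_nN h5
  · rw [if_neg e1]
    by_cases e2 : h = nN y c
    · subst e2
      rw [if_pos rfl, if_pos ⟨c, le_rfl, hcx, rfl⟩]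
      rfl
    · rw [if_neg e2]
      have k1 : (∃ i, c + 1 ≤ i ∧ i < x ∧ h = nN y i) ↔ ∃ i, c ≤ i ∧ i < x ∧ h = nN y i := by
        constructor
        · rintro ⟨i, i1, i2, i3⟩
          exact ⟨i, by omega, i2, i3⟩
        · rintro ⟨i, i1, i2, i3⟩
          refine ⟨i, ?_, i2, i3⟩
          by_contra h5
          have : i = c := by omega
          subst this
          exact e2 i3
      have k2 : (∃ i, c + 1 ≤ i ∧ i < x ∧ h = sN y i) ↔ ∃ i, c ≤ i ∧ i < x ∧ h = sN y i := by
        constructor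
        · rintro ⟨i, i1, i2, i3⟩
          exact ⟨i, by omega, i2, i3⟩
        · rintro ⟨i, i1, i2, i3⟩
          refine ⟨i, ?_, i2, i3⟩
          by_contra h5
          have : i = c := by omega
          subst this
          exact e1 i3
      by_cases q1 : ∃ i, c ≤ i ∧ i < x ∧ h = nN y i
      · rw [if_pos (k1.2 q1), if_pos q1]
      · rw [if_neg (fun q => q1 (k1.1 q)), if_neg q1]
        by_cases q2 : ∃ i, c ≤ i ∧ i < x ∧ h = sN y i
        · rw [if_pos (k2.2 q2), if_pos q2]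
        · rw [if_neg (fun q => q2 (k2.1 q)), if_neg q2]

omit h1 h2 h3 h4 in
lemma bcut_x : bcut x y x = fun _ => 0 := by
  funext h
  unfold bcut
  rw [if_neg, if_neg]
  · rintro ⟨i, i1, i2, -⟩
    omega
  · rintro ⟨i, i1, i2, -⟩
    omega

/-! ### the chain of ends along the cut -/

omit h1 h2 h3 h4 in
/-- first return -/
lemma next_eq_rot {τ : Type*} {g : Half τ → Half τ} {h : Half τ} {k : ℕ} (hk : 1 ≤ k)
    (hf : g ((rot g)^[k] h) = (rot g)^[k] h)
    (hn : ∀ j, 1 ≤ j → j < k → g ((rot g)^[j] h) ≠ (rot g)^[j] h) : next g h = (rot g)^[k] h := by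
  classical
  have hex : ∃ k, 1 ≤ k ∧ g ((rot g)^[k] h) = (rot g)^[k] h := ⟨k, hk, hf⟩
  unfold next
  rw [dif_pos hex]
  congr 1
  refine le_antisymm (Nat.find_min' hex ⟨hk, hf⟩) ?_
  by_contra h5
  exact hn _ (Nat.find_spec hex).1 (by omega) (Nat.find_spec hex).2

omit h1 h2 h3 h4 in
lemma gcut_dir {h : Half ZT} (hd : h.2 ≠ Dir.S) (hd' : h.2 ≠ Dir.N) : D.gcut x y c h = D.go x y h := by
  apply gcut_not
  rintro ⟨i, -, -, h5 | h5⟩
  · rw [h5] at hd
    exact hd rfl
  · rw [h5] at hd'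
    exact hd' rfl

omit h1 in
lemma gcut_low_W {i : ℤ} (hi : D.l < i) (hi' : i ≤ D.r) :
    D.gcut x y c (Sum.inl (i, y - 1), Dir.W) = (Sum.inl (i - 1, y - 1), Dir.E) := by
  rw [gcut_dir (fun h => by cases h) (fun h => by cases h)]
  have t1 : (Sum.inl (i, y - 1) : ZT) ∈ D.T y :=
    mem_low.2 (Or.inr ⟨⟨by omega, by omega⟩, by omega, by omega⟩)
  have t2 : (Sum.inl (i - 1, y - 1) : ZT) ∈ D.T y :=
    mem_low.2 (Or.inr ⟨⟨by omega, by omega⟩, by omega, by omega⟩)
  have h5 : (Sum.inl (i - 1, y - 1) : ZT) ∈ (zsurf D.l D.r x y y y).nb .W (Sum.inl (i, y - 1)) := by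
    rw [Surf.mem_nb]
    show _ ∈ (zsurf D.l D.r x y y y).nb .E (Sum.inl (i - 1, y - 1))
    rw [zs_E_low_open (by omega), sub_add_cancel]
    rfl
  exact Surf.glue_of_mem h5 t1 t2

omit h1 in
lemma gcut_up_E {i : ℤ} (hi : D.l ≤ i) (hi' : i + 1 < D.r) :
    D.gcut x y c (Sum.inr (i, y), Dir.E) = (Sum.inr (i + 1, y), Dir.W) := by
  rw [gcut_dir (fun h => by cases h) (fun h => by cases h)]
  have t1 : (Sum.inr (i, y) : ZT) ∈ D.T y :=
    mem_up.2 (Or.inr ⟨⟨by omega, by omega⟩, by omega, by omega⟩)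
  have t2 : (Sum.inr (i + 1, y) : ZT) ∈ D.T y :=
    mem_up.2 (Or.inr ⟨⟨by omega, by omega⟩, by omega, by omega⟩)
  have h5 : (Sum.inr (i + 1, y) : ZT) ∈ (zsurf D.l D.r x y y y).nb .E (Sum.inr (i, y)) := by
    rw [zs_E_up_open (by omega)]
    rfl
  exact Surf.glue_of_mem h5 t1 t2

omit h1 in
lemma gcut_up_S {i : ℤ} (hi : x ≤ i) (hi1 : D.l ≤ i) (hi' : i < D.r) (hcx : c ≤ x) :
    D.gcut x y c (sN y i) = nN y (i + 1) := by
  rw [gcut_not]
  · have t1 : (Sum.inr (i, y) : ZT) ∈ D.T y :=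
      mem_up.2 (Or.inr ⟨⟨by omega, by omega⟩, by omega, by omega⟩)
    have t2 : (Sum.inl (i + 1, y - 1) : ZT) ∈ D.T y :=
      mem_low.2 (Or.inr ⟨⟨by omega, by omega⟩, by omega, by omega⟩)
    have h5 : (Sum.inl (i + 1, y - 1) : ZT) ∈ (zsurf D.l D.r x y y y).nb .S (Sum.inr (i, y)) := by
      rw [zs_S_right hi1 hi' hi]
      rfl
    exact Surf.glue_of_mem h5 t1 t2
  · rintro ⟨j, j1, j2, h5 | h5⟩
    · have := sN_inj h5
      omega
    · exact sN_ne_nN h5

omit h3 h4 in
lemma gcut_z : D.gcut x y c (nN y x) = nN y x := by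
  by_cases hc : D.InCut y c (nN y x)
  · exact gcut_cut hc
  · rw [gcut_not hc]
    unfold go Surf.glue nN
    rw [show (zsurf D.l D.r x y y y).nb Dir.N (Sum.inl (x, y - 1)) = none from zs_N_z h1 h2.le]

/-- a rotation of `k` steps from one fixed point of `g` to the next one -/
def Rk {τ : Type*} (g : Half τ → Half τ) (h : Half τ) (k : ℕ) (h' : Half τ) : Prop :=
  1 ≤ k ∧ (rot g)^[k] h = h' ∧ g h' = h' ∧ ∀ j, 1 ≤ j → j < k → g ((rot g)^[j] h) ≠ (rot g)^[j] h

omit h1 h2 h3 h4 in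
lemma Rk.next {τ : Type*} {g : Half τ → Half τ} {h h' : Half τ} {k : ℕ} (R : Rk g h k h') :
    next g h = h' := by
  rw [← R.2.1]
  exact next_eq_rot R.1 (by rw [R.2.1]; exact R.2.2.1) R.2.2.2

/-- the first end of the cut and the following ones -/
lemma rk_sN {i : ℤ} (hi : D.l ≤ i) (hix : i + 1 < x) :
    Rk (D.gcut x y x) (sN y i) 2 (sN y (i + 1)) := by
  have f1 : D.gcut x y x (sN y i) = sN y i := gcut_cut ⟨i, hi, by omega, Or.inl rfl⟩
  have f2 : D.gcut x y x (sN y (i + 1)) = sN y (i + 1) := gcut_cut ⟨i + 1, by omega, hix, Or.inl rfl⟩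
  have r1 : (rot (D.gcut x y x))^[1] (sN y i) = (Sum.inr (i, y), Dir.E) := by
    show rho (D.gcut x y x (sN y i)) = _
    rw [f1]
    rfl
  have r2 : (rot (D.gcut x y x))^[2] (sN y i) = sN y (i + 1) := by
    rw [iterate_succ_apply', r1]
    show rho (D.gcut x y x _) = _
    rw [gcut_up_E h2 h3 h4 hi (by omega)]
    rfl
  refine ⟨by norm_num, r2, f2, ?_⟩
  intro j hj1 hj2
  have : j = 1 := by omega
  subst this
  rw [r1, gcut_up_E h2 h3 h4 hi (by omega)]
  intro h
  simp at h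

lemma next_sN {i : ℤ} (hi : D.l ≤ i) (hix : i + 1 < x) :
    next (D.gcut x y x) (sN y i) = sN y (i + 1) := (rk_sN h1 h2 h3 h4 hi hix).next

/-- the last side above the cut is followed by `z` -/
lemma rk_last (hlx : D.l < x) : Rk (D.gcut x y x) (sN y (x - 1)) 4 (nN y x) := by
  have f1 : D.gcut x y x (sN y (x - 1)) = sN y (x - 1) := gcut_cut ⟨x - 1, by omega, by omega, Or.inl rfl⟩
  have f2 : D.gcut x y x (nN y x) = nN y x := gcut_z h1 h2
  have g1 : D.gcut x y x (Sum.inr (x - 1, y), Dir.E) = (Sum.inr (x, y), Dir.W) := by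
    have := gcut_up_E (D := D) (c := x) h2 h3 h4 (i := x - 1) (by omega) (by omega)
    rwa [sub_add_cancel] at this
  have g2 : D.gcut x y x (sN y x) = nN y (x + 1) := gcut_up_S h2 h3 h4 le_rfl h1 h2 le_rfl
  have g3 : D.gcut x y x (Sum.inl (x + 1, y - 1), Dir.W) = (Sum.inl (x, y - 1), Dir.E) := by
    have := gcut_low_W (D := D) (c := x) h2 h3 h4 (i := x + 1) (by omega) (by omega)
    rwa [add_sub_cancel_right] at this
  have r1 : (rot (D.gcut x y x))^[1] (sN y (x - 1)) = (Sum.inr (x - 1, y), Dir.E) := by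
    show rho (D.gcut x y x (sN y (x - 1))) = _
    rw [f1]
    rfl
  have r2 : (rot (D.gcut x y x))^[2] (sN y (x - 1)) = sN y x := by
    rw [iterate_succ_apply', r1]
    show rho (D.gcut x y x _) = _
    rw [g1]
    rfl
  have r3 : (rot (D.gcut x y x))^[3] (sN y (x - 1)) = (Sum.inl (x + 1, y - 1), Dir.W) := by
    rw [iterate_succ_apply', r2]
    show rho (D.gcut x y x _) = _
    rw [g2]
    rfl
  have r4 : (rot (D.gcut x y x))^[4] (sN y (x - 1)) = nN y x := by
    rw [iterate_succ_apply', r3]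
    show rho (D.gcut x y x _) = _
    rw [g3]
    rfl
  refine ⟨by norm_num, r4, f2, ?_⟩
  intro j hj1 hj2
  have : j = 1 ∨ j = 2 ∨ j = 3 := by omega
  rcases this with rfl | rfl | rfl
  · rw [r1, g1]
    intro h
    simp at h
  · rw [r2, g2]
    exact fun h => sN_ne_nN h.symm
  · rw [r3, g3]
    intro h
    simp at h

lemma next_sN_last (hlx : D.l < x) : next (D.gcut x y x) (sN y (x - 1)) = nN y x :=
  (rk_last h1 h2 h3 h4 hlx).next

omit h2 h3 h4 in
lemma gcut_nN (h2 : x < D.r) {i : ℤ} (hi : D.l ≤ i) (hix : i ≤ x) :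
    D.gcut x y x (nN y i) = nN y i := by
  by_cases hx : i = x
  · subst hx
    exact gcut_z h1 h2
  · exact gcut_cut ⟨i, by omega, by omega, Or.inr rfl⟩

/-- the ends below the cut, from right to left -/
lemma rk_nN {i : ℤ} (hi : D.l < i) (hix : i ≤ x) :
    Rk (D.gcut x y x) (nN y i) 2 (nN y (i - 1)) := by
  have f1 : D.gcut x y x (nN y i) = nN y i := gcut_nN h1 h2 hi.le hix
  have f2 : D.gcut x y x (nN y (i - 1)) = nN y (i - 1) := gcut_cut ⟨i - 1, by omega, by omega, Or.inr rfl⟩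
  have g1 : D.gcut x y x (Sum.inl (i, y - 1), Dir.W) = (Sum.inl (i - 1, y - 1), Dir.E) :=
    gcut_low_W h2 h3 h4 hi (by omega)
  have r1 : (rot (D.gcut x y x))^[1] (nN y i) = (Sum.inl (i, y - 1), Dir.W) := by
    show rho (D.gcut x y x (nN y i)) = _
    rw [f1]
    rfl
  have r2 : (rot (D.gcut x y x))^[2] (nN y i) = nN y (i - 1) := by
    rw [iterate_succ_apply', r1]
    show rho (D.gcut x y x _) = _
    rw [g1]
    rfl
  refine ⟨by norm_num, r2, f2, ?_⟩
  intro j hj1 hj2
  have : j = 1 := by omega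
  subst this
  rw [r1, g1]
  intro h
  simp at h

lemma next_nN {i : ℤ} (hi : D.l < i) (hix : i ≤ x) :
    next (D.gcut x y x) (nN y i) = nN y (i - 1) := (rk_nN h1 h2 h3 h4 hi hix).next

omit h1 h2 in
/-- the left side of the slab is on the boundary -/
lemma gcut_low_Wl : D.gcut x y c (Sum.inl (D.l, y - 1), Dir.W) = (Sum.inl (D.l, y - 1), Dir.W) := by
  have hlr := D.hlr
  rw [gcut_dir (fun h => by cases h) (fun h => by cases h)]
  by_contra hne
  obtain ⟨t', g1, g2, g3⟩ := Surf.glue_ne_iff.1 hne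
  have h5 : (Sum.inl (D.l - 1, y - 1) : ZT) ∈ (zsurf D.l D.r x y y y).nb .W (Sum.inl (D.l, y - 1)) := by
    rw [Surf.mem_nb]
    show _ ∈ (zsurf D.l D.r x y y y).nb .E (Sum.inl (D.l - 1, y - 1))
    rw [zs_E_low_open (by omega), sub_add_cancel]
    rfl
  have h6 : t' = Sum.inl (D.l - 1, y - 1) := by
    rw [Option.mem_def] at h5 g1
    rw [g1] at h5
    exact Option.some.inj h5
  rw [h6] at g3
  rcases mem_low.1 g3 with h | h
  · exact D.hL _ _ le_rfl (by omega) (by omega) (by omega) h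
  · omega

omit h1 h2 h3 in
lemma gcut_up_Wl (hby : D.b ≤ y) : D.gcut x y c (Sum.inr (D.l, y), Dir.W) = (Sum.inr (D.l, y), Dir.W) := by
  have hlr := D.hlr
  rw [gcut_dir (fun h => by cases h) (fun h => by cases h)]
  by_contra hne
  obtain ⟨t', g1, g2, g3⟩ := Surf.glue_ne_iff.1 hne
  have h5 : (Sum.inr (D.l - 1, y) : ZT) ∈ (zsurf D.l D.r x y y y).nb .W (Sum.inr (D.l, y)) := by
    rw [Surf.mem_nb]
    show _ ∈ (zsurf D.l D.r x y y y).nb .E (Sum.inr (D.l - 1, y))
    rw [zs_E_up_open (by omega), sub_add_cancel]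
    rfl
  have h6 : t' = Sum.inr (D.l - 1, y) := by
    rw [Option.mem_def] at h5 g1
    rw [g1] at h5
    exact Option.some.inj h5
  rw [h6] at g3
  rcases mem_up.1 g3 with h | h
  · exact D.hU _ _ le_rfl (by omega) (by omega) (by omega) h
  · omega

/-- after the chain -/
lemma rk_after : Rk (D.gcut x y x) (nN y D.l) 1 (Sum.inl (D.l, y - 1), Dir.W) := by
  refine ⟨le_rfl, ?_, gcut_low_Wl h3 h4, fun j hj1 hj2 => by omega⟩
  show rho (D.gcut x y x (nN y D.l)) = _
  rw [gcut_nN h1 h2 le_rfl h1]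
  rfl

/-- before the chain -/
lemma rk_before (hlx : D.l < x) : Rk (D.gcut x y x) (Sum.inr (D.l, y), Dir.W) 1 (sN y D.l) := by
  refine ⟨le_rfl, ?_, gcut_cut ⟨D.l, le_rfl, hlx, Or.inl rfl⟩, fun j hj1 hj2 => by omega⟩
  show rho (D.gcut x y x _) = _
  rw [gcut_up_Wl h4 h3.le]
  rfl

lemma rk_before' (hlx : D.l = x) : Rk (D.gcut x y x) (Sum.inr (D.l, y), Dir.W) 3 (nN y x) := by
  have g2 : D.gcut x y x (sN y x) = nN y (x + 1) := gcut_up_S h2 h3 h4 le_rfl h1 h2 le_rfl
  have g3 : D.gcut x y x (Sum.inl (x + 1, y - 1), Dir.W) = (Sum.inl (x, y - 1), Dir.E) := by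
    have := gcut_low_W (D := D) (c := x) h2 h3 h4 (i := x + 1) (by omega) (by omega)
    rwa [add_sub_cancel_right] at this
  have r1 : (rot (D.gcut x y x))^[1] (Sum.inr (D.l, y), Dir.W) = sN y x := by
    show rho (D.gcut x y x _) = _
    rw [gcut_up_Wl h4 h3.le, hlx]
    rfl
  have r2 : (rot (D.gcut x y x))^[2] (Sum.inr (D.l, y), Dir.W) = (Sum.inl (x + 1, y - 1), Dir.W) := by
    rw [iterate_succ_apply', r1]
    show rho (D.gcut x y x _) = _
    rw [g2]
    rfl
  have r3 : (rot (D.gcut x y x))^[3] (Sum.inr (D.l, y), Dir.W) = nN y x := by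
    rw [iterate_succ_apply', r2]
    show rho (D.gcut x y x _) = _
    rw [g3]
    rfl
  refine ⟨by norm_num, r3, gcut_z h1 h2, ?_⟩
  intro j hj1 hj2
  have : j = 1 ∨ j = 2 := by omega
  rcases this with rfl | rfl
  · rw [r1, g2]
    exact fun h => sN_ne_nN h.symm
  · rw [r2, g3]
    intro h
    simp at h

end links

end Slab

end Full
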