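import Pool.Agent.Full.Loop.GoZip

/-!
# The law of the strands of the domain with the interior end `z`

For `H : Slab.GoOk D x y` (the point is inside the slab, the two sheets are connected and have no holes):

* the ends of `D.go x y` other than `z` are `D.gend x y 0, …, D.gend x y (D.gnum x y - 1)` (counterclockwise,
  from the lower left side of the slab below the line `y` to the left side above it), `D.gpos x y` is the
  position of an end and `D.cth x y` the direction of the boundary in quarter turns;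
* `GoOk.noncross` : arcs do not cross; `GoOk.arc` : turning and string crossings of an arc; `GoOk.strand_z` :
  turning and string crossings of the strand of `z`; `GoOk.loops` : closed strands.
-/

set_option autoImplicit false
set_option linter.unusedSectionVars false

namespace Full
open Function Relation Finset Full.Loop

namespace Slab
variable {D : Slab} {x y : ℤ}

open Classical in
/-- crossings of the string of `z`: `1` for the upper side of a lower tile below the string, `-1` for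
the lower side of an upper tile above it -/
noncomputable def ccb (D : Slab) (x y : ℤ) (h : Half ZT) : ℤ :=
  if ∃ i, D.l ≤ i ∧ i < x ∧ h = nN y i then 1
  else if ∃ i, D.l ≤ i ∧ i < x ∧ h = sN y i then -1 else 0

lemma ccb_nN {i : ℤ} (hi : D.l ≤ i) (hix : i < x) : D.ccb x y (nN y i) = 1 :=
  if_pos ⟨i, hi, hix, rfl⟩

lemma ccb_sN {i : ℤ} (hi : D.l ≤ i) (hix : i < x) : D.ccb x y (sN y i) = -1 := by
  unfold ccb
  rw [if_neg, if_pos ⟨i, hi, hix, rfl⟩]
  rintro ⟨j, -, -, h⟩
  exact sN_ne_nN h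

lemma bcut_eq (h : Half ZT) : bcut x y D.l h = (0, 0, D.ccb x y h) := by
  unfold bcut ccb
  split_ifs <;> rfl

/-- turning of the strand of `e` in left quarter turns -/
noncomputable def gtn (D : Slab) (x y : ℤ) (ω : Finset ZT) (e : Half ZT) : ℤ :=
  hol (mate ω) (D.go x y) (fun h => tr ω (mate ω h)) (fun _ => 0) e

/-- crossings of the string of `z` by the strand of `e`, upwards -/
noncomputable def gcr (D : Slab) (x y : ℤ) (ω : Finset ZT) (e : Half ZT) : ℤ :=
  hol (mate ω) (D.go x y) (fun _ => 0) (D.ccb x y) e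

/-- position of an end other than `z` -/
noncomputable def gpos (D : Slab) (x y : ℤ) (e : Half ZT) : ℕ := D.cps x y e - D.cm0 x

/-- the ends other than `z` -/
noncomputable def gend (D : Slab) (x y : ℤ) (i : ℕ) : Half ZT :=
  (next (D.gcut x y x))^[i + D.cm0 x] (D.cch x y 0)

/-- their number -/
noncomputable def gnum (D : Slab) (x y : ℤ) : ℕ := D.cnb x y - D.cm0 x

section
variable (H : GoOk D x y)
include H

lemma GoOk.m0_lt : D.cm0 x < D.cnb x y := by
  have h1 := H.lx
  have h2 := H.xr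
  have h3 := H.by'
  have h4 := H.yt
  -- the end after the chain is not on the chain
  have h5 := H.lt_nb
  by_contra hn
  have h6 : D.cm0 x = D.cnb x y := by
    unfold cm0 at hn ⊢
    omega
  have h7 : (next (D.gcut x y x))^[D.cm0 x] (D.cch x y 0) = D.cch x y 0 := by
    rw [h6]
    exact iterate_minimalPeriod
  have h8 : (next (D.gcut x y x))^[D.cm0 x] (D.cch x y 0) = (Sum.inl (D.l, y - 1), Dir.W) := by
    unfold cm0
    rw [iterate_succ_apply', H.iter_ch _ (by push_cast; omega), cch_n (by push_cast; omega)]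
    have e1 : 2 * x - D.l - ((2 * (x - D.l).toNat : ℕ) : ℤ) = D.l := by push_cast; omega
    rw [e1, (rk_after h1 h2 h3 h4).next]
  rw [h8] at h7
  rcases lt_or_ge (D.l + ((0 : ℕ) : ℤ)) x with h9 | h9
  · rw [cch_s h9] at h7
    unfold sN at h7
    simp at h7
  · rw [cch_n h9] at h7
    unfold nN at h7
    simp at h7

lemma GoOk.gnum_pos : 0 < D.gnum x y := by
  have := H.m0_lt
  unfold gnum
  omega

lemma GoOk.bd_iter (j : ℕ) : Bd (D.T y) (D.gcut x y x) ((next (D.gcut x y x))^[j] (D.cch x y 0)) :=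
  H.good.glu.bd_iter H.bd0 j

lemma GoOk.ps_iter {j : ℕ} (hj : j < D.cnb x y) :
    D.cps x y ((next (D.gcut x y x))^[j] (D.cch x y 0)) = j := H.good.glu.pos_iter hj

lemma GoOk.ps_z : D.cps x y (nN y x) = D.cpz x := by
  have h1 := H.lx
  rw [H.ps_n h1 le_rfl]
  unfold cpz
  congr 1
  ring

/-! ### the list of the ends -/

theorem GoOk.bd_gend {i : ℕ} (hi : i < D.gnum x y) :
    Bd (D.T y) (D.go x y) (D.gend x y i) ∧ D.gend x y i ≠ nN y x := by
  have h1 := H.lx
  have hp : D.cps x y (D.gend x y i) = i + D.cm0 x := H.ps_iter (by unfold gnum at hi; omega)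
  have hz : D.gend x y i ≠ nN y x := by
    intro h
    rw [h, H.ps_z] at hp
    unfold cpz cm0 at hp
    omega
  exact ⟨(H.bd_go hz).2 ⟨H.bd_iter _, by omega⟩, hz⟩

theorem GoOk.gpos_gend {i : ℕ} (hi : i < D.gnum x y) : D.gpos x y (D.gend x y i) = i := by
  have hp : D.cps x y (D.gend x y i) = i + D.cm0 x := H.ps_iter (by unfold gnum at hi; omega)
  unfold gpos
  omega

theorem GoOk.gpos_lt {e : Half ZT} (he : Bd (D.T y) (D.go x y) e) (hz : e ≠ nN y x) :
    D.gpos x y e < D.gnum x y := by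
  obtain ⟨h1, h2⟩ := (H.bd_go hz).1 he
  have h3 := H.ps_lt h1
  unfold gpos gnum
  omega

theorem GoOk.gend_gpos {e : Half ZT} (he : Bd (D.T y) (D.go x y) e) (hz : e ≠ nN y x) :
    D.gend x y (D.gpos x y e) = e := by
  obtain ⟨h1, h2⟩ := (H.bd_go hz).1 he
  have h3 := H.ps_spec h1
  unfold gend gpos
  rw [Nat.sub_add_cancel h2, h3]

theorem GoOk.gpos_inj {e e' : Half ZT} (he : Bd (D.T y) (D.go x y) e) (hz : e ≠ nN y x)
    (he' : Bd (D.T y) (D.go x y) e') (hz' : e' ≠ nN y x) (h : D.gpos x y e = D.gpos x y e') : e = e' := by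
  rw [← H.gend_gpos he hz, ← H.gend_gpos he' hz', h]

/-- the first end -/
theorem GoOk.gend_zero : D.gend x y 0 = (Sum.inl (D.l, y - 1), Dir.W) ∧ D.cth x y (D.gend x y 0) = -1 := by
  have h1 := H.lx
  have h2 := H.xr
  have h3 := H.by'
  have h4 := H.yt
  have e1 : 2 * x - D.l - ((2 * (x - D.l).toNat : ℕ) : ℤ) = D.l := by push_cast; omega
  have e2 : D.gend x y 0 = (Sum.inl (D.l, y - 1), Dir.W) := by
    unfold gend cm0
    rw [Nat.zero_add, iterate_succ_apply', H.iter_ch _ (by push_cast; omega),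
      cch_n (by push_cast; omega), e1, (rk_after h1 h2 h3 h4).next]
  refine ⟨e2, ?_⟩
  have hp : D.cps x y (D.gend x y 0) = 0 + D.cm0 x := H.ps_iter (by have := H.m0_lt; omega)
  unfold cth
  rw [hp, Nat.zero_add]
  have e3 : Turn.lb (D.gcut x y x) (D.cch x y 0) (D.cm0 x) =
      Turn.lb (D.gcut x y x) (D.cch x y 0) (2 * (x - D.l).toNat) + 1 := by
    unfold cm0 Turn.lb
    rw [Finset.sum_range_succ, H.iter_ch _ (by push_cast; omega),
      cch_n (j := 2 * (x - D.l).toNat) (by push_cast; omega), e1, (rk_after h1 h2 h3 h4).bt]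
    norm_num
  have e4 : 2 * (x - D.l).toNat = 2 * D.cpz x := rfl
  rw [e3, H.lb_ge _ (by push_cast; omega) (by push_cast; omega)]
  unfold cpz
  rw [H.lb_ge _ (by omega) (by omega)]
  ring

/-- the last end -/
theorem GoOk.gend_last : D.gend x y (D.gnum x y - 1) = (Sum.inr (D.l, y), Dir.W) ∧
    D.cth x y (D.gend x y (D.gnum x y - 1)) = 3 := by
  have h1 := H.lx
  have h2 := H.xr
  have h3 := H.by'
  have h4 := H.yt
  have hG := H.good.glu
  have hm := H.m0_lt
  have hgn := H.gnum_pos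
  set e : Half ZT := (Sum.inr (D.l, y), Dir.W) with he
  have hbe : Bd (D.T y) (D.gcut x y x) e :=
    ⟨mem_up.2 (Or.inr ⟨⟨le_rfl, D.hlr⟩, le_rfl, h4⟩), gcut_up_Wl h4 h3.le⟩
  -- the next end is the first one of the chain
  have hn : next (D.gcut x y x) e = D.cch x y 0 ∧ Turn.bt (D.gcut x y x) e = if D.l < x then 1 else -1 := by
    rcases eq_or_lt_of_le h1 with h5 | h5
    · have R := rk_before' (D := D) h1 h2 h3 h4 h5
      rw [if_neg (by omega)]
      refine ⟨?_, ?_⟩
      · rw [R.next, cch_n (by push_cast; omega)]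
        congr 1
        push_cast
        omega
      · rw [R.bt]
        norm_num
    · have R := rk_before (D := D) h1 h2 h3 h4 h5
      rw [if_pos h5]
      refine ⟨?_, ?_⟩
      · rw [R.next, cch_s (by push_cast; omega)]
        congr 1
        push_cast
        ring
      · rw [R.bt]
        norm_num
  have hN : (next (D.gcut x y x))^[D.cnb x y] (D.cch x y 0) = D.cch x y 0 := iterate_minimalPeriod
  have e1 : next (D.gcut x y x) ((next (D.gcut x y x))^[D.cnb x y - 1] (D.cch x y 0)) = D.cch x y 0 := by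
    rw [← iterate_succ_apply' (next (D.gcut x y x)), show (D.cnb x y - 1).succ = D.cnb x y by omega, hN]
  have e2 : (next (D.gcut x y x))^[D.cnb x y - 1] (D.cch x y 0) = e :=
    hG.next_inj (H.bd_iter _).2 hbe.2 (e1.trans hn.1.symm)
  have e3 : D.gnum x y - 1 + D.cm0 x = D.cnb x y - 1 := by unfold gnum; omega
  have e4 : D.gend x y (D.gnum x y - 1) = e := by
    unfold gend
    rw [e3, e2]
  refine ⟨e4, ?_⟩
  have hp : D.cps x y e = D.cnb x y - 1 := by
    rw [← e2]
    exact H.ps_iter (by omega)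
  have tot := H.good.total H.bd0
  have e5 : Turn.lb (D.gcut x y x) (D.cch x y 0) (D.cnb x y - 1) + Turn.bt (D.gcut x y x) e = 4 := by
    have : ∑ j ∈ Finset.range (D.cnb x y), Turn.bt (D.gcut x y x) ((next (D.gcut x y x))^[j] (D.cch x y 0)) =
        4 := tot
    rw [show D.cnb x y = D.cnb x y - 1 + 1 by omega, Finset.sum_range_succ, e2] at this
    exact this
  rw [e4]
  unfold cth
  rw [hp]
  unfold cpz
  rw [H.lb_ge (x - D.l).toNat (by omega) (by omega)]
  rw [hn.2] at e5
  split_ifs at e5 ⊢ <;> omega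

/-- the following end -/
theorem GoOk.gend_succ {i : ℕ} (hi : i + 1 < D.gnum x y) :
    D.gend x y (i + 1) = next (D.go x y) (D.gend x y i) ∧
      D.cth x y (D.gend x y (i + 1)) = D.cth x y (D.gend x y i) + Turn.bt (D.go x y) (D.gend x y i) := by
  have hG := H.good.glu
  have hm := H.m0_lt
  obtain ⟨b1, z1⟩ := H.bd_gend (show i < D.gnum x y by omega)
  obtain ⟨b2, z2⟩ := H.bd_gend hi
  obtain ⟨c1, d1⟩ := (H.bd_go z1).1 b1
  have e1 : D.gend x y (i + 1) = next (D.gcut x y x) (D.gend x y i) := by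
    unfold gend
    rw [show i + 1 + D.cm0 x = (i + D.cm0 x) + 1 by ring, iterate_succ_apply']
  obtain ⟨k1, k2, k3⟩ := Turn.ks_spec hG c1.2
  set k := Turn.ks (D.gcut x y x) (D.gend x y i) with hk
  -- the rotations agree
  have key : ∀ j, j ≤ k → (rot (D.go x y))^[j] (D.gend x y i) = (rot (D.gcut x y x))^[j] (D.gend x y i) := by
    intro j
    induction j with
    | zero => intro _; rfl
    | succ j ih =>
      intro hj
      rw [iterate_succ_apply', iterate_succ_apply', ih (by omega)]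
      show rho (D.go x y _) = rho (D.gcut x y x _)
      congr 1
      rcases Nat.eq_zero_or_pos j with h0 | h0
      · subst h0
        show D.go x y (D.gend x y i) = D.gcut x y x (D.gend x y i)
        rw [b1.2, c1.2]
      · have h5 := k3 j h0 (by omega)
        have hc : ¬ D.InCut y x ((rot (D.gcut x y x))^[j] (D.gend x y i)) := fun hc => h5 (gcut_cut hc)
        rw [gcut_not hc]
  have hf : D.go x y ((rot (D.go x y))^[k] (D.gend x y i)) = (rot (D.go x y))^[k] (D.gend x y i) := by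
    rw [key k le_rfl, ← k2, ← e1]
    exact b2.2
  have hn : ∀ j, 1 ≤ j → j < k → D.go x y ((rot (D.go x y))^[j] (D.gend x y i)) ≠
      (rot (D.go x y))^[j] (D.gend x y i) := by
    intro j hj1 hj2
    rw [key j hj2.le]
    have h5 := k3 j hj1 hj2
    have hc : ¬ D.InCut y x ((rot (D.gcut x y x))^[j] (D.gend x y i)) := fun hc => h5 (gcut_cut hc)
    rwa [gcut_not hc] at h5
  obtain ⟨t1, t2⟩ := Turn.bt_of k1 hf hn
  refine ⟨?_, ?_⟩
  · rw [t2, key k le_rfl, ← k2, e1]
  · have hp1 : D.cps x y (D.gend x y i) = i + D.cm0 x := H.ps_iter (by unfold gnum at hi; omega)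
    have hp2 : D.cps x y (D.gend x y (i + 1)) = i + 1 + D.cm0 x := H.ps_iter (by unfold gnum at hi; omega)
    unfold cth
    rw [hp1, hp2]
    have e5 : Turn.lb (D.gcut x y x) (D.cch x y 0) (i + 1 + D.cm0 x) =
        Turn.lb (D.gcut x y x) (D.cch x y 0) (i + D.cm0 x) + Turn.bt (D.gcut x y x) (D.gend x y i) := by
      unfold Turn.lb
      rw [show i + 1 + D.cm0 x = (i + D.cm0 x) + 1 by ring, Finset.sum_range_succ]
      rfl
    rw [e5, t1]
    unfold Turn.bt
    rw [← hk]
    ring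

/-! ### the strands -/

/-- the state -/
theorem GoOk.state (ω : Finset ZT) :
    ASZ (mate ω) (D.go x y) (fun h => ((0, aT ω h, 0) : ℤ × ℤ × ℤ)) (bcut x y D.l)
      ((D.cG0 x y).frz (nN y x)) (bds (D.T y) (D.go x y)) (D.cth x y) (D.cph x y) (nN y x) (D.ces y) := by
  have h1 := H.lx
  have := H.asz ω (x - D.l).toNat D.l le_rfl (by omega)
  rwa [gcut_l] at this

omit H in
lemma hw_go (ω : Finset ZT) (p : Half ZT) :
    hw (mate ω) (D.go x y) (fun h => ((0, aT ω h, 0) : ℤ × ℤ × ℤ)) (bcut x y D.l) p = 0 := by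
  have h1 := hol_map (m := mate ω) (g := D.go x y) (a := fun h => ((0, aT ω h, 0) : ℤ × ℤ × ℤ))
    (b := bcut x y D.l) F1 p
  have e : (fun h => F1 (bcut x y D.l h)) = fun _ => (0 : ℤ) := by
    funext h
    rw [bcut_eq]
    rfl
  rw [e] at h1
  exact h1.trans (hsum_const_zero _ _)

omit H in
lemma ht_go (ω : Finset ZT) (p : Half ZT) :
    ht (mate ω) (D.go x y) (fun h => ((0, aT ω h, 0) : ℤ × ℤ × ℤ)) (bcut x y D.l) p = D.gtn x y ω p := by
  have h1 := hol_map (m := mate ω) (g := D.go x y) (a := fun h => ((0, aT ω h, 0) : ℤ × ℤ × ℤ))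
    (b := bcut x y D.l) F2 p
  have e : (fun h => F2 (bcut x y D.l h)) = fun _ => (0 : ℤ) := by
    funext h
    rw [bcut_eq]
    rfl
  rw [e] at h1
  exact h1

omit H in
lemma hc_go (ω : Finset ZT) (p : Half ZT) :
    hc (mate ω) (D.go x y) (fun h => ((0, aT ω h, 0) : ℤ × ℤ × ℤ)) (bcut x y D.l) p = D.gcr x y ω p := by
  have h1 := hol_map (m := mate ω) (g := D.go x y) (a := fun h => ((0, aT ω h, 0) : ℤ × ℤ × ℤ))
    (b := bcut x y D.l) F3 p
  have e : (fun h => F3 (bcut x y D.l h)) = D.ccb x y := by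
    funext h
    rw [bcut_eq]
    rfl
  rw [e] at h1
  exact h1

/-- the positions of the ends in the state -/
lemma GoOk.P_gpos {e : Half ZT} (he : Bd (D.T y) (D.go x y) e) (hz : e ≠ nN y x) :
    D.cP x y e = (D.gpos x y e : ℚ) + D.cm0 x := by
  obtain ⟨h1, h2⟩ := (H.bd_go hz).1 he
  rw [H.P_eq he.1]
  unfold gpos
  rw [Nat.cast_sub h2]
  ring

omit H in
lemma nz_go {p : Half ZT} : ((D.cG0 x y).frz (nN y x)).nz p ↔ p ≠ nN y x := by
  constructor
  · intro h hp
    rw [hp] at h
    exact h Geo.frz_z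
  · intro h
    unfold Geo.nz
    rw [Geo.frz_sd h]
    show Side.bot ≠ Side.non
    decide

variable {ω : Finset ZT}

/-- **arcs do not cross** -/
theorem GoOk.noncross {e e' : Half ZT} (he : Bd (D.T y) (D.go x y) e) (hz : e ≠ nN y x)
    (ho : other (mate ω) (D.go x y) e ≠ nN y x) (he' : Bd (D.T y) (D.go x y) e')
    (hz' : e' ≠ nN y x) (ho' : other (mate ω) (D.go x y) e' ≠ nN y x)
    (h1 : D.gpos x y e < D.gpos x y e') (h2 : D.gpos x y e' < D.gpos x y (other (mate ω) (D.go x y) e)) :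
    D.gpos x y e < D.gpos x y (other (mate ω) (D.go x y) e') ∧
      D.gpos x y (other (mate ω) (D.go x y) e') < D.gpos x y (other (mate ω) (D.go x y) e) := by
  have S := H.state ω
  have hG : Glu (D.T y) (D.go x y) := glu_go
  have bo := hG.other_bd (ω := ω) he
  have bo' := hG.other_bd (ω := ω) he'
  have n1 : e' ≠ e := by rintro rfl; omega
  have n2 : e' ≠ other (mate ω) (D.go x y) e := by
    intro h; rw [← h] at h2; omega
  have n3 : D.gpos x y (other (mate ω) (D.go x y) e') ≠ D.gpos x y e := fun h => n2 (by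
    rw [← H.gpos_inj bo' ho' he hz h, hG.other_other he'])
  have n4 : D.gpos x y (other (mate ω) (D.go x y) e') ≠ D.gpos x y (other (mate ω) (D.go x y) e) :=
    fun h => n1 (by
      have := H.gpos_inj bo' ho' bo ho h
      rw [← hG.other_other (ω := ω) he', this, hG.other_other he])
  have N := S.nc e (mem_bds.2 he) (nz_go.2 hz) (nz_go.2 ho) e' (mem_bds.2 he') (nz_go.2 hz')
    (nz_go.2 ho') 0 (by
      rintro (⟨h, -⟩ | ⟨h, -⟩)
      · exact n1 h
      · exact n2 h)
  unfold Geo.L at N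
  rw [hw_go, hw_go] at N
  simp only [sub_zero, add_zero] at N
  rw [Geo.u_eq, Geo.u_eq, Geo.u_eq, Geo.u_eq] at N
  have b : ∀ q, q ≠ nN y x → ((D.cG0 x y).frz (nN y x)).sd q = Side.bot := fun q hq => Geo.frz_sd hq
  rw [Geo.D_bot (b _ hz) (b _ hz'), Geo.D_bot (b _ ho) (b _ hz'), Geo.D_bot (b _ hz) (b _ ho'),
    Geo.D_bot (b _ ho) (b _ ho')] at N
  have lt_iff : ∀ p q, Bd (D.T y) (D.go x y) p → p ≠ nN y x → Bd (D.T y) (D.go x y) q → q ≠ nN y x →
      (((D.cG0 x y).frz (nN y x)).lt p q 0 ↔ D.gpos x y p < D.gpos x y q) := by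
    intro p q hp hpz hq hqz
    unfold Geo.lt
    have e1 : ((D.cG0 x y).frz (nN y x)).ix p = (D.gpos x y p : ℚ) + D.cm0 x := H.P_gpos hp hpz
    have e2 : ((D.cG0 x y).frz (nN y x)).ix q = (D.gpos x y q : ℚ) + D.cm0 x := H.P_gpos hq hqz
    rw [e1, e2, add_lt_add_iff_right, Nat.cast_lt]
    simp
  simp only [lt_iff _ _ he hz he' hz', lt_iff _ _ bo ho he' hz', lt_iff _ _ he hz bo' ho',
    lt_iff _ _ bo ho bo' ho'] at N
  rw [if_pos h1, if_neg (by omega)] at N
  split_ifs at N with c1 c2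
  · omega
  · omega
  · omega
  · omega

/-- **arcs**: turning and string crossings -/
theorem GoOk.arc {e : Half ZT} (he : Bd (D.T y) (D.go x y) e) (hz : e ≠ nN y x)
    (ho : other (mate ω) (D.go x y) e ≠ nN y x)
    (hlt : D.gpos x y e < D.gpos x y (other (mate ω) (D.go x y) e)) :
    D.gtn x y ω e = D.cth x y (other (mate ω) (D.go x y) e) - D.cth x y e - 2 ∧
      D.gcr x y ω e = if D.gpos x y e < D.gpos x y (other (mate ω) (D.go x y) (nN y x)) ∧
        D.gpos x y (other (mate ω) (D.go x y) (nN y x)) < D.gpos x y (other (mate ω) (D.go x y) e)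
        then 1 else 0 := by
  have S := H.state ω
  have hG : Glu (D.T y) (D.go x y) := glu_go
  have bo := hG.other_bd (ω := ω) he
  have hzb : Bd (D.T y) (D.go x y) (nN y x) := mem_bds.1 S.pt.mem
  have hkb := hG.other_bd (ω := ω) hzb
  have hkz : other (mate ω) (D.go x y) (nN y x) ≠ nN y x := hG.other_ne hzb
  have b : ∀ q, q ≠ nN y x → ((D.cG0 x y).frz (nN y x)).sd q = Side.bot := fun q hq => Geo.frz_sd hq
  have hix : ∀ p, Bd (D.T y) (D.go x y) p → p ≠ nN y x → ((D.cG0 x y).frz (nN y x)).ix p =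
      (D.gpos x y p : ℚ) + D.cm0 x := fun p hp hpz => H.P_gpos hp hpz
  have hes : D.ces y ≠ nN y x := fun h => by
    unfold ces nN at h
    simp at h
  have hie : ((D.cG0 x y).frz (nN y x)).ix (D.ces y) = (D.cm0 x : ℚ) - 1 / 2 := if_pos rfl
  have lt_iff : ∀ p q, Bd (D.T y) (D.go x y) p → p ≠ nN y x → Bd (D.T y) (D.go x y) q → q ≠ nN y x →
      (((D.cG0 x y).frz (nN y x)).ix p < ((D.cG0 x y).frz (nN y x)).ix q ↔
        D.gpos x y p < D.gpos x y q) := by
    intro p q hp hpz hq hqz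
    rw [hix p hp hpz, hix q hq hqz, add_lt_add_iff_right, Nat.cast_lt]
  have nes : ∀ p, Bd (D.T y) (D.go x y) p → p ≠ nN y x →
      ¬ ((D.cG0 x y).frz (nN y x)).ix p < ((D.cG0 x y).frz (nN y x)).ix (D.ces y) := by
    intro p hp hpz
    rw [hix p hp hpz, hie]
    have : (0 : ℚ) ≤ D.gpos x y p := Nat.cast_nonneg _
    intro h
    linarith
  have hpe : ∀ p, Bd (D.T y) (D.go x y) p → p ≠ nN y x → D.cph x y p = 0 := by
    intro p hp hpz
    have h1 := H.lx
    unfold cph Geo.pz
    have sd : (D.cG0 x y).sd p = Side.bot := rfl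
    have c1 : ¬ (D.cG0 x y).ix p < (D.cG0 x y).ix (D.ces y) := nes p hp hpz
    have c2 : ¬ (D.cG0 x y).ix p < (D.cG0 x y).ix (nN y x) := by
      have q1 : (D.cG0 x y).ix p = (D.gpos x y p : ℚ) + D.cm0 x := H.P_gpos hp hpz
      have q2 : (D.cG0 x y).ix (nN y x) = (D.cpz x : ℚ) := by
        show D.cP x y (nN y x) = _
        rw [H.P_eq hzb.1, H.ps_z]
      rw [q1, q2]
      have : (D.cpz x : ℚ) < D.cm0 x := by
        rw [Nat.cast_lt]
        unfold cpz cm0
        omega
      have h0 : (0 : ℚ) ≤ D.gpos x y p := Nat.cast_nonneg _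
      intro h
      linarith
    rw [if_pos sd]
    unfold Geo.b
    rw [if_neg c1, if_neg c2, sub_zero]
  have t1 := S.ld e (mem_bds.2 he) (nz_go.2 hz) (nz_go.2 ho)
  have c1 := S.lr e (mem_bds.2 he) (nz_go.2 hz) (nz_go.2 ho)
  rw [ht_go, hw_go] at t1
  rw [hc_go, hpe _ bo ho, hpe _ he hz] at c1
  constructor
  · rw [t1]
    unfold Geo.T
    rw [Geo.u_eq, Geo.u_eq, Geo.D_bot (b _ ho) (b _ hz), Geo.D_bot (b _ hz) (b _ ho)]
    unfold Geo.lt
    simp only [neg_zero, lt_irrefl, false_or, true_and, lt_iff _ _ he hz bo ho,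
      lt_iff _ _ bo ho he hz]
    rw [if_pos hlt, if_neg (by omega)]
    ring
  · rw [c1]
    unfold Geo.R Geo.S
    rw [hw_go, hw_go, Geo.D_bot (b _ hz) (b _ hkz), Geo.D_bot (b _ ho) (b _ hkz),
      Geo.D_bot (b _ hz) (b _ hes), Geo.D_bot (b _ ho) (b _ hes)]
    unfold Geo.b
    rw [if_neg (nes e he hz), if_neg (nes _ bo ho)]
    simp only [lt_iff _ _ he hz hkb hkz, lt_iff _ _ bo ho hkb hkz]
    have hne : D.gpos x y (other (mate ω) (D.go x y) (nN y x)) ≠
        D.gpos x y (other (mate ω) (D.go x y) e) := fun h => hz (by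
      have := H.gpos_inj hkb hkz bo ho h
      rw [← hG.other_other (ω := ω) he, ← this, hG.other_other hzb])
    split_ifs <;> omega

/-- **the strand of `z`** -/
theorem GoOk.strand_z : D.gtn x y ω (nN y x) + 4 * D.gcr x y ω (nN y x) =
    D.cth x y (other (mate ω) (D.go x y) (nN y x)) := by
  have S := H.state ω
  have hG : Glu (D.T y) (D.go x y) := glu_go
  have h1 := H.lx
  have hzb : Bd (D.T y) (D.go x y) (nN y x) := mem_bds.1 S.pt.mem
  have hkb := hG.other_bd (ω := ω) hzb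
  have hkz : other (mate ω) (D.go x y) (nN y x) ≠ nN y x := hG.other_ne hzb
  have hix : (D.cG0 x y).ix (other (mate ω) (D.go x y) (nN y x)) =
    (D.gpos x y (other (mate ω) (D.go x y) (nN y x)) : ℚ) + D.cm0 x := H.P_gpos hkb hkz
  have hie : (D.cG0 x y).ix (D.ces y) = (D.cm0 x : ℚ) - 1 / 2 := if_pos rfl
  have q2 : (D.cG0 x y).ix (nN y x) = (D.cpz x : ℚ) := by
    show D.cP x y (nN y x) = _
    rw [H.P_eq hzb.1, H.ps_z]
  have hlt : (D.cpz x : ℚ) < D.cm0 x := by
    rw [Nat.cast_lt]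
    unfold cpz cm0
    omega
  have h0 : (0 : ℚ) ≤ D.gpos x y (other (mate ω) (D.go x y) (nN y x)) := Nat.cast_nonneg _
  have c1 : ¬ (D.cG0 x y).ix (other (mate ω) (D.go x y) (nN y x)) < (D.cG0 x y).ix (D.ces y) := by
    rw [hix, hie]
    intro h
    linarith
  have c2 : ¬ (D.cG0 x y).ix (other (mate ω) (D.go x y) (nN y x)) < (D.cG0 x y).ix (nN y x) := by
    rw [hix, q2]
    intro h
    linarith
  have hph : D.cph x y (other (mate ω) (D.go x y) (nN y x)) = 0 := by
    unfold cph Geo.pz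
    have sd : (D.cG0 x y).sd (other (mate ω) (D.go x y) (nN y x)) = Side.bot := rfl
    rw [if_pos sd]
    unfold Geo.b
    rw [if_neg c1, if_neg c2, sub_zero]
  have Z := S.lzz
  unfold Geo.LZZ at Z
  have c3 : ((D.cG0 x y).frz (nN y x)).b (other (mate ω) (D.go x y) (nN y x)) (D.ces y) = 0 := if_neg c1
  rw [ht_go, hc_go, hw_go, hph, H.th_n h1 le_rfl] at Z
  unfold Geo.B4 at Z
  have sd' : ((D.cG0 x y).frz (nN y x)).sd (other (mate ω) (D.go x y) (nN y x)) = Side.bot :=
    Geo.frz_sd hkz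
  rw [if_pos sd', c3] at Z
  linarith

/-- **closed strands** turn by four quarter turns and do not wind around `z` -/
theorem GoOk.loops {p : Half ZT} (hp : Closed (mate ω) (D.go x y) p) :
    (lhol (mate ω) (D.go x y) (fun h => tr ω (mate ω h)) (fun _ => 0) p = 4 ∨
      lhol (mate ω) (D.go x y) (fun h => tr ω (mate ω h)) (fun _ => 0) p = -4) ∧
    lhol (mate ω) (D.go x y) (fun _ => 0) (D.ccb x y) p = 0 := by
  have S := H.state ω
  have h1 := lhol_map (m := mate ω) (g := D.go x y) (a := fun h => ((0, aT ω h, 0) : ℤ × ℤ × ℤ))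
    (b := bcut x y D.l) F1 p
  have h2 := lhol_map (m := mate ω) (g := D.go x y) (a := fun h => ((0, aT ω h, 0) : ℤ × ℤ × ℤ))
    (b := bcut x y D.l) F2 p
  have h3 := lhol_map (m := mate ω) (g := D.go x y) (a := fun h => ((0, aT ω h, 0) : ℤ × ℤ × ℤ))
    (b := bcut x y D.l) F3 p
  have e1 : (fun h => F1 (bcut x y D.l h)) = fun _ => (0 : ℤ) := by
    funext h
    rw [bcut_eq]
    rfl
  have e2 : (fun h => F2 (bcut x y D.l h)) = fun _ => (0 : ℤ) := by
    funext h
    rw [bcut_eq]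
    rfl
  have e3 : (fun h => F3 (bcut x y D.l h)) = D.ccb x y := by
    funext h
    rw [bcut_eq]
    rfl
  rw [e1] at h1
  rw [e2] at h2
  rw [e3] at h3
  have h1' : (lhol (mate ω) (D.go x y) (fun h => ((0, aT ω h, 0) : ℤ × ℤ × ℤ)) (bcut x y D.l) p).1 = 0 :=
    h1.trans (hsum_const_zero _ _)
  have h2' : (lhol (mate ω) (D.go x y) (fun h => ((0, aT ω h, 0) : ℤ × ℤ × ℤ)) (bcut x y D.l) p).2.1 =
    lhol (mate ω) (D.go x y) (fun h => tr ω (mate ω h)) (fun _ => 0) p := h2
  have h3' : (lhol (mate ω) (D.go x y) (fun h => ((0, aT ω h, 0) : ℤ × ℤ × ℤ)) (bcut x y D.l) p).2.2 =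
    lhol (mate ω) (D.go x y) (fun _ => 0) (D.ccb x y) p := h3
  rw [← h2', ← h3']
  rcases S.loop p hp with h | h | h | h | h | h
  · rw [h]
    exact ⟨Or.inl rfl, rfl⟩
  · rw [h]
    exact ⟨Or.inr rfl, rfl⟩
  all_goals
    rw [h] at h1'
    simp at h1'

end

end Slab

end Full
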