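import Pool.Agent.Full.Loop.GoCut
import Pool.Agent.Full.Disc.SlabSC
import Pool.Agent.Full.Turn.SCcut

/-!
# The domain cut on the left of `z` is simply connected, flat and has no closed component

* `Slab.sc_gcut` : `(D.T y, D.gcut x y x)` is simply connected if the sheets have no holes;
* `Slab.flat_gcut`, `Slab.open_gcut`;
* `Slab.tconn_gcut` : it is connected if the two sheets are.
-/

set_option autoImplicit false
set_option linter.unusedSectionVars false

namespace Full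
open Function Relation Finset

namespace Slab
variable {D : Slab} {x y : ℤ}

/-- the corner function supported on the lower side of the cut -/
noncomputable def lcut (D : Slab) (x y : ℤ) (E : ℤ → ZMod 2) : Half ZT → ZMod 2
  | (.inl (i, j), .W) => if j = y - 1 ∧ D.l ≤ i ∧ i ≤ x then E i else 0
  | (.inl (i, j), .N) => if j = y - 1 ∧ D.l ≤ i ∧ i < x then E (i + 1) else 0
  | _ => 0

section
variable (h1 : D.l ≤ x) (h2 : x < D.r) (h3 : D.b < y) (h4 : y < D.t)
include h1 h2 h3 h4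

omit h1 h2 h3 h4 in
lemma opp_ne_self {τ : Type*} {s t : τ} {d : Dir} : ((s, d.opp) : Half τ) ≠ (t, d) := fun h =>
  Dir.opp_ne d (congrArg Prod.snd h)

/-- abscissa of a tile in its sheet -/
def cabs : ZT → ℤ
  | .inl p => p.1
  | .inr p => p.1

/-- possible moves of the cut domain -/
def CMv (D : Slab) (x y : ℤ) : ZT → Dir → ZT → Prop
  | .inl (i, j), .E, .inl (i', j') => i' = i + 1 ∧ j' = j
  | .inl (i, j), .W, .inl (i', j') => i' = i - 1 ∧ j' = j
  | .inl (i, j), .N, .inl (i', j') => i' = i ∧ j' = j + 1 ∧ ¬ (j = y - 1 ∧ D.l ≤ i ∧ i ≤ D.r)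
  | .inl (i, j), .N, .inr (i', j') => j = y - 1 ∧ x < i ∧ i ≤ D.r ∧ i' = i - 1 ∧ j' = y
  | .inl (i, j), .S, .inl (i', j') => i' = i ∧ j' = j - 1
  | .inr (i, j), .E, .inr (i', j') => i' = i + 1 ∧ j' = j
  | .inr (i, j), .W, .inr (i', j') => i' = i - 1 ∧ j' = j
  | .inr (i, j), .N, .inr (i', j') => i' = i ∧ j' = j + 1
  | .inr (i, j), .S, .inr (i', j') => i' = i ∧ j' = j - 1 ∧ ¬ (j = y ∧ D.l ≤ i ∧ i < D.r)
  | .inr (i, j), .S, .inl (i', j') => j = y ∧ x ≤ i ∧ i < D.r ∧ i' = i + 1 ∧ j' = y - 1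
  | _, _, _ => False

omit h3 h4 in
lemma gcut_mv {s : ZT} {d : Dir} (h : D.gcut x y x (s, d) ≠ (s, d)) :
    ∃ s', D.gcut x y x (s, d) = (s', d.opp) ∧ s ∈ D.T y ∧ s' ∈ D.T y ∧ CMv D x y s d s' := by
  have hc : ¬ D.InCut y x (s, d) := fun hc => h (gcut_cut hc)
  have hgo : D.gcut x y x (s, d) = D.go x y (s, d) := gcut_not hc
  rw [hgo] at h ⊢
  obtain ⟨s', g1, g2, g3⟩ := Surf.glue_ne_iff.1 h
  refine ⟨s', Surf.glue_of_mem g1 g2 g3, g2, g3, ?_⟩
  obtain ⟨i, j⟩ | ⟨i, j⟩ := s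
  · cases d with
    | E =>
      rw [zs_E_low_open (by omega), Option.mem_some_iff] at g1
      subst g1
      exact ⟨rfl, rfl⟩
    | N =>
      by_cases hj : j = y - 1 ∧ D.l ≤ i ∧ i ≤ D.r
      · obtain ⟨rfl, hj1, hj2⟩ := hj
        rcases lt_trichotomy i x with h5 | rfl | h5
        · exact absurd ⟨i, hj1, h5, Or.inr rfl⟩ hc
        · rw [zs_N_z hj1 hj2] at g1
          exact absurd g1 (by simp)
        · rw [zs_N_right (by omega) h5 hj2, Option.mem_some_iff] at g1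
          subst g1
          exact ⟨rfl, h5, hj2, rfl, rfl⟩
      · rw [zs_N_low hj, Option.mem_some_iff] at g1
        subst g1
        exact ⟨rfl, rfl, hj⟩
    | W =>
      have h5 : (Sum.inl (i - 1, j) : ZT) ∈ (zsurf D.l D.r x y y y).nb .W (Sum.inl (i, j)) := by
        rw [Surf.mem_nb]
        show _ ∈ (zsurf D.l D.r x y y y).nb .E (Sum.inl (i - 1, j))
        rw [zs_E_low_open (by omega), sub_add_cancel]
        rfl
      obtain rfl : s' = Sum.inl (i - 1, j) := by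
        rw [Option.mem_def] at h5 g1
        rw [g1] at h5
        exact Option.some.inj h5
      exact ⟨rfl, rfl⟩
    | S =>
      by_cases hj : j = y ∧ D.l ≤ i ∧ i ≤ D.r
      · exfalso
        have h6 : (zsurf D.l D.r x y y y).nb .S (Sum.inl (i, j)) = none := by
          show (if j = y ∧ D.l ≤ i ∧ i ≤ D.r then none else some (Sum.inl (i, j - 1))) = _
          rw [if_pos hj]
        rw [h6] at g1
        exact absurd g1 (by simp)
      · rw [zs_S_low hj, Option.mem_some_iff] at g1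
        subst g1
        exact ⟨rfl, rfl⟩
  · cases d with
    | E =>
      rw [zs_E_up_open (by omega), Option.mem_some_iff] at g1
      subst g1
      exact ⟨rfl, rfl⟩
    | N =>
      by_cases hj : j = y - 1 ∧ D.l ≤ i ∧ i < D.r
      · rw [zs_N_up_none hj] at g1
        exact absurd g1 (by simp)
      · rw [zs_N_up hj, Option.mem_some_iff] at g1
        subst g1
        exact ⟨rfl, rfl⟩
    | W =>
      have h5 : (Sum.inr (i - 1, j) : ZT) ∈ (zsurf D.l D.r x y y y).nb .W (Sum.inr (i, j)) := by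
        rw [Surf.mem_nb]
        show _ ∈ (zsurf D.l D.r x y y y).nb .E (Sum.inr (i - 1, j))
        rw [zs_E_up_open (by omega), sub_add_cancel]
        rfl
      obtain rfl : s' = Sum.inr (i - 1, j) := by
        rw [Option.mem_def] at h5 g1
        rw [g1] at h5
        exact Option.some.inj h5
      exact ⟨rfl, rfl⟩
    | S =>
      by_cases hj : j = y ∧ D.l ≤ i ∧ i < D.r
      · obtain ⟨rfl, hj1, hj2⟩ := hj
        rcases lt_or_ge i x with h5 | h5
        · exact absurd ⟨i, hj1, h5, Or.inl rfl⟩ hc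
        · rw [zs_S_right hj1 hj2 h5, Option.mem_some_iff] at g1
          subst g1
          exact ⟨rfl, h5, hj2, rfl, rfl⟩
      · rw [zs_S_up hj, Option.mem_some_iff] at g1
        subst g1
        exact ⟨rfl, rfl, hj⟩

/-- position of the tiles near the slab -/
def CNbh (D : Slab) (y : ℤ) : ZT → Prop
  | .inl (i, j) => D.l - 1 ≤ i → i ≤ D.r + 1 → D.b ≤ j → j ≤ D.t → D.l ≤ i ∧ i ≤ D.r ∧ j < y
  | .inr (i, j) => D.l - 1 ≤ i → i ≤ D.r → D.b - 1 ≤ j → j < D.t → D.l ≤ i ∧ i < D.r ∧ y ≤ j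

omit h1 h2 h3 h4 in
lemma nbh_of_mem {s : ZT} (hs : s ∈ D.T y) : CNbh D y s := by
  obtain ⟨i, j⟩ | ⟨i, j⟩ := s
  · intro k1 k2 k3 k4
    rcases mem_low.1 hs with h | h
    · exact absurd h (D.hL i j k1 k2 k3 k4)
    · exact ⟨h.1.1, h.1.2, h.2.2⟩
  · intro k1 k2 k3 k4
    rcases mem_up.1 hs with h | h
    · exact absurd h (D.hU i j k1 k2 k3 k4)
    · exact ⟨h.1.1, h.1.2, h.2.1⟩

omit h1 h2 h3 h4 in
lemma cmv_four (h1 : D.l ≤ x) (h2 : x < D.r) (h3 : D.b < y) (h4 : y < D.t)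
    {s0 s1 s2 s3 s4 : ZT} {d : Dir} (cm0 : CMv D x y s0 d s1) (m1 : CMv D x y s1 d.cw s2)
    (m2 : CMv D x y s2 d.cw.cw s3) (m3 : CMv D x y s3 d.cw.cw.cw s4)
    (n0 : CNbh D y s0) (n1 : CNbh D y s1) (n2 : CNbh D y s2) (n3 : CNbh D y s3) (n4 : CNbh D y s4) :
    s4 = s0 := by
  obtain ⟨i0, j0⟩ | ⟨i0, j0⟩ := s0 <;> obtain ⟨i1, j1⟩ | ⟨i1, j1⟩ := s1 <;>
    cases d <;> first | exact cm0.elim | skip
  all_goals obtain ⟨i2, j2⟩ | ⟨i2, j2⟩ := s2 <;> first | exact m1.elim | skip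
  all_goals obtain ⟨i3, j3⟩ | ⟨i3, j3⟩ := s3 <;> first | exact m2.elim | skip
  all_goals obtain ⟨i4, j4⟩ | ⟨i4, j4⟩ := s4 <;> first | exact m3.elim | skip
  all_goals
    simp only [CMv, Dir.cw, CNbh, Sum.inl.injEq, Sum.inr.injEq, Prod.mk.injEq, reduceCtorEq] at *
    omega

/-- inner corners of the cut domain are surrounded by four tiles -/
theorem flat_gcut : Turn.Flat (D.T y) (D.gcut x y x) := by
  intro z _ hk
  obtain ⟨s0, d⟩ := z
  have step : ∀ (s : ZT) (e : Dir), D.gcut x y x (s, e) ≠ (s, e) →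
      ∃ s', rot (D.gcut x y x) (s, e) = (s', e.cw) ∧ s ∈ D.T y ∧ s' ∈ D.T y ∧ CMv D x y s e s' := by
    intro s e h
    obtain ⟨s', k1, k2, k3, k4⟩ := gcut_mv h1 h2 h
    refine ⟨s', ?_, k2, k3, k4⟩
    unfold rot
    rw [k1]
    unfold rho
    rw [Dir.ccw_opp]
  obtain ⟨s1, r1, t0, t1, cm0⟩ := step s0 d (hk 0)
  have k1 := hk 1
  rw [iterate_one, r1] at k1
  obtain ⟨s2, r2, -, t2, m1⟩ := step s1 d.cw k1
  have k2 := hk 2
  rw [iterate_succ_apply', iterate_one, r1, r2] at k2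
  obtain ⟨s3, r3, -, t3, m2⟩ := step s2 d.cw.cw k2
  have k3 := hk 3
  rw [iterate_succ_apply', iterate_succ_apply', iterate_one, r1, r2, r3] at k3
  obtain ⟨s4, r4, -, t4, m3⟩ := step s3 d.cw.cw.cw k3
  have e := cmv_four h1 h2 h3 h4 cm0 m1 m2 m3 (nbh_of_mem t0) (nbh_of_mem t1) (nbh_of_mem t2)
    (nbh_of_mem t3) (nbh_of_mem t4)
  rw [iterate_succ_apply', iterate_succ_apply', iterate_succ_apply', iterate_one, r1, r2, r3, r4, e]
  cases d <;> rfl

omit h3 h4 in
/-- no closed component -/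
theorem open_gcut : Turn.Open (D.T y) (D.gcut x y x) := by
  have sE : ∀ (t : ZT) (d : Dir), Turn.Reach (D.gcut x y x) (t, d) (t, .E) := by
    intro t d
    have s : ∀ h : Half ZT, Turn.Reach (D.gcut x y x) h (rho h) := fun h =>
      ReflTransGen.single (Or.inl rfl)
    cases d
    · exact ReflTransGen.refl
    · exact ((s (t, .N)).trans (s (t, .W))).trans (s (t, .S))
    · exact (s (t, .W)).trans (s (t, .S))
    · exact s (t, .S)
  -- abscissae are bounded
  have hb : ∃ M : ℤ, ∀ t ∈ D.T y, cabs t ≤ M := by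
    obtain ⟨M, hM⟩ := ((D.T y).image cabs).bddAbove
    exact ⟨M, fun t ht => hM (by
      rw [Finset.coe_image]
      exact ⟨t, ht, rfl⟩)⟩
  obtain ⟨M, hM⟩ := hb
  have key : ∀ (n : ℕ) (t : ZT), t ∈ D.T y → M - cabs t ≤ n → ∃ w, Turn.Reach (D.gcut x y x) (t, .E) w ∧ D.gcut x y x w = w := by
    intro n
    induction n with
    | zero =>
      intro t ht hn
      refine ⟨(t, .E), ReflTransGen.refl, ?_⟩
      by_contra hne
      obtain ⟨s', k1, k2, k3, k4⟩ := gcut_mv h1 h2 hne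
      have := hM s' k3
      obtain ⟨i, j⟩ | ⟨i, j⟩ := t <;> obtain ⟨i', j'⟩ | ⟨i', j'⟩ := s' <;>
        simp only [CMv, cabs] at k4 this hn <;> push_cast at hn <;> omega
    | succ n ih =>
      intro t ht hn
      by_cases hg : D.gcut x y x (t, .E) = (t, .E)
      · exact ⟨_, ReflTransGen.refl, hg⟩
      · obtain ⟨s', k1, k2, k3, k4⟩ := gcut_mv h1 h2 hg
        have h5 : M - cabs s' ≤ n := by
          obtain ⟨i, j⟩ | ⟨i, j⟩ := t <;> obtain ⟨i', j'⟩ | ⟨i', j'⟩ := s' <;>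
            simp only [CMv, cabs] at k4 hn ⊢ <;> push_cast at hn <;> omega
        obtain ⟨w, w1, w2⟩ := ih s' k3 h5
        refine ⟨w, ?_, w2⟩
        have e1 : Turn.Reach (D.gcut x y x) (t, .E) (s', Dir.E.opp) :=
          ReflTransGen.single (Or.inr k1.symm)
        exact (e1.trans (sE s' _)).trans w1
  rintro ⟨t, d⟩ ht
  obtain ⟨w, w1, w2⟩ := key (M - cabs t).toNat t ht (by omega)
  exact ⟨w, (sE t d).trans w1, w2⟩

lemma corner_lcut (E : ℤ → ZMod 2) : Corner (D.gcut x y x) (lcut D x y E) := by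
  rintro ⟨s, d⟩ h
  obtain ⟨s', k1, k2, k3, k4⟩ := gcut_mv h1 h2 h
  rw [k1]
  have n0 := nbh_of_mem k2
  have n1 := nbh_of_mem k3
  obtain ⟨i, j⟩ | ⟨i, j⟩ := s <;> obtain ⟨i', j'⟩ | ⟨i', j'⟩ := s' <;> cases d <;>
    first | exact k4.elim | skip
  all_goals simp only [CMv, CNbh, rho, Dir.ccw, Dir.opp, lcut] at *
  · obtain ⟨rfl, rfl⟩ := k4
    have : (j' = y - 1 ∧ D.l ≤ i + 1 ∧ i + 1 ≤ x) ↔ (j' = y - 1 ∧ D.l ≤ i ∧ i < x) := by
      constructor <;> intro q <;> omega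
    simp only [this]
  · rw [if_neg (by omega)]
  · rw [if_neg (by omega)]
  · rw [if_neg (by omega)]
  · rw [if_neg (by omega)]

/-- the cut domain is simply connected -/
theorem sc_gcut (hL : Disc.NoHole (D.TL y : Set (ℤ × ℤ))) (hU : Disc.NoHole (D.TU y : Set (ℤ × ℤ))) :
    SC (D.T y) (D.gcut x y x) := by
  intro χ c1 c2
  obtain ⟨G, -, hG⟩ := Disc.prim fun i => χ (nN y i) + χ (sN y i)
  set E : ℤ → ZMod 2 := fun i => G i + G x + χ (nN y x) with hE
  have hco := corner_lcut (D := D) h1 h2 h3 h4 E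
  set e := lcut D x y E with he
  have hT : ∀ i, D.l ≤ i → i < x → e (rho (nN y i)) + e (nN y i) = χ (nN y i) + χ (sN y i) := by
    intro i hi hix
    have e1 : e (rho (nN y i)) = E i := by
      show (if y - 1 = y - 1 ∧ D.l ≤ i ∧ i ≤ x then E i else 0) = _
      rw [if_pos ⟨rfl, hi, hix.le⟩]
    have e2 : e (nN y i) = E (i + 1) := by
      show (if y - 1 = y - 1 ∧ D.l ≤ i ∧ i < x then E (i + 1) else 0) = _
      rw [if_pos ⟨rfl, hi, hix⟩]
    rw [e1, e2]
    simp only [hE]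
    rw [hG]
    have a1 := CharTwo.add_self_eq_zero (G i)
    have a2 := CharTwo.add_self_eq_zero (G x)
    have a3 := CharTwo.add_self_eq_zero (χ (nN y x))
    linear_combination a1 + a2 + a3
  have hS : ∀ i, e (rho (sN y i)) + e (sN y i) = 0 := fun i => by
    show (0 : ZMod 2) + 0 = 0
    rw [add_zero]
  have hz : e (rho (z x y)) + e (z x y) = χ (z x y) := by
    have e1 : e (rho (z x y)) = E x := by
      show (if y - 1 = y - 1 ∧ D.l ≤ x ∧ x ≤ x then E x else 0) = _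
      rw [if_pos ⟨rfl, h1, le_rfl⟩]
    have e2 : e (z x y) = 0 := by
      show (if y - 1 = y - 1 ∧ D.l ≤ x ∧ x < x then E (x + 1) else 0) = _
      rw [if_neg (by omega)]
    rw [e1, e2]
    simp only [hE]
    have a2 := CharTwo.add_self_eq_zero (G x)
    have a3 : χ (nN y x) = χ (z x y) := rfl
    rw [a3]
    linear_combination a2
  obtain ⟨c, k1, k2⟩ := scz_go hL hU h3 h4 h1 h2.le (fun h => χ h + (e (rho h) + e h)) (by
    intro h
    show χ (D.go x y h) + (e (rho (D.go x y h)) + e (D.go x y h)) = χ h + (e (rho h) + e h)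
    by_cases hc : D.InCut y x h
    · obtain ⟨i, i1, i2, rfl | rfl⟩ := hc
      · rw [go_sN h2 h3 h4 i1 i2, hT i i1 i2, hS]
        have a1 := CharTwo.add_self_eq_zero (χ (nN y i))
        linear_combination a1
      · rw [go_nN h2 h3 h4 i1 i2, hT i i1 i2, hS]
        have a1 := CharTwo.add_self_eq_zero (χ (nN y i))
        linear_combination -a1
    · have g1 : D.gcut x y x h = D.go x y h := gcut_not hc
      rw [← g1, c1, Turn.cob_inv (glu_gcut (D := D) h2 h3 h4 le_rfl).inv hco]) (by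
    intro t ht
    show ∑ d, (χ (t, d) + (e (rho (t, d)) + e (t, d))) = 0
    rw [Finset.sum_add_distrib, c2 t ht, Turn.cob_sum, add_zero]) (by
    show χ (z x y) + (e (rho (z x y)) + e (z x y)) = 0
    rw [hz]
    exact CharTwo.add_self_eq_zero _)
  refine ⟨fun h => c h + e h, fun h hh => ?_, fun h hh => ?_⟩
  · have hc : ¬ D.InCut y x h := fun hc => hh (gcut_cut hc)
    have h5 := hco h hh
    have h6 : c (D.gcut x y x h) = c (rho h) := by
      rw [gcut_not hc] at hh ⊢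
      exact k1 h hh
    show c (D.gcut x y x h) + e (D.gcut x y x h) = c (rho h) + e (rho h)
    rw [h5, h6]
  · show c (rho h) + e (rho h) = c h + e h + χ h
    rw [k2 h hh]
    have a1 := CharTwo.add_self_eq_zero (e (rho h))
    linear_combination a1

omit h1 in
lemma ext_gcut : Ext (D.T y) (D.g0 y) (D.gcut x y x) := by
  have hx := ext_go (D := D) (x := x) h3.le h4.le
  refine ⟨glu_gcut h2 h3 h4 le_rfl, fun h h5 => ?_⟩
  have hc : ¬ D.InCut y x h := by
    rintro ⟨i, i1, i2, rfl | rfl⟩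
    · apply h5
      show D.g0 y (.inr (i, y), .S) = (.inr (i, y), .S)
      have e : ((i, y) : ℤ × ℤ) + Dir.S.vec = (i, y - 1) := by
        ext <;> simp [Dir.vec, sub_eq_add_neg]
      rw [g0_up, e, if_neg fun q => notMem_TU h3.le h4.le (by omega) (by omega) q.2]
    · apply h5
      show D.g0 y (.inl (i, y - 1), .N) = (.inl (i, y - 1), .N)
      have e : ((i, y - 1) : ℤ × ℤ) + Dir.N.vec = (i, y) := by ext <;> simp [Dir.vec]
      rw [g0_low, e, if_neg fun q => notMem_TL h3.le h4.le (by omega) (by omega) q.2]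
  rw [gcut_not hc]
  exact hx.ext h h5

omit h1 h2 h3 h4 in
lemma tconn_ext {τ : Type*} {T : Finset τ} {g g' : Half τ → Half τ} (h : Ext T g g') {a b : τ}
    (hc : TConn T g a b) : TConn T g' a b := by
  induction hc with
  | refl => exact ReflTransGen.refl
  | @tail b c _ h2 ih =>
    obtain ⟨z, rfl, hz, rfl⟩ := h2
    by_cases hz' : g z = z
    · rw [hz']
      exact ih
    · exact ih.tail ⟨z, rfl, hz, by rw [h.ext z hz']⟩

/-- the cut domain is connected -/
theorem tconn_gcut (cL : ∀ s ∈ D.TL y, ∀ t ∈ D.TL y, TConn (D.TL y) (plane.glue (D.TL y)) s t)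
    (cU : ∀ s ∈ D.TU y, ∀ t ∈ D.TU y, TConn (D.TU y) (plane.glue (D.TU y)) s t) :
    ∀ s ∈ D.T y, ∀ t ∈ D.T y, TConn (D.T y) (D.gcut x y x) s t := by
  have hE := ext_gcut (D := D) h2 h3 h4
  have hG : Glu (D.T y) (D.gcut x y x) := glu_gcut h2 h3 h4 le_rfl
  have kL : ∀ s t, TConn (D.TL y) (plane.glue (D.TL y)) s t → TConn (D.T y) (D.g0 y) (.inl s) (.inl t) := by
    intro s t h
    induction h with
    | refl => exact ReflTransGen.refl
    | @tail b c _ h2 ih =>
      obtain ⟨z, rfl, hz, rfl⟩ := h2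
      exact ih.tail ⟨(.inl z.1, z.2), rfl, inl_mem.2 hz, rfl⟩
  have kU : ∀ s t, TConn (D.TU y) (plane.glue (D.TU y)) s t → TConn (D.T y) (D.g0 y) (.inr s) (.inr t) := by
    intro s t h
    induction h with
    | refl => exact ReflTransGen.refl
    | @tail b c _ h2 ih =>
      obtain ⟨z, rfl, hz, rfl⟩ := h2
      exact ih.tail ⟨(.inr z.1, z.2), rfl, inr_mem.2 hz, rfl⟩
  have m1 : (x, y) ∈ D.TU y := mem_TU_row h4 h1 h2
  have m2 : (x + 1, y - 1) ∈ D.TL y := mem_TL_row h3 (by omega) (by omega)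
  have link : TConn (D.T y) (D.gcut x y x) (.inr (x, y)) (.inl (x + 1, y - 1)) := by
    have := hG.tconn_glue (sN y x)
    rwa [gcut_up_S h2 h3 h4 le_rfl h1 h2 le_rfl] at this
  have base : ∀ s ∈ D.T y, TConn (D.T y) (D.gcut x y x) s (.inr (x, y)) := by
    rintro (s | s) hs
    · exact (tconn_ext hE (kL _ _ (cL s (inl_mem.1 hs) _ m2))).trans (hG.tconn_symm link)
    · exact tconn_ext hE (kU _ _ (cU s (inr_mem.1 hs) _ m1))
  exact fun s hs t ht => (base s hs).trans (hG.tconn_symm (base t ht))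

end

end Slab

end Full
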