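import Pool.Agent.Full.Loop.GoLab
import Pool.Agent.Full.X3.Int
import Pool.Agent.Full.Dict3.Zline

/-!
# The law of the strands in terms of integer holonomies

`lq` is the phase of the line on the left of `z` (`-4` on the half edges of `lside`).
-/

set_option autoImplicit false
set_option linter.unusedSectionVars false

namespace Full
open Function Relation Finset Full.Loop

/-- turning of a walk as a holonomy -/
lemma Loop.hsum_tn {τ : Type*} [DecidableEq τ] {g : Half τ → Half τ} (ω : Finset τ) (n : ℕ) (e : Half τ) :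
    hsum (mate ω) g (fun h => tr ω (mate ω h)) (fun _ => 0) n e = X3.tn g ω n e := by
  unfold hsum X3.tn
  exact Finset.sum_congr rfl fun k _ => add_zero _

/-- link terms of a walk as a holonomy -/
lemma Loop.hsum_ln {τ : Type*} [DecidableEq τ] {g : Half τ → Half τ} (ω : Finset τ) (c : Half τ → ℤ)
    (n : ℕ) (e : Half τ) : hsum (mate ω) g (fun _ => 0) c n e = X3.ln c g ω n e := by
  unfold hsum X3.ln
  exact Finset.sum_congr rfl fun k _ => zero_add _

lemma Loop.ln_mul {τ : Type*} [DecidableEq τ] {g : Half τ → Half τ} (ω : Finset τ) (c : Half τ → ℤ)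
    (a : ℤ) (n : ℕ) (e : Half τ) : X3.ln (fun h => a * c h) g ω n e = a * X3.ln c g ω n e := by
  unfold X3.ln
  rw [Finset.mul_sum]

namespace Slab
variable {D : Slab} {x y : ℤ}

/-- the phase of the line on the left of `z` -/
def lq (D : Slab) (x y : ℤ) (h : Half ZT) : ℤ := if lside D.l x y h = true then -4 else 0

lemma lside_iff {h : Half ZT} : lside D.l x y h = true ↔ ∃ i, D.l ≤ i ∧ i < x ∧ h = sN y i := by
  obtain ⟨⟨i, j⟩ | ⟨i, j⟩, d⟩ := h
  · constructor
    · intro h
      exact absurd h (by cases d <;> simp [lside])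
    · rintro ⟨k, -, -, h⟩
      unfold sN at h
      simp at h
  · cases d
    case S =>
      unfold lside sN
      rw [decide_eq_true_iff]
      constructor
      · rintro ⟨rfl, h1, h2⟩
        exact ⟨i, h1, h2, rfl⟩
      · rintro ⟨k, h1, h2, h⟩
        simp only [Prod.mk.injEq, Sum.inr.injEq, and_true] at h
        obtain ⟨rfl, rfl⟩ := h
        exact ⟨rfl, h1, h2⟩
    all_goals
      constructor
      · intro h
        exact absurd h (by simp [lside])
      · rintro ⟨k, -, -, h⟩
        unfold sN at h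
        simp at h

section
variable (H : GoOk D x y)
include H

/-- the link terms of the line count the crossings of the string four times -/
lemma GoOk.lq_link (h : Half ZT) : D.lq x y h - D.lq x y (D.go x y h) = 4 * D.ccb x y h := by
  have h2 := H.xr
  have h3 := H.by'
  have h4 := H.yt
  have s1 : ∀ i, D.l ≤ i → i < x → D.lq x y (sN y i) = -4 := fun i hi hix =>
    if_pos (lside_iff.2 ⟨i, hi, hix, rfl⟩)
  have s2 : ∀ i, D.lq x y (nN y i) = 0 := fun i => if_neg (fun h => by
    obtain ⟨k, -, -, h⟩ := lside_iff.1 h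
    exact sN_ne_nN h.symm)
  by_cases hc : ∃ i, D.l ≤ i ∧ i < x ∧ h = nN y i
  · obtain ⟨i, hi, hix, rfl⟩ := hc
    rw [go_nN h2 h3 h4 hi hix, s1 i hi hix, s2, ccb_nN hi hix]
    norm_num
  · by_cases hc' : ∃ i, D.l ≤ i ∧ i < x ∧ h = sN y i
    · obtain ⟨i, hi, hix, rfl⟩ := hc'
      rw [go_sN h2 h3 h4 hi hix, s1 i hi hix, s2, ccb_sN hi hix]
      norm_num
    · have e1 : D.ccb x y h = 0 := by
        unfold ccb
        rw [if_neg hc, if_neg hc']
      have e2 : D.lq x y h = 0 := if_neg fun h' => hc' (lside_iff.1 h')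
      have e3 : D.lq x y (D.go x y h) = 0 := if_neg fun h' => by
        obtain ⟨i, hi, hix, h5⟩ := lside_iff.1 h'
        apply hc
        refine ⟨i, hi, hix, ?_⟩
        rw [← go_sN h2 h3 h4 hi hix, ← h5, (glu_go (D := D)).inv]
      rw [e1, e2, e3]
      norm_num

variable {ω : Finset ZT}

omit H in
lemma tn_gtn (e : Half ZT) :
    X3.tn (D.go x y) ω (hl (mate ω) (D.go x y) e) e = D.gtn x y ω e := (hsum_tn ω _ e).symm

lemma GoOk.ln_gcr (e : Half ZT) :
    X3.ln (fun h => D.lq x y h - D.lq x y (D.go x y h)) (D.go x y) ω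
      (hl (mate ω) (D.go x y) e) e = 4 * D.gcr x y ω e := by
  have : (fun h => D.lq x y h - D.lq x y (D.go x y h)) = fun h => 4 * D.ccb x y h :=
    funext H.lq_link
  rw [this, ln_mul, ← hsum_ln]
  rfl

/-- **arcs** -/
theorem GoOk.zarc {e : Half ZT} (he : Bd (D.T y) (D.go x y) e) (hz : e ≠ nN y x)
    (ho : other (mate ω) (D.go x y) e ≠ nN y x)
    (hlt : D.gpos x y e < D.gpos x y (other (mate ω) (D.go x y) e)) :
    X3.tn (D.go x y) ω (hl (mate ω) (D.go x y) e) e +
      X3.ln (fun h => D.lq x y h - D.lq x y (D.go x y h)) (D.go x y) ω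
        (hl (mate ω) (D.go x y) e) e =
      D.cth x y (other (mate ω) (D.go x y) e) - D.cth x y e - 2 +
        4 * if D.gpos x y e < D.gpos x y (other (mate ω) (D.go x y) (nN y x)) ∧
          D.gpos x y (other (mate ω) (D.go x y) (nN y x)) < D.gpos x y (other (mate ω) (D.go x y) e)
          then 1 else 0 := by
  rw [tn_gtn, H.ln_gcr, (H.arc he hz ho hlt).1, (H.arc he hz ho hlt).2]

/-- **the strand of `z`** -/
theorem GoOk.zstrand_z :
    X3.tn (D.go x y) ω (hl (mate ω) (D.go x y) (nN y x)) (nN y x) +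
      X3.ln (fun h => D.lq x y h - D.lq x y (D.go x y h)) (D.go x y) ω
        (hl (mate ω) (D.go x y) (nN y x)) (nN y x) =
      D.cth x y (other (mate ω) (D.go x y) (nN y x)) := by
  rw [tn_gtn, H.ln_gcr, H.strand_z]

/-- **closed strands** -/
theorem GoOk.zloops {p : Half ZT} (hp : Closed (mate ω) (D.go x y) p) :
    (X3.tn (D.go x y) ω (minimalPeriod (D.go x y ∘ mate ω) p) p = 4 ∨
      X3.tn (D.go x y) ω (minimalPeriod (D.go x y ∘ mate ω) p) p = -4) ∧
    X3.ln (fun h => D.lq x y h - D.lq x y (D.go x y h)) (D.go x y) ω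
      (minimalPeriod (D.go x y ∘ mate ω) p) p = 0 := by
  obtain ⟨h1, h2⟩ := H.loops hp
  have : (fun h => D.lq x y h - D.lq x y (D.go x y h)) = fun h => 4 * D.ccb x y h :=
    funext H.lq_link
  rw [this, ln_mul, ← hsum_ln, ← hsum_tn]
  refine ⟨h1, ?_⟩
  have h3 : hsum (mate ω) (D.go x y) (fun _ => 0) (D.ccb x y)
    (minimalPeriod (D.go x y ∘ mate ω) p) p = 0 := h2
  rw [h3]
  rfl

/-- the integer holonomy with the phase of the line -/
theorem GoOk.zh_lq {e : Half ZT} (he : Bd (D.T y) (D.go x y) e) :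
    X3.zh (D.lq x y) (D.go x y) ω e = D.gtn x y ω e + 4 * D.gcr x y ω e := by
  have h2 := H.xr
  have h3 := H.by'
  have h4 := H.yt
  have hG : Glu (D.T y) (D.go x y) := glu_go
  have key : ∀ n (p : Half ZT), X3.zn (D.lq x y) (D.go x y) ω n p =
      X3.tn (D.go x y) ω n p + X3.ln (fun h => D.lq x y h - D.lq x y (D.go x y h)) (D.go x y) ω n p +
        D.lq x y ((D.go x y ∘ mate ω)^[n] p) - D.lq x y p := by
    intro n p
    induction n with
    | zero => simp [X3.zn, X3.tn, X3.ln]
    | succ n ih =>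
      unfold X3.zn X3.tn X3.ln at ih ⊢
      rw [Finset.sum_range_succ, Finset.sum_range_succ, Finset.sum_range_succ, ih,
        iterate_succ_apply']
      have : (D.go x y ∘ mate ω) ((D.go x y ∘ mate ω)^[n] p) =
        D.go x y (mate ω ((D.go x y ∘ mate ω)^[n] p)) := rfl
      rw [this]
      ring
  have z : ∀ p, Bd (D.T y) (D.go x y) p → D.lq x y p = 0 := by
    intro p hp
    refine if_neg fun h => ?_
    obtain ⟨i, hi, hix, rfl⟩ := lside_iff.1 h
    have := hp.2
    rw [go_sN h2 h3 h4 hi hix] at this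
    exact sN_ne_nN this.symm
  unfold X3.zh
  rw [key, tn_gtn, H.ln_gcr, z e he]
  have h5 : D.lq x y ((D.go x y ∘ mate ω)^[hl (mate ω) (D.go x y) e] e) = 0 := z _ (hG.other_bd he)
  rw [h5]
  ring

end

end Slab

end Full
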