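import Pool.Agent.Full.Loop.GoChain

/-!
# The state of the domain with the interior end `z`

`Slab.GoOk.asz` : the strands of `(D.T y, D.go x y)` with the string of `z` (the links of the line `y` on
the left of `z`) are a state with the puncture `z`.
-/

set_option autoImplicit false
set_option linter.unusedSectionVars false

namespace Full.Loop
open Function Relation Finset

/-- neighbours on the bottom line -/
lemma Nr_bot {α : Type*} {G : Geo α} {Y : Finset α} {x y : α} (hx : G.sd x = Side.bot)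
    (hy : G.sd y = Side.bot) (hlt : G.ix x < G.ix y)
    (hbt : ∀ p ∈ Y, G.sd p = Side.bot → p ≠ x → p ≠ y → G.ix p < G.ix x ∨ G.ix y < G.ix p) :
    G.Nr Y x y 0 := by
  have nx : G.nz x := by unfold Geo.nz; rw [hx]; decide
  have ny : G.nz y := by unfold Geo.nz; rw [hy]; decide
  have hu : ∀ p q k, G.u p q k = G.D p q * (if G.lt p q k then 1 else 0) := fun p q k => G.u_eq p q k
  have lt1 : ∀ p ∈ Y, G.sd p = Side.bot → ∀ k, ¬(p = x ∧ k = 0) → ¬(p = y ∧ k = 0) →
      (G.lt x p k ↔ G.lt y p k) := by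
    intro p hp hs k h1 h2
    unfold Geo.lt
    rcases lt_trichotomy k 0 with hk | hk | hk
    · simp only [hk.ne, false_and, or_false]
    · subst hk
      have p1 : p ≠ x := fun h => h1 ⟨h, rfl⟩
      have p2 : p ≠ y := fun h => h2 ⟨h, rfl⟩
      rcases hbt p hp hs p1 p2 with h | h
      · have a1 : ¬ G.ix x < G.ix p := not_lt.mpr h.le
        have a2 : ¬ G.ix y < G.ix p := not_lt.mpr (h.trans hlt).le
        simp [a1, a2]
      · have a1 : G.ix x < G.ix p := hlt.trans h
        simp [a1, h]
    · simp only [hk, true_or]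
  have lt2 : ∀ p ∈ Y, G.sd p = Side.bot → ∀ k, ¬(p = x ∧ k = 0) → ¬(p = y ∧ k = 0) →
      (G.lt p x (-k) ↔ G.lt p y (0 - k)) := by
    intro p hp hs k h1 h2
    rw [zero_sub]
    unfold Geo.lt
    rcases lt_trichotomy k 0 with hk | hk | hk
    · have : 0 < -k := by omega
      simp only [this, true_or]
    · subst hk
      have p1 : p ≠ x := fun h => h1 ⟨h, rfl⟩
      have p2 : p ≠ y := fun h => h2 ⟨h, rfl⟩
      rcases hbt p hp hs p1 p2 with h | h
      · have a1 : G.ix p < G.ix y := h.trans hlt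
        simp [a1, h]
      · have a1 : ¬ G.ix p < G.ix y := not_lt.mpr h.le
        have a2 : ¬ G.ix p < G.ix x := not_lt.mpr (hlt.trans h).le
        simp [a1, a2]
    · have : ¬ (0 < -k) := by omega
      have h3 : ¬ (-k = 0) := by omega
      simp only [this, h3, false_and, or_false]
  refine ⟨⟨nx, ny, ?_, ?_⟩, hy.trans hx.symm, Or.inr ⟨rfl, hlt⟩, ?_, ?_, ?_⟩
  · intro p hp k h1 h2
    rw [hu, hu, sub_zero]
    by_cases hs : G.sd p = Side.bot
    · rw [Geo.D_bot hx hs, Geo.D_bot hy hs]
      simp only [lt1 p hp hs k h1 h2]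
    · rw [Geo.D_ne (by rw [hx]; exact Ne.symm hs), Geo.D_ne (by rw [hy]; exact Ne.symm hs)]
      ring
  · intro p hp k h1 h2
    rw [hu, hu]
    by_cases hs : G.sd p = Side.bot
    · rw [Geo.D_bot hs hx, Geo.D_bot hs hy]
      simp only [lt2 p hp hs k h1 h2]
    · rw [Geo.D_ne (by rw [hx]; exact hs), Geo.D_ne (by rw [hy]; exact hs)]
      ring
  · rintro (h | ⟨-, h⟩)
    · simp at h
    · exact absurd h (not_lt.mpr hlt.le)
  · unfold Geo.b
    rw [if_pos hlt, zero_add]
  · unfold Geo.b
    rw [if_neg (not_lt.mpr hlt.le)]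

end Full.Loop

namespace Full
open Function Relation Finset Full.Loop

namespace Slab
variable {D : Slab} {x y : ℤ}

/-- the end of the string -/
def ces (D : Slab) (y : ℤ) : Half ZT := (Sum.inl (D.l - 1, y - 1), Dir.E)

/-- positions, with the end of the string -/
noncomputable def cP (D : Slab) (x y : ℤ) (e : Half ZT) : ℚ :=
  if e = D.ces y then (D.cm0 x : ℚ) - 1 / 2 else D.cps x y e

/-- the positions of the ends -/
noncomputable def cG0 (D : Slab) (x y : ℤ) : Geo (Half ZT) := ⟨fun _ => Side.bot, D.cP x y⟩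

section
variable (H : GoOk D x y)
include H

lemma GoOk.es_out : (D.ces y).1 ∉ D.T y := by
  have h1 := H.lx
  have h2 := H.xr
  have h3 := H.by'
  have h4 := H.yt
  intro h
  rcases mem_low.1 h with h | h
  · exact D.hL _ _ le_rfl (by omega) (by omega) (by omega) h
  · omega

lemma GoOk.P_eq {e : Half ZT} (he : e.1 ∈ D.T y) : D.cP x y e = D.cps x y e := by
  unfold cP
  rw [if_neg]
  rintro rfl
  exact H.es_out he

/-- the cut domain -/
theorem GoOk.as0 (ω : Finset ZT) :
    AS0 (mate ω) (D.gcut x y x) (fun h => ((0, aT ω h, 0) : ℤ × ℤ × ℤ)) (fun _ => 0) (D.cG0 x y)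
      (bds (D.T y) (D.gcut x y x)) (D.cth x y) :=
  good_AS0 H.good H.conn H.bd0 ω (D.cP x y) (fun e he => H.P_eq he.1) (D.cth x y)
    (-Turn.lb (D.gcut x y x) (D.cch x y 0) (D.cpz x) - 2) (fun e he => by
      unfold cth
      have : D.cps x y e = bpos (D.gcut x y x) (D.cch x y 0) e := rfl
      rw [this]
      ring)

/-- potential of the string -/
noncomputable def cph (D : Slab) (x y : ℤ) : Half ZT → ℤ := (D.cG0 x y).pz (nN y x) (D.ces y)

/-- freeing `z` -/
theorem GoOk.asz_x (ω : Finset ZT) :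
    ASZ (mate ω) (D.gcut x y x) (fun h => ((0, aT ω h, 0) : ℤ × ℤ × ℤ)) (fun _ => 0)
      ((D.cG0 x y).frz (nN y x)) (bds (D.T y) (D.gcut x y x)) (D.cth x y) (D.cph x y) (nN y x) (D.ces y) := by
  refine (H.as0 ω).frz ?_ rfl rfl ?_
  · have h1 := H.lx
    have e : nN y x = D.cch x y (x - D.l).toNat := by
      rw [cch_n (by omega)]
      congr 1
      omega
    rw [e]
    exact mem_bds.2 (H.bd_ch (by omega))
  · intro h
    exact H.es_out (mem_bds.1 h).1

lemma GoOk.bds_gcut {c : ℤ} (hc : D.l ≤ c) (hcx : c < x) :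
    ((bds (D.T y) (D.gcut x y (c + 1))).erase (sN y c)).erase (nN y c) = bds (D.T y) (D.gcut x y c) := by
  have h2 := H.xr
  have h3 := H.by'
  have h4 := H.yt
  have g1 : D.gcut x y (c + 1) (sN y c) = sN y c := gcut_cut ⟨c, hc, by omega, Or.inl rfl⟩
  have g2 : D.gcut x y (c + 1) (nN y c) = nN y c := gcut_cut ⟨c, hc, by omega, Or.inr rfl⟩
  have ht := tie_gcut (D := D) (x := x) (y := y) h2 h3 h4 hc hcx
  ext e
  rw [Finset.mem_erase, Finset.mem_erase, mem_bds, mem_bds, ← ht]
  unfold Bd
  rw [tie_fix g1 g2 sN_ne_nN]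
  tauto

/-- **the state of the domain with the interior end** -/
theorem GoOk.asz (ω : Finset ZT) (k : ℕ) : ∀ c : ℤ, D.l ≤ c → c + k = x →
    ASZ (mate ω) (D.gcut x y c) (fun h => ((0, aT ω h, 0) : ℤ × ℤ × ℤ)) (bcut x y c)
      ((D.cG0 x y).frz (nN y x)) (bds (D.T y) (D.gcut x y c)) (D.cth x y) (D.cph x y) (nN y x) (D.ces y) := by
  have h1 := H.lx
  have h2 := H.xr
  have h3 := H.by'
  have h4 := H.yt
  induction k with
  | zero =>
    intro c hc hk
    have : c = x := by push_cast at hk; omega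
    subst this
    rw [bcut_x]
    exact H.asz_x ω
  | succ k ih =>
    intro c hc hk
    push_cast at hk
    have S := ih (c + 1) (by omega) (by omega)
    have hcx : c < x := by omega
    have ht := tie_gcut (D := D) (x := x) (y := y) h2 h3 h4 hc hcx
    have hG := glu_gcut (D := D) (x := x) (y := y) (c := c + 1) h2 h3 h4 (by omega)
    have g1 : D.gcut x y (c + 1) (sN y c) = sN y c := gcut_cut ⟨c, hc, by omega, Or.inl rfl⟩
    have g2 : D.gcut x y (c + 1) (nN y c) = nN y c := gcut_cut ⟨c, hc, by omega, Or.inr rfl⟩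
    have m1 : sN y c ∈ bds (D.T y) (D.gcut x y (c + 1)) :=
      mem_bds.2 ⟨mem_up.2 (Or.inr ⟨⟨by omega, by omega⟩, le_rfl, h4⟩), g1⟩
    have m2 : nN y c ∈ bds (D.T y) (D.gcut x y (c + 1)) :=
      mem_bds.2 ⟨mem_low.2 (Or.inr ⟨⟨by omega, by omega⟩, by omega, by omega⟩), g2⟩
    have sz : sN y c ≠ nN y x := sN_ne_nN
    have nz : nN y c ≠ nN y x := fun h => by
      have := nN_inj h
      omega
    have ps1 : D.cP x y (sN y c) = ((c - D.l).toNat : ℚ) := by
      rw [H.P_eq (mem_bds.1 m1).1, H.ps_s hc hcx]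
    have ps2 : D.cP x y (nN y c) = ((2 * x - D.l - c).toNat : ℚ) := by
      rw [H.P_eq (mem_bds.1 m2).1, H.ps_n hc hcx.le]
    have psz : D.cP x y (nN y x) = ((x - D.l).toNat : ℚ) := by
      rw [H.P_eq (mem_low.2 (Or.inr ⟨⟨by omega, by omega⟩, by omega, by omega⟩)), H.ps_n h1 le_rfl]
      congr 2
      ring
    have pse : D.cP x y (D.ces y) = (D.cm0 x : ℚ) - 1 / 2 := if_pos rfl
    have q1 : D.cP x y (sN y c) < D.cP x y (nN y x) := by
      rw [ps1, psz, Nat.cast_lt]
      omega
    have q2 : D.cP x y (nN y x) < D.cP x y (nN y c) := by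
      rw [ps2, psz, Nat.cast_lt]
      omega
    have q3 : D.cP x y (nN y c) < D.cP x y (D.ces y) := by
      rw [ps2, pse]
      have : ((2 * x - D.l - c).toNat : ℚ) + 1 ≤ (D.cm0 x : ℚ) := by
        unfold cm0
        have h5 : (2 * x - D.l - c).toNat + 1 ≤ 2 * (x - D.l).toNat + 1 := by omega
        exact_mod_cast h5
      linarith
    have B : ((D.cG0 x y).frz (nN y x)).Nr (insert (D.ces y) (bds (D.T y) (D.gcut x y (c + 1))))
        (sN y c) (nN y c) 0 := by
      refine Nr_bot (Geo.frz_sd sz) (Geo.frz_sd nz) (q1.trans q2) ?_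
      intro p hp hsp hp1 hp2
      show D.cP x y p < D.cP x y (sN y c) ∨ D.cP x y (nN y c) < D.cP x y p
      rcases Finset.mem_insert.1 hp with rfl | hp
      · exact Or.inr q3
      · have hpz : p ≠ nN y x := by
          rintro rfl
          rw [Geo.frz_z] at hsp
          cases hsp
        have hpb := mem_bds.1 hp
        -- the end is an end of the cut domain
        have hpb' : Bd (D.T y) (D.gcut x y x) p := by
          refine ⟨hpb.1, ?_⟩
          by_cases hc' : D.InCut y x p
          · exact gcut_cut hc'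
          · rw [gcut_not hc']
            have hc'' : ¬ D.InCut y (c + 1) p := fun ⟨i, i1, i2, i3⟩ => hc' ⟨i, i1, by omega, i3⟩
            rw [← gcut_not hc'']
            exact hpb.2
        rw [ps1, ps2, H.P_eq hpb.1, Nat.cast_lt, Nat.cast_lt]
        by_contra hcon
        push Not at hcon
        obtain ⟨c1, c2⟩ := hcon
        -- the end is on the chain, between
        have h5 := H.ps_spec hpb'
        rw [H.iter_ch _ (by omega)] at h5
        rcases lt_or_ge (D.l + (D.cps x y p : ℤ)) x with h6 | h6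
        · rw [cch_s h6] at h5
          have h7 : D.l + (D.cps x y p : ℤ) ≠ c := fun h => hp1 (by rw [← h5, h])
          have h8 := hpb.2
          have hc'' : ¬ D.InCut y (c + 1) p := by
            rintro ⟨i, i1, i2, i3 | i3⟩
            · rw [← h5] at i3
              have := sN_inj i3
              omega
            · rw [← h5] at i3
              exact sN_ne_nN i3
          rw [gcut_not hc'', ← h5, go_sN h2 h3 h4 (by omega) h6] at h8
          exact sN_ne_nN h8.symm
        · rw [cch_n h6] at h5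
          have h7 : 2 * x - D.l - (D.cps x y p : ℤ) ≠ c := fun h => hp2 (by rw [← h5, h])
          have h7' : 2 * x - D.l - (D.cps x y p : ℤ) ≠ x := fun h => hpz (by rw [← h5, h])
          have h8 := hpb.2
          have hc'' : ¬ D.InCut y (c + 1) p := by
            rintro ⟨i, i1, i2, i3 | i3⟩
            · rw [← h5] at i3
              exact sN_ne_nN i3.symm
            · rw [← h5] at i3
              have := nN_inj i3
              omega
          rw [gcut_not hc'', ← h5, go_nN h2 h3 h4 (by omega) (by omega)] at h8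
          exact sN_ne_nN h8
    have Z := S.zip (sc := -1) (by
        intro w
        rw [ht]
        exact (glu_gcut (D := D) (x := x) (y := y) (c := c) h2 h3 h4 hcx.le).periodic ω w) B m1 m2
      sN_ne_nN (by
        rw [H.th_n hc hcx.le, H.th_s hc hcx, B.T, Geo.D_bot (Geo.frz_sd sz) (Geo.frz_sd nz)]
        ring) (by
        unfold cph Geo.pz
        have b1 : (D.cG0 x y).b (nN y c) (nN y x) = 0 := if_neg (not_lt.mpr q2.le)
        have b2 : (D.cG0 x y).b (nN y c) (D.ces y) = 1 := if_pos q3
        have b3 : (D.cG0 x y).b (sN y c) (nN y x) = 1 := if_pos q1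
        have b4 : (D.cG0 x y).b (sN y c) (D.ces y) = 1 := if_pos (q1.trans (q2.trans q3))
        have sd : ∀ q, (D.cG0 x y).sd q = Side.bot := fun _ => rfl
        rw [if_pos (sd _), if_pos (sd _), b1, b2, b3, b4]
        ring)
    rw [ht, tieb_bcut hcx, H.bds_gcut hc hcx] at Z
    exact Z

end

end Slab

end Full
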