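import Pool.Agent.Full.Loop.Core

/-!
# Phases of planar strands
-/

set_option autoImplicit false

namespace Full.Loop

open Finset

variable {α : Type*} {g : Geo α} {X : Finset α} {f : α → α} {w : α → ℤ} {x y : α} {s : ℤ}

/-- turning of a joined strand -/
theorem Geo.T_join (H : Inv X f w) (N : g.NC X f w) (A : g.Adj X x y s) (hy : y ∈ X)
    (hxy : x ≠ y) {p : α} (hp : p ∈ X) (px : p ≠ x) (py : p ≠ y) (np : g.nz p) (h1 : f p = x)
    (nfy : g.nz (f y)) :
    g.T p (f y) (w p + s + w y) = g.T p x (w p) - g.T x y s + g.T y (f y) (w y) := by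
  have a3 := H.inv p hp
  have fx : f x = p := by rw [← h1, a3]
  have fyx : f y ≠ x := fun h => py (by rw [← a3, h1, ← h, H.inv y hy])
  have wx : w x = - w p := by rw [← h1, H.wf p hp]
  have n1 := N p hp np (by rw [h1]; exact A.nx) y hy A.ny nfy (w p + s) (by
    rintro (⟨c1, _⟩ | ⟨c1, _⟩)
    · exact py c1.symm
    · exact hxy (by rw [c1, h1]))
  have n2 := N y hy A.ny nfy p hp np (by rw [h1]; exact A.nx) (-w p - s) (by
    rintro (⟨c1, _⟩ | ⟨c1, _⟩)
    · exact py c1
    · exact hxy (by rw [← h1, c1, H.inv y hy]))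
  unfold Geo.L at n1 n2
  rw [h1] at n1 n2
  have hfy := H.mem y hy
  have b1 := A.a1 p hp (-w p) (fun h => px h.1) (fun h => py h.1)
  have b2 := A.a2 p hp (-w p) (fun h => px h.1) (fun h => py h.1)
  have b3 := A.a1 (f y) hfy (w y + s) (fun h => fyx h.1) (fun h => H.ne y hy h.1)
  have b4 := A.a2 (f y) hfy (w y + s) (fun h => fyx h.1) (fun h => H.ne y hy h.1)
  have e1 : w p + s - w p = s := by ring
  have e2 : w p + s + w y - w p = w y + s := by ring
  have e3 : -w p - s + w p = - s := by ring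
  have e4 : -w p - s - w y = -(w p + s + w y) := by ring
  have e5 : - s - w y = -(w y + s) := by ring
  have e6 : w y + s - s = w y := by ring
  have e7 : s - (w y + s) = - w y := by ring
  have e8 : s - - w p = w p + s := by ring
  rw [e1, e2] at n1
  rw [e3, e4, e5] at n2
  rw [neg_neg, e8] at b2
  rw [e6] at b3
  rw [e7] at b4
  unfold Geo.T
  linarith

/-- neighbours, exchanged -/
lemma Geo.Adj.symm (A : g.Adj X x y s) : g.Adj X y x (-s) where
  nx := A.ny
  ny := A.nx
  a1 p hp k h1 h2 := by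
    have := A.a1 p hp (k + s) (fun h => h2 ⟨h.1, by omega⟩) (fun h => h1 ⟨h.1, by omega⟩)
    rw [add_sub_cancel_right] at this
    rw [← this]
    congr 1
    ring
  a2 p hp k h1 h2 := by
    have := A.a2 p hp (k + s) (fun h => h2 ⟨h.1, by omega⟩) (fun h => h1 ⟨h.1, by omega⟩)
    have e : s - (k + s) = - k := by ring
    rw [e] at this
    rw [← this]
    congr 1
    ring

/-- the phases are those of planar strands, `c` counts the crossings of the seam -/
def Geo.LT (g : Geo α) (X : Finset α) (f : α → α) (w c t : α → ℤ) : Prop :=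
  ∀ p ∈ X, g.nz p → g.nz (f p) → t p = g.T p (f p) (w p) + 2 * c p

variable [DecidableEq α]

theorem Geo.LT.join {c t : α → ℤ} {sc : ℤ} (H : Inv X f w) (N : g.NC X f w)
    (A : g.Adj X x y s) (hx : x ∈ X) (hy : y ∈ X) (hxy : x ≠ y) (h : g.LT X f w c t) :
    g.LT ((X.erase x).erase y) (jf x y f) (jh x y s f w) (jh x y sc f c)
      (jh x y (- g.T x y s + 2 * sc) f t) := by
  intro p hp' np nfp
  have hp := hp'
  simp only [Finset.mem_erase] at hp
  obtain ⟨py, px, hp⟩ := hp
  by_cases h1 : f p = x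
  · rw [jf_x h1] at nfp
    rw [jf_x h1, jh_x h1, jh_x h1, jh_x h1, h p hp np (by rw [h1]; exact A.nx), h y hy A.ny nfp,
      Geo.T_join H N A hy hxy hp px py np h1 nfp, h1]
    ring
  · by_cases h2 : f p = y
    · rw [jf_y h1 h2] at nfp
      have e := Geo.T_join H N A.symm hx hxy.symm hp py px np h2 nfp
      have e' : g.T y x (-s) = - g.T x y s := g.T_neg x y s
      rw [jf_y h1 h2, jh_y h1 h2, jh_y h1 h2, jh_y h1 h2, h p hp np (by rw [h2]; exact A.ny),
        h x hx A.nx nfp, sub_eq_add_neg (w p), e, e', h2]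
      ring
    · rw [jf_o h1 h2] at nfp
      rw [jf_o h1 h2, jh_o h1 h2, jh_o h1 h2, jh_o h1 h2, h p hp np nfp]

end Full.Loop
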