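import Pool.Agent.Full.Loop.Charge

/-!
# Elementary operations: cups, joins, Temperley-Lieb generators
-/

set_option autoImplicit false

namespace Full.Loop

open Finset

variable {α : Type*} {g : Geo α} {X : Finset α} {f : α → α} {w : α → ℤ} {x y z : α} {s : ℤ}

/-- an involution without fixed points has an even number of points -/
lemma even_of_inv {A : Finset α} (f : α → α) (h1 : ∀ p ∈ A, f p ∈ A) (h2 : ∀ p ∈ A, f (f p) = p)
    (h3 : ∀ p ∈ A, f p ≠ p) : Even A.card := by
  have h : ∑ _p ∈ A, (1 : ZMod 2) = 0 := by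
    refine Finset.sum_involution (fun p _ => f p) (fun p _ => by decide) (fun p hp _ => h3 p hp)
      (fun p hp => h1 p hp) (fun p hp => h2 p hp)
  rw [Finset.sum_const, nsmul_eq_mul, mul_one] at h
  exact (ZMod.natCast_eq_zero_iff_even).mp h

/-- a closed strand around the annulus encloses the whole top line -/
lemma Geo.Nb.enc (B : g.Nb X x y s) (H : Inv X f w) (N : g.NC X f w) (hx : x ∈ X) (hy : y ∈ X)
    (hfx : f x = y) (hw : w x = s - 1) {q : α} (hq : q ∈ X) (qx : q ≠ x) (qy : q ≠ y)
    (tq : g.sd q = Side.top) (nfq : g.nz (f q)) : g.sd (f q) = Side.top := by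
  have a1 := H.inv x hx
  have fy : f y = x := by rw [← hfx, a1]
  have wy : w y = 1 - s := by
    have := H.wf x hx
    rw [hfx] at this
    omega
  by_contra hbot
  have key : ∀ k, g.u y q k = g.u y q (k - 1) := by
    intro k
    have n := N y hy B.adj.ny (by rw [fy]; exact B.adj.nx) q hq (g.nz_top tq) nfq k (by
      rintro (⟨c, _⟩ | ⟨c, _⟩)
      · exact qy c
      · exact qx (by rw [c, fy]))
    unfold Geo.L at n
    rw [fy, wy] at n
    have r1 : g.u y (f q) (k + w q) = 0 := by rw [g.u_eq, Geo.D_bt B.ty hbot, zero_mul]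
    have r2 : g.u x (f q) (k + w q - (1 - s)) = 0 := by rw [g.u_eq, Geo.D_bt B.tx hbot, zero_mul]
    have r3 := B.adj.a1 q hq (k - (1 - s)) (fun h => qx h.1) (fun h => qy h.1)
    have r4 : k - (1 - s) - s = k - 1 := by ring
    rw [r4] at r3
    rw [r1, r2, r3] at n
    linarith
  by_cases hb : g.ix y < g.ix q
  · have := key 0
    have l1 : g.lt y q 0 := Or.inr ⟨rfl, hb⟩
    have l2 : ¬ g.lt y q (0 - 1) := by rintro (h | ⟨h, _⟩) <;> omega
    rw [g.u_eq, g.u_eq, if_pos l1, if_neg l2, Geo.D_top B.ty tq] at this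
    omega
  · have := key 1
    have l1 : g.lt y q 1 := Or.inl (by omega)
    have l2 : ¬ g.lt y q (1 - 1) := by
      rintro (h | ⟨_, h'⟩)
      · omega
      · exact hb h'
    rw [g.u_eq, g.u_eq, if_pos l1, if_neg l2, Geo.D_top B.ty tq] at this
    omega

/-- parity forbids a closed strand around the annulus, no puncture -/
lemma Geo.Nb.no_nc (B : g.Nb X x y s) (H : Inv X f w) (N : g.NC X f w) (hx : x ∈ X) (hy : y ∈ X)
    (hxy : x ≠ y) (hnz : ∀ p ∈ X, g.nz p)
    (hodd : Odd (X.filter (fun p => g.sd p = Side.top)).card) (hfx : f x = y) :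
    w x ≠ s - 1 := by
  classical
  intro hw
  have a1 := H.inv x hx
  have fy : f y = x := by rw [← hfx, a1]
  set A := ((X.filter (fun p => g.sd p = Side.top)).erase x).erase y with hA
  have mx : x ∈ X.filter (fun p => g.sd p = Side.top) := Finset.mem_filter.mpr ⟨hx, B.tx⟩
  have my : y ∈ (X.filter (fun p => g.sd p = Side.top)).erase x :=
    Finset.mem_erase.mpr ⟨hxy.symm, Finset.mem_filter.mpr ⟨hy, B.ty⟩⟩
  have hc : A.card + 2 = (X.filter (fun p => g.sd p = Side.top)).card := by
    rw [hA, Finset.card_erase_of_mem my, Finset.card_erase_of_mem mx]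
    have := Finset.card_pos.mpr ⟨y, my⟩
    rw [Finset.card_erase_of_mem mx] at this
    omega
  have hE : Even A.card := by
    refine even_of_inv f (fun p hp => ?_) (fun p hp => ?_) (fun p hp => ?_)
    all_goals
      rw [hA] at hp
      simp only [Finset.mem_erase, Finset.mem_filter] at hp
      obtain ⟨py, px, hp, tp⟩ := hp
    · rw [hA]
      simp only [Finset.mem_erase, Finset.mem_filter]
      refine ⟨fun e => px ?_, fun e => py ?_, H.mem p hp, ?_⟩
      · rw [← H.inv p hp, e, fy]
      · rw [← H.inv p hp, e, hfx]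
      · exact B.enc H N hx hy hfx hw hp px py tp (hnz _ (H.mem p hp))
    · exact H.inv p hp
    · exact H.ne p hp
  rw [← hc] at hodd
  rcases hodd with ⟨m, hm⟩
  rcases hE with ⟨n, hn⟩
  omega

/-- parity forbids a closed strand around the annulus below the puncture -/
lemma Geo.Nb.no_nc' [DecidableEq α] (B : g.Nb X x y s) (H : Inv X f w) (N : g.NC X f w)
    (P : g.Punct X z)
    (hx : x ∈ X) (hy : y ∈ X) (hxy : x ≠ y)
    (hev : Even (X.filter (fun p => g.sd p = Side.top)).card) (hfx : f x = y)
    (hw : w x = s - 1) : g.dl (f z) = 1 := by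
  by_contra hdl
  have te : g.sd (f z) = Side.top := by
    have ne := P.nz _ (H.mem z P.mem) (H.ne z P.mem)
    unfold Geo.dl at hdl
    unfold Geo.nz at ne
    cases h : g.sd (f z) <;> simp_all
  have a1 := H.inv x hx
  have fy : f y = x := by rw [← hfx, a1]
  have zx : z ≠ x := fun e => B.adj.nx (by rw [← e]; exact P.non)
  have zy : z ≠ y := fun e => B.adj.ny (by rw [← e]; exact P.non)
  have ex : f z ≠ x := fun e => zy (by rw [← hfx, ← e, H.inv z P.mem])
  have ey : f z ≠ y := fun e => zx (by rw [← fy, ← e, H.inv z P.mem])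
  set A := (((X.filter (fun p => g.sd p = Side.top)).erase x).erase y).erase (f z) with hA
  have mx : x ∈ X.filter (fun p => g.sd p = Side.top) := Finset.mem_filter.mpr ⟨hx, B.tx⟩
  have my : y ∈ (X.filter (fun p => g.sd p = Side.top)).erase x :=
    Finset.mem_erase.mpr ⟨hxy.symm, Finset.mem_filter.mpr ⟨hy, B.ty⟩⟩
  have me : f z ∈ ((X.filter (fun p => g.sd p = Side.top)).erase x).erase y :=
    Finset.mem_erase.mpr ⟨ey, Finset.mem_erase.mpr ⟨ex,
      Finset.mem_filter.mpr ⟨H.mem z P.mem, te⟩⟩⟩
  have hc : A.card + 3 = (X.filter (fun p => g.sd p = Side.top)).card := by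
    have c1 := Finset.card_erase_add_one mx
    have c2 := Finset.card_erase_add_one my
    have c3 := Finset.card_erase_add_one me
    rw [hA]
    omega
  have hE : Even A.card := by
    refine even_of_inv f (fun p hp => ?_) (fun p hp => ?_) (fun p hp => ?_)
    all_goals
      rw [hA] at hp
      simp only [Finset.mem_erase, Finset.mem_filter] at hp
      obtain ⟨pe, py, px, hp, tp⟩ := hp
    · rw [hA]
      simp only [Finset.mem_erase, Finset.mem_filter]
      have pz : f p ≠ z := fun e => pe (by rw [← e, H.inv p hp])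
      refine ⟨fun e => ?_, fun e => px ?_, fun e => py ?_, H.mem p hp, ?_⟩
      · have : p = z := by rw [← H.inv p hp, e, H.inv z P.mem]
        rw [this, P.non] at tp
        exact absurd tp (by decide)
      · rw [← H.inv p hp, e, fy]
      · rw [← H.inv p hp, e, hfx]
      · exact B.enc H N hx hy hfx hw hp px py tp (P.nz _ (H.mem p hp) pz)
    · exact H.inv p hp
    · exact H.ne p hp
  rw [← hc] at hev
  rcases hev with ⟨m, hm⟩
  rcases hE with ⟨n, hn⟩
  omega

end Full.Loop
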