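import Pool.Agent.Full.Loop.Exp

/-!
# Rows of tiles acting on systems of strands

Nodes: `tp r` = sites of the top line, `st b` = static nodes (bottom line, puncture).
With `u = 0` there is no puncture and an odd number of sites on the top line (below `z`), with `u = 1`
there is a puncture and an even number of sites (above `z`).
-/

set_option autoImplicit false

namespace Full.Loop

open Finset

noncomputable section

inductive Nd (β : Type*)
  | tp (r : ℕ)
  | st (b : β)
deriving DecidableEq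

variable {β : Type*}

open Nd

/-- positions -/
def gN (gs : β → Side) (gi : β → ℚ) : Geo (Nd β) where
  sd p := match p with
    | tp _ => Side.top
    | st b => gs b
  ix p := match p with
    | tp r => r
    | st b => gi b

section
variable {gs : β → Side} {gi : β → ℚ}
@[simp] lemma gN_sd_tp (r : ℕ) : (gN gs gi).sd (tp r) = Side.top := rfl
@[simp] lemma gN_sd_st (b : β) : (gN gs gi).sd (st b) = gs b := rfl
@[simp] lemma gN_ix_tp (r : ℕ) : (gN gs gi).ix (tp r) = r := rfl
@[simp] lemma gN_ix_st (b : β) : (gN gs gi).ix (st b) = gi b := rfl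

lemma lt_tp {r r' : ℕ} {k : ℤ} : (gN gs gi).lt (tp r) (tp r') k ↔ 0 < k ∨ k = 0 ∧ r < r' := by
  unfold Geo.lt
  simp

lemma u_st {b : β} (hb : gs b ≠ Side.top) (r : ℕ) (k : ℤ) :
    (gN gs gi).u (tp r) (st b) k = 0 ∧ (gN gs gi).u (st b) (tp r) k = 0 := by
  unfold Geo.u
  simp [hb]
end

variable [DecidableEq β]

/-- sites `o, ..., o + N - 1` and static nodes -/
def nds (o N : ℕ) (St : Finset β) : Finset (Nd β) :=
  (Ico o (o + N)).image tp ∪ St.image st

variable {gs : β → Side} {gi : β → ℚ} {o N : ℕ} {St : Finset β}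

@[simp] lemma mem_nds_tp {r : ℕ} : (tp r : Nd β) ∈ nds o N St ↔ o ≤ r ∧ r < o + N := by
  simp [nds]

@[simp] lemma mem_nds_st {b : β} : (st b : Nd β) ∈ nds o N St ↔ b ∈ St := by
  simp [nds]

lemma nds_insert : insert (tp (o + N) : Nd β) (insert (tp (o + N + 1)) (nds o N St)) =
    nds o (N + 2) St := by
  ext p
  cases p with
  | tp r =>
    simp only [Finset.mem_insert, tp.injEq, mem_nds_tp]
    omega
  | st b => simp

lemma nds_erase : ((nds o (N + 2) St).erase (tp (o + N + 1) : Nd β)).erase (tp o) =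
    nds (o + 1) N St := by
  ext p
  cases p with
  | tp r =>
    simp only [Finset.mem_erase, ne_eq, tp.injEq, mem_nds_tp]
    omega
  | st b => simp

/-- the static nodes are not on the top line -/
def StOk (gs : β → Side) (St : Finset β) : Prop := ∀ b ∈ St, gs b ≠ Side.top

lemma nb_gen (hSt : StOk gs St) (j : ℕ) :
    (gN gs gi).Nb (nds o N St) (tp j) (tp (j + 1)) 0 where
  adj := by
    refine ⟨by unfold Geo.nz; simp, by unfold Geo.nz; simp, fun p hp k h1 h2 => ?_,
      fun p hp k h1 h2 => ?_⟩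
    · cases p with
      | tp r =>
        rw [Geo.u_eq, Geo.u_eq, Geo.D_top rfl rfl, Geo.D_top rfl rfl]
        congr 1
        have a1 : ¬ (r = j ∧ k = 0) := fun h => h1 ⟨by rw [h.1], h.2⟩
        have a2 : ¬ (r = j + 1 ∧ k = 0) := fun h => h2 ⟨by rw [h.1], h.2⟩
        simp only [lt_tp]
        congr 1
        apply propext
        omega
      | st b =>
        have hb := hSt b (by simpa using hp)
        rw [(u_st hb j k).1, (u_st hb (j + 1) (k - 0)).1]
    · cases p with
      | tp r =>
        rw [Geo.u_eq, Geo.u_eq, Geo.D_top rfl rfl, Geo.D_top rfl rfl]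
        congr 1
        have a1 : ¬ (r = j ∧ k = 0) := fun h => h1 ⟨by rw [h.1], h.2⟩
        have a2 : ¬ (r = j + 1 ∧ k = 0) := fun h => h2 ⟨by rw [h.1], h.2⟩
        simp only [lt_tp]
        congr 1
        apply propext
        omega
      | st b =>
        have hb := hSt b (by simpa using hp)
        rw [(u_st hb j (-k)).2, (u_st hb (j + 1) (0 - k)).2]
  tx := rfl
  ty := rfl
  lt := by rw [lt_tp]; omega
  nlt := by rw [lt_tp]; omega
  sb := by
    unfold Geo.b
    rw [if_pos (by simp)]
    ring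
  sb' := by
    unfold Geo.b
    rw [if_neg (by simp)]

lemma nb_cyc (hSt : StOk gs St) :
    (gN gs gi).Nb (nds o (N + 2) St) (tp (o + N + 1)) (tp o) 1 where
  adj := by
    refine ⟨by unfold Geo.nz; simp, by unfold Geo.nz; simp, fun p hp k h1 h2 => ?_,
      fun p hp k h1 h2 => ?_⟩
    · cases p with
      | tp r =>
        rw [Geo.u_eq, Geo.u_eq, Geo.D_top rfl rfl, Geo.D_top rfl rfl]
        congr 1
        rw [mem_nds_tp] at hp
        have a1 : ¬ (r = o + N + 1 ∧ k = 0) := fun h => h1 ⟨by rw [h.1], h.2⟩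
        have a2 : ¬ (r = o ∧ k = 1) := fun h => h2 ⟨by rw [h.1], h.2⟩
        simp only [lt_tp]
        congr 1
        apply propext
        omega
      | st b =>
        have hb := hSt b (by simpa using hp)
        rw [(u_st hb _ k).1, (u_st hb _ (k - 1)).1]
    · cases p with
      | tp r =>
        rw [Geo.u_eq, Geo.u_eq, Geo.D_top rfl rfl, Geo.D_top rfl rfl]
        congr 1
        rw [mem_nds_tp] at hp
        have a1 : ¬ (r = o + N + 1 ∧ k = 0) := fun h => h1 ⟨by rw [h.1], h.2⟩
        have a2 : ¬ (r = o ∧ k = 1) := fun h => h2 ⟨by rw [h.1], h.2⟩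
        simp only [lt_tp]
        congr 1
        apply propext
        omega
      | st b =>
        have hb := hSt b (by simpa using hp)
        rw [(u_st hb _ (-k)).2, (u_st hb _ (1 - k)).2]
  tx := rfl
  ty := rfl
  lt := by rw [lt_tp]; omega
  nlt := by rw [lt_tp]; omega
  sb := by
    unfold Geo.b
    rw [if_neg (by simp only [gN_ix_tp, Nat.cast_lt]; omega)]
    ring
  sb' := by
    unfold Geo.b
    rw [if_pos (by simp only [gN_ix_tp, Nat.cast_lt]; omega)]

/-- distinct static nodes have distinct positions -/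
def StSep (gs : β → Side) (gi : β → ℚ) (St : Finset β) : Prop :=
  ∀ b ∈ St, ∀ b' ∈ St, gs b = gs b' → b ≠ b' → gi b ≠ gi b'

lemma sep_nds (hSt : StOk gs St) (hs : StSep gs gi St) : (gN gs gi).Sep (nds o N St) := by
  intro p hp q hq e hpq
  cases p with
  | tp r =>
    cases q with
    | tp r' =>
      simp only [gN_ix_tp, ne_eq, Nat.cast_inj]
      intro h
      exact hpq (by rw [h])
    | st b => exact absurd e.symm (hSt b (by simpa using hq))
  | st b =>
    cases q with
    | tp r' => exact absurd e (hSt b (by simpa using hp))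
    | st b' => exact hs b (by simpa using hp) b' (by simpa using hq) e (fun h => hpq (by rw [h]))

omit [DecidableEq β] in
lemma cyc_ne : (tp (o + N + 1) : Nd β) ≠ tp o := by
  intro h
  rw [tp.injEq] at h
  omega

/-- admissible systems: `u = 0` without puncture, `u = 1` with the puncture `st ζ` -/
structure Adm (gs : β → Side) (gi : β → ℚ) (St : Finset β) (u : ℤ)
    (P : Finset (Nd β) → Dat (Nd β) → Prop) : Prop where
  sys : ∀ X d, P X d → Sys X d.f d.t
  cup : ∀ o N d, P (nds o N St) d → P (nds o (N + 2) St) (d.cup (tp (o + N)) (tp (o + N + 1)))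
  gen : ∀ o N d j, P (nds o N St) d → o ≤ j → j + 1 < o + N →
    P (nds o N St) ((d.join (tp j) (tp (j + 1)) 0 0 (-1)).cup (tp j) (tp (j + 1)))
  genK : ∀ o N d j, P (nds o N St) d → o ≤ j → j + 1 < o + N → ∀ σ,
    ∑ a : Bool, om ^ (2 * sg a) * d.K (nds o N St) (up2 σ (tp j) (tp (j + 1)) a (!a)) =
    (d.join (tp j) (tp (j + 1)) 0 0 (-1)).K (((nds o N St).erase (tp j)).erase (tp (j + 1))) σ
  cyc : ∀ o N d, P (nds o (N + 2) St) d →
    P (nds (o + 1) N St) (d.join (tp (o + N + 1)) (tp o) 1 u (-1 + 2 * u))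
  cycK : ∀ o N d, P (nds o (N + 2) St) d → ∀ σ,
    ∑ a : Bool, om ^ (-2 * (-1 + 2 * u) * sg a) *
      d.K (nds o (N + 2) St) (up2 σ (tp (o + N + 1)) (tp o) a (!a)) =
    (d.join (tp (o + N + 1)) (tp o) 1 u (-1 + 2 * u)).K (nds (o + 1) N St) σ

lemma nds_insert' {j : ℕ} (h1 : o ≤ j) (h2 : j + 1 < o + N) :
    insert (tp j : Nd β) (insert (tp (j + 1)) (((nds o N St).erase (tp j)).erase (tp (j + 1)))) =
    nds o N St := by
  rw [Finset.insert_erase, Finset.insert_erase]
  · simp only [mem_nds_tp]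
    omega
  · rw [Finset.mem_erase]
    refine ⟨by simp, ?_⟩
    simp only [mem_nds_tp]
    omega

lemma card_top (hSt : StOk gs St) :
    ((nds o N St).filter (fun p => (gN gs gi).sd p = Side.top)).card = N := by
  have : (nds o N St).filter (fun p => (gN gs gi).sd p = Side.top) = (Ico o (o + N)).image tp := by
    ext p
    cases p with
    | tp r => simp
    | st b =>
      simp only [Finset.mem_filter, mem_nds_st, gN_sd_st, Finset.mem_image]
      constructor
      · rintro ⟨h1, h2⟩
        exact absurd h2 (hSt b h1)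
      · rintro ⟨r, _, h⟩
        exact absurd h (by simp)
  rw [this, Finset.card_image_of_injective _ (fun a b h => by simpa using h)]
  simp

/-- below the puncture -/
def PLow (gs : β → Side) (gi : β → ℚ) (X : Finset (Nd β)) (d : Dat (Nd β)) : Prop :=
  Ok0 (gN gs gi) X d ∧ Odd (X.filter (fun p => (gN gs gi).sd p = Side.top)).card

/-- above the puncture -/
def PUp (gs : β → Side) (gi : β → ℚ) (ζ : β) (X : Finset (Nd β)) (d : Dat (Nd β)) : Prop :=
  OkZ (gN gs gi) X d (st ζ) ∧ Even (X.filter (fun p => (gN gs gi).sd p = Side.top)).card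

theorem adm_low (hSt : StOk gs St) (hs : StSep gs gi St) : Adm gs gi St 0 (PLow gs gi) where
  sys X d h := h.1.sys
  cup o N d h := by
    have h1 : (tp (o + N) : Nd β) ∉ nds o N St := by simp
    have h2 : (tp (o + N + 1) : Nd β) ∉ nds o N St := by simp
    refine ⟨?_, ?_⟩
    · rw [← nds_insert]
      refine h.1.cup h1 h2 (by simp) ?_ ?_
      · rw [nds_insert]
        exact nb_gen hSt _
      · rw [nds_insert]
        exact sep_nds hSt hs
    · have := h.2
      rw [card_top hSt] at this ⊢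
      exact this.add_even (by decide)
  gen o N d j h h1 h2 := by
    have m1 : (tp j : Nd β) ∈ nds o N St := by simp only [mem_nds_tp]; omega
    have m2 : (tp (j + 1) : Nd β) ∈ nds o N St := by simp only [mem_nds_tp]; omega
    refine ⟨?_, h.2⟩
    have hj := h.1.join (nb_gen hSt j) m1 m2 (by simp)
    have := hj.cup (x := tp j) (y := tp (j + 1)) (by simp) (by simp) (by simp)
      (by rw [nds_insert' h1 h2]; exact nb_gen hSt j) (by rw [nds_insert' h1 h2]; exact sep_nds hSt hs)
    rw [nds_insert' h1 h2] at this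
    exact this
  genK o N d j h h1 h2 σ := by
    have m1 : (tp j : Nd β) ∈ nds o N St := by simp only [mem_nds_tp]; omega
    have m2 : (tp (j + 1) : Nd β) ∈ nds o N St := by simp only [mem_nds_tp]; omega
    exact h.1.K_join (nb_gen hSt j) m1 m2 (by simp) h.2 σ
  cyc o N d h := by
    have m1 : (tp (o + N + 1) : Nd β) ∈ nds o (N + 2) St := by simp only [mem_nds_tp]; omega
    have m2 : (tp o : Nd β) ∈ nds o (N + 2) St := by simp only [mem_nds_tp]; omega
    have hj := h.1.join (nb_cyc hSt) m1 m2 cyc_ne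
    rw [nds_erase] at hj
    refine ⟨hj, ?_⟩
    have := h.2
    rw [card_top hSt] at this ⊢
    rcases this with ⟨m, hm⟩
    exact ⟨m - 1, by omega⟩
  cycK o N d h σ := by
    have m1 : (tp (o + N + 1) : Nd β) ∈ nds o (N + 2) St := by simp only [mem_nds_tp]; omega
    have m2 : (tp o : Nd β) ∈ nds o (N + 2) St := by simp only [mem_nds_tp]; omega
    have := h.1.K_join (nb_cyc hSt) m1 m2 cyc_ne h.2 σ
    rw [nds_erase] at this
    simpa using this

theorem adm_up (hSt : StOk gs St) (hs : StSep gs gi St) {ζ : β} (hζ : gi ζ < 0) :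
    Adm gs gi St 1 (PUp gs gi ζ) where
  sys X d h := h.1.sys
  cup o N d h := by
    have h1 : (tp (o + N) : Nd β) ∉ nds o N St := by simp
    have h2 : (tp (o + N + 1) : Nd β) ∉ nds o N St := by simp
    refine ⟨?_, ?_⟩
    · rw [← nds_insert]
      refine h.1.cup h1 h2 (by simp) ?_ ?_ ?_
      · rw [nds_insert]
        exact nb_gen hSt _
      · rw [nds_insert]
        exact sep_nds hSt hs
      · unfold Geo.b
        rw [if_pos, if_pos]
        · simp only [gN_ix_st, gN_ix_tp]
          exact lt_of_lt_of_le hζ (Nat.cast_nonneg _)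
        · simp only [gN_ix_st, gN_ix_tp]
          exact lt_of_lt_of_le hζ (Nat.cast_nonneg _)
    · have := h.2
      rw [card_top hSt] at this ⊢
      exact this.add (by decide)
  gen o N d j h h1 h2 := by
    have m1 : (tp j : Nd β) ∈ nds o N St := by simp only [mem_nds_tp]; omega
    have m2 : (tp (j + 1) : Nd β) ∈ nds o N St := by simp only [mem_nds_tp]; omega
    have b0 : ∀ r : ℕ, (gN gs gi).b (st ζ) (tp r) = 1 := fun r =>
      if_pos (by simp only [gN_ix_st, gN_ix_tp]; exact lt_of_lt_of_le hζ (Nat.cast_nonneg _))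
    refine ⟨?_, h.2⟩
    have hj := h.1.join (nb_gen hSt j) m1 m2 (by simp)
    have e : (gN gs gi).sc (st ζ) (tp j) (tp (j + 1)) 0 = 0 := by
      unfold Geo.sc
      rw [b0, b0]
      ring
    rw [e] at hj
    have := hj.cup (x := tp j) (y := tp (j + 1)) (by simp) (by simp) (by simp)
      (by rw [nds_insert' h1 h2]; exact nb_gen hSt j) (by rw [nds_insert' h1 h2]; exact sep_nds hSt hs)
      (by rw [b0, b0])
    rw [nds_insert' h1 h2] at this
    simpa using this
  genK o N d j h h1 h2 σ := by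
    have m1 : (tp j : Nd β) ∈ nds o N St := by simp only [mem_nds_tp]; omega
    have m2 : (tp (j + 1) : Nd β) ∈ nds o N St := by simp only [mem_nds_tp]; omega
    have b0 : ∀ r : ℕ, (gN gs gi).b (st ζ) (tp r) = 1 := fun r =>
      if_pos (by simp only [gN_ix_st, gN_ix_tp]; exact lt_of_lt_of_le hζ (Nat.cast_nonneg _))
    have e : (gN gs gi).sc (st ζ) (tp j) (tp (j + 1)) 0 = 0 := by
      unfold Geo.sc
      rw [b0, b0]
      ring
    have := h.1.K_join (nb_gen hSt j) m1 m2 (by simp) h.2 σ
    rw [e] at this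
    simpa using this
  cyc o N d h := by
    have m1 : (tp (o + N + 1) : Nd β) ∈ nds o (N + 2) St := by simp only [mem_nds_tp]; omega
    have m2 : (tp o : Nd β) ∈ nds o (N + 2) St := by simp only [mem_nds_tp]; omega
    have b0 : ∀ r : ℕ, (gN gs gi).b (st ζ) (tp r) = 1 := fun r =>
      if_pos (by simp only [gN_ix_st, gN_ix_tp]; exact lt_of_lt_of_le hζ (Nat.cast_nonneg _))
    have e : (gN gs gi).sc (st ζ) (tp (o + N + 1)) (tp o) 1 = 1 := by
      unfold Geo.sc
      rw [b0, b0]
      ring
    have hj := h.1.join (nb_cyc hSt) m1 m2 cyc_ne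
    rw [nds_erase, e] at hj
    refine ⟨hj, ?_⟩
    have := h.2
    rw [card_top hSt] at this ⊢
    rcases this with ⟨m, hm⟩
    exact ⟨m - 1, by omega⟩
  cycK o N d h σ := by
    have m1 : (tp (o + N + 1) : Nd β) ∈ nds o (N + 2) St := by simp only [mem_nds_tp]; omega
    have m2 : (tp o : Nd β) ∈ nds o (N + 2) St := by simp only [mem_nds_tp]; omega
    have b0 : ∀ r : ℕ, (gN gs gi).b (st ζ) (tp r) = 1 := fun r =>
      if_pos (by simp only [gN_ix_st, gN_ix_tp]; exact lt_of_lt_of_le hζ (Nat.cast_nonneg _))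
    have e : (gN gs gi).sc (st ζ) (tp (o + N + 1)) (tp o) 1 = 1 := by
      unfold Geo.sc
      rw [b0, b0]
      ring
    have := h.1.K_join (nb_cyc hSt) m1 m2 cyc_ne h.2 σ
    rw [nds_erase, e] at this
    exact this

/-! ### the row -/

/-- generator or identity -/
def bitD (b : Bool) (j : ℕ) (d : Dat (Nd β)) : Dat (Nd β) :=
  if b then (d.join (tp j) (tp (j + 1)) 0 0 (-1)).cup (tp j) (tp (j + 1)) else d

/-- open row on the sites `j, ..., j + n - 1` -/
def rowD : (n : ℕ) → (j : ℕ) → (Fin n → Bool) → Dat (Nd β) → Dat (Nd β)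
  | 0, j, _, d => d.cup (tp j) (tp (j + 1))
  | (n + 1), j, b, d => bitD (b 0) j (rowD n (j + 1) (Fin.tail b) d)

/-- closed row: sites `o, ..., o + N - 1` become `o + 1, ..., o + N` -/
def rowC (u : ℤ) (N o : ℕ) (b : Fin N → Bool) (d : Dat (Nd β)) : Dat (Nd β) :=
  (rowD N o b d).join (tp (o + N + 1)) (tp o) 1 u (-1 + 2 * u)

/-- arrows on the nodes -/
def ext (τ : β → Bool) (σ : ℕ → Bool) : Nd β → Bool
  | tp r => σ r
  | st b => τ b

lemma ext_up2 (τ : β → Bool) (σ : ℕ → Bool) (i j : ℕ) (a b : Bool) :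
    ext τ (up2 σ i j a b) = up2 (ext τ σ) (tp i) (tp j) a b := by
  funext p
  cases p with
  | tp r =>
    show up2 σ i j a b r = _
    by_cases h2 : r = j
    · subst h2
      rw [up2_y, up2_y]
    · have h2' : (tp r : Nd β) ≠ tp j := by simpa using h2
      by_cases h1 : r = i
      · subst h1
        rw [up2_x _ h2, up2_x _ h2']
      · have h1' : (tp r : Nd β) ≠ tp i := by simpa using h1
        rw [up2_o _ h1 h2, up2_o _ h1' h2']
        rfl
  | st b' =>
    rw [up2_o _ (by simp) (by simp)]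
    rfl

/-- kernel as a function of the arrows of the sites -/
def KF (X : Finset (Nd β)) (τ : β → Bool) (d : Dat (Nd β)) (σ : ℕ → Bool) : ℂ := d.K X (ext τ σ)

lemma KF_cup (τ : β → Bool) (d : Dat (Nd β)) (σ : ℕ → Bool) :
    KF (nds o (N + 2) St) τ (d.cup (tp (o + N)) (tp (o + N + 1))) σ =
      cupO (o + N) (KF (nds o N St) τ d) σ := by
  unfold KF cupO
  rw [← nds_insert, Dat.K_cup (by simp) (by simp) (by simp)]
  rfl

variable {u : ℤ} {P : Finset (Nd β) → Dat (Nd β) → Prop}

lemma KF_gen (A : Adm gs gi St u P) (τ : β → Bool) {d : Dat (Nd β)} (h : P (nds o N St) d) {j : ℕ}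
    (h1 : o ≤ j) (h2 : j + 1 < o + N) (σ : ℕ → Bool) :
    KF (nds o N St) τ ((d.join (tp j) (tp (j + 1)) 0 0 (-1)).cup (tp j) (tp (j + 1))) σ =
      genO j (KF (nds o N St) τ d) σ := by
  unfold genO
  have e1 : ∀ a : Bool, KF (nds o N St) τ d (up2 σ j (j + 1) a (!a)) =
      d.K (nds o N St) (up2 (ext τ σ) (tp j) (tp (j + 1)) a (!a)) := fun a => by
    unfold KF
    rw [ext_up2]
  simp only [e1]
  rw [A.genK o N d j h h1 h2]
  unfold KF
  conv_lhs => rw [← nds_insert' h1 h2]
  rw [Dat.K_cup (by simp) (by simp) (by simp)]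
  rfl

lemma KF_bit (A : Adm gs gi St u P) (τ : β → Bool) {d : Dat (Nd β)} (h : P (nds o N St) d) {j : ℕ}
    (h1 : o ≤ j) (h2 : j + 1 < o + N) (b : Bool) (σ : ℕ → Bool) :
    P (nds o N St) (bitD b j d) ∧
    KF (nds o N St) τ (bitD b j d) σ = bitO b j (KF (nds o N St) τ d) σ := by
  cases b
  · exact ⟨h, rfl⟩
  · exact ⟨A.gen o N d j h h1 h2, KF_gen A τ h h1 h2 σ⟩

lemma bitO_congr (b : Bool) (j : ℕ) {F G : (ℕ → Bool) → ℂ} (h : ∀ σ, F σ = G σ) (σ : ℕ → Bool) :
    bitO b j F σ = bitO b j G σ := by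
  have : F = G := funext h
  rw [this]

theorem rowD_spec (A : Adm gs gi St u P) (τ : β → Bool) {d : Dat (Nd β)} (h : P (nds o N St) d) :
    ∀ (n j : ℕ) (b : Fin n → Bool), o ≤ j → j + n = o + N →
    P (nds o (N + 2) St) (rowD n j b d) ∧
    ∀ σ, KF (nds o (N + 2) St) τ (rowD n j b d) σ = rowO n j b (KF (nds o N St) τ d) σ
  | 0, j, b => by
      intro h1 h2
      have hj : j = o + N := by omega
      subst hj
      refine ⟨A.cup o N d h, fun σ => ?_⟩
      exact KF_cup τ d σ
  | (n + 1), j, b => by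
      intro h1 h2
      have IH := rowD_spec A τ h n (j + 1) (Fin.tail b) (by omega) (by omega)
      have hb := fun σ => KF_bit A τ IH.1 (j := j) h1 (by omega) (b 0) σ
      refine ⟨(hb (fun _ => true)).1, fun σ => ?_⟩
      show KF _ τ (bitD (b 0) j (rowD n (j + 1) (Fin.tail b) d)) σ =
        bitO (b 0) j (rowO n (j + 1) (Fin.tail b) (KF (nds o N St) τ d)) σ
      rw [(hb σ).2]
      exact bitO_congr _ _ IH.2 σ

/-- the kernel only depends on the sites present -/
lemma KF_loc {d : Dat (Nd β)} (hs : Sys (nds o N St) d.f d.t) (τ : β → Bool) :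
    Loc (o + N) (KF (nds o N St) τ d) := by
  intro σ σ' hσ
  have key : ∀ p ∈ nds o N St, ext τ σ p = ext τ σ' p := by
    intro p hp
    cases p with
    | tp r =>
      rw [mem_nds_tp] at hp
      exact hσ r hp.2
    | st b => rfl
  unfold KF Dat.K
  refine (kern_congr (fun _ _ => rfl) (fun _ _ => rfl) (fun p hp => key p hp)
    (fun p hp => key _ (hs.mem p hp)))

end

end Full.Loop
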