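import Pool.Agent.Full.Loop.Law

/-!
# The seam above the puncture

`z` is the puncture (the upper end of the half track), `f z` the end of its strand.  The seam of the
`k`-th lift of `z` is a vertical line which leaves the strip at the top position `ix z`.
`NN` is the potential of the charges: crossing the seam counts `+1`, the end of the strand of `z`
counts `-1` on the top line (`+1` on the bottom line).
-/

set_option autoImplicit false

namespace Full.Loop

open Finset

variable {α : Type*} {g : Geo α} {X : Finset α} {f : α → α} {w : α → ℤ} {x y : α} {s : ℤ}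

/-- sign of the kernel -/
def Geo.D (g : Geo α) (e q : α) : ℤ :=
  if g.sd e = Side.top ∧ g.sd q = Side.top then -1
  else if g.sd e = Side.bot ∧ g.sd q = Side.bot then 1 else 0

def Geo.b (g : Geo α) (p q : α) : ℤ := if g.ix p < g.ix q then 1 else 0

/-- regularised sum of the kernel over all lifts -/
def Geo.S (g : Geo α) (e q : α) (κ : ℤ) : ℤ := g.D e q * (-κ - 1 + g.b e q)

lemma Geo.S_sub (g : Geo α) (e q : α) (κ m : ℤ) : g.S e q (κ - m) = g.S e q κ + g.D e q * m := by
  unfold Geo.S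
  ring

lemma Geo.u_eq (g : Geo α) (e q : α) (k : ℤ) :
    g.u e q k = g.D e q * (if g.lt e q k then 1 else 0) := by
  unfold Geo.u Geo.D
  by_cases h : g.lt e q k
  · simp [h]
  · simp [h]

lemma sum_ind (P : Prop) [Decidable P] (κ K : ℤ) (h1 : -K ≤ κ) (h2 : κ < K) :
    ∑ k ∈ Ico (-K) K, (if 0 < k - κ ∨ k - κ = 0 ∧ P then (1 : ℤ) else 0) =
      K - κ - 1 + (if P then 1 else 0) := by
  have e1 : ∀ k ∈ Ico (-K) K, (if 0 < k - κ ∨ k - κ = 0 ∧ P then (1 : ℤ) else 0) =
      (if κ < k then 1 else 0) + (if k = κ then (if P then 1 else 0) else 0) := by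
    intro k _
    by_cases a : κ < k
    · rw [if_pos (Or.inl (by omega)), if_pos a, if_neg (by omega), add_zero]
    · by_cases c : k = κ
      · subst c
        by_cases hP : P <;> simp [hP]
      · rw [if_neg (by rintro (h | ⟨h, _⟩) <;> omega), if_neg a, if_neg c, add_zero]
  rw [Finset.sum_congr rfl e1, Finset.sum_add_distrib, Finset.sum_ite_eq', if_pos (by
    rw [Finset.mem_Ico]; omega), Finset.sum_boole]
  have e2 : (Ico (-K) K).filter (fun k => κ < k) = Ico (κ + 1) K := by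
    ext k
    simp only [Finset.mem_filter, Finset.mem_Ico]
    omega
  rw [e2, Int.card_Ico]
  have : (((K - (κ + 1)).toNat : ℕ) : ℤ) = K - (κ + 1) := Int.toNat_of_nonneg (by omega)
  rw [this]
  ring

lemma Geo.sum_u (g : Geo α) (e q : α) (κ K : ℤ) (h1 : -K ≤ κ) (h2 : κ < K) :
    ∑ k ∈ Ico (-K) K, g.u e q (k - κ) = g.D e q * K + g.S e q κ := by
  have e1 : ∀ k ∈ Ico (-K) K, g.u e q (k - κ) =
      g.D e q * (if 0 < k - κ ∨ k - κ = 0 ∧ g.ix e < g.ix q then 1 else 0) := by
    intro k _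
    rw [g.u_eq]
    rfl
  rw [Finset.sum_congr rfl e1, ← Finset.mul_sum, sum_ind _ κ K h1 h2]
  unfold Geo.S Geo.b
  ring

/-- sum of the crossings of a strand with all lifts of another strand -/
theorem Geo.NC.sumL (N : g.NC X f w) (hx : x ∈ X) (nx : g.nz x)
    (nfx : g.nz (f x)) {p : α} (hp : p ∈ X) (np : g.nz p) (nfp : g.nz (f p)) (h1 : p ≠ x)
    (h2 : p ≠ f x) :
    g.D x (f p) - g.D (f x) (f p) = g.D x p - g.D (f x) p ∧
    g.S x (f p) 0 - g.S (f x) (f p) (w x) + (g.D x (f p) - g.D (f x) (f p)) * w p =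
      g.S x p 0 - g.S (f x) p (w x) := by
  have key : ∀ K : ℤ, |w x| + |w p| < K → (g.D x p - g.D (f x) p) * K + (g.S x p 0 -
      g.S (f x) p (w x)) = (g.D x (f p) - g.D (f x) (f p)) * K + (g.S x (f p) 0 -
      g.S (f x) (f p) (w x) + (g.D x (f p) - g.D (f x) (f p)) * w p) := by
    intro K hK
    have a1 := neg_abs_le (w x)
    have a2 := le_abs_self (w x)
    have a3 := neg_abs_le (w p)
    have a4 := le_abs_self (w p)
    have a5 := abs_nonneg (w x)
    have a6 := abs_nonneg (w p)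
    have e0 : ∀ k ∈ Ico (-K) K, g.L f w x p k = g.L f w x (f p) (k + w p) := by
      intro k _
      refine N x hx nx nfx p hp np nfp k ?_
      rintro (⟨c, _⟩ | ⟨c, _⟩)
      · exact h1 c
      · exact h2 c
    have e1 := Finset.sum_congr rfl e0
    unfold Geo.L at e1
    rw [Finset.sum_sub_distrib, Finset.sum_sub_distrib] at e1
    have s1 := g.sum_u x p 0 K (by omega) (by omega)
    have s2 := g.sum_u (f x) p (w x) K (by omega) (by omega)
    have s3 := g.sum_u x (f p) (0 - w p) K (by omega) (by omega)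
    have s4 := g.sum_u (f x) (f p) (w x - w p) K (by omega) (by omega)
    have t1 : ∀ k ∈ Ico (-K) K, g.u x p (k - 0) = g.u x p k := fun k _ => by rw [sub_zero]
    have t3 : ∀ k ∈ Ico (-K) K, g.u x (f p) (k - (0 - w p)) = g.u x (f p) (k + w p) :=
      fun k _ => by congr 1; ring
    have t4 : ∀ k ∈ Ico (-K) K, g.u (f x) (f p) (k - (w x - w p)) =
        g.u (f x) (f p) (k + w p - w x) := fun k _ => by congr 1; ring
    rw [Finset.sum_congr rfl t1] at s1
    rw [Finset.sum_congr rfl t3] at s3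
    rw [Finset.sum_congr rfl t4] at s4
    rw [s1, s2, s3, s4, g.S_sub, g.S_sub] at e1
    linarith
  have k1 := key (|w x| + |w p| + 1) (by omega)
  have k2 := key (|w x| + |w p| + 2) (by omega)
  have hD : g.D x (f p) - g.D (f x) (f p) = g.D x p - g.D (f x) p := by nlinarith
  refine ⟨hD, ?_⟩
  rw [hD] at k1 ⊢
  linarith

/-- neighbours have the same regularised sums -/
lemma Geo.Adj.S1 (A : g.Adj X x y s) {q : α} (hq : q ∈ X) (qx : q ≠ x) (qy : q ≠ y) :
    g.D x q = g.D y q ∧ ∀ κ, g.S y q κ = g.S x q (κ - s) := by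
  have key : ∀ K : ℤ, |s| < K → g.D x q * K + g.S x q 0 = g.D y q * K + g.S y q s := by
    intro K hK
    have a1 := neg_abs_le s
    have a2 := le_abs_self s
    have a3 := abs_nonneg s
    have s1 := g.sum_u x q 0 K (by omega) (by omega)
    have s2 := g.sum_u y q s K (by omega) (by omega)
    rw [← s1, ← s2]
    refine Finset.sum_congr rfl fun k _ => ?_
    rw [sub_zero]
    exact A.a1 q hq k (fun h => qx h.1) (fun h => qy h.1)
  have k1 := key (|s| + 1) (by omega)
  have k2 := key (|s| + 2) (by omega)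
  have hD : g.D x q = g.D y q := by nlinarith
  refine ⟨hD, fun κ => ?_⟩
  have e1 := g.S_sub y q s (s - κ)
  have e2 := g.S_sub x q 0 (s - κ)
  have e3 : s - (s - κ) = κ := by ring
  have e4 : 0 - (s - κ) = κ - s := by ring
  rw [e3] at e1
  rw [e4] at e2
  rw [e1, e2]
  rw [hD] at k1 ⊢
  linarith

lemma Geo.Adj.S2 (A : g.Adj X x y s) {q : α} (hq : q ∈ X) (qx : q ≠ x) (qy : q ≠ y) :
    g.D q x = g.D q y ∧ ∀ κ, g.S q y κ = g.S q x κ + g.D q x * (-s) := by
  have key : ∀ K : ℤ, |s| < K → g.D q x * K + g.S q x 0 = g.D q y * K + g.S q y (0 - s) := by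
    intro K hK
    have a1 := neg_abs_le s
    have a2 := le_abs_self s
    have a3 := abs_nonneg s
    have s1 := g.sum_u q x 0 K (by omega) (by omega)
    have s2 := g.sum_u q y (0 - s) K (by omega) (by omega)
    rw [← s1, ← s2]
    refine Finset.sum_congr rfl fun k _ => ?_
    have := A.a2 q hq (-k) (fun h => qx h.1) (fun h => qy h.1)
    rw [neg_neg] at this
    rw [sub_zero, this]
    congr 1
    ring
  have k1 := key (|s| + 1) (by omega)
  have k2 := key (|s| + 2) (by omega)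
  have hD : g.D q x = g.D q y := by nlinarith
  refine ⟨hD, fun κ => ?_⟩
  have e1 := g.S_sub q y κ κ
  have e2 := g.S_sub q x κ κ
  have e3 := g.S_sub q y 0 s
  rw [sub_self] at e1 e2
  rw [hD] at k1 e2 ⊢
  linarith

/-- different nodes of one side have different positions -/
def Geo.Sep (g : Geo α) (X : Finset α) : Prop :=
  ∀ p ∈ X, ∀ q ∈ X, g.sd p = g.sd q → p ≠ q → g.ix p ≠ g.ix q

lemma Geo.nz_top {p : α} (h : g.sd p = Side.top) : g.nz p := by
  unfold Geo.nz
  rw [h]
  decide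

lemma Geo.D_top {p q : α} (h1 : g.sd p = Side.top) (h2 : g.sd q = Side.top) : g.D p q = -1 :=
  if_pos ⟨h1, h2⟩

/-- arcs are shorter than the period -/
lemma Geo.NC.short (H : Inv X f w) (N : g.NC X f w) (hs : g.Sep X) {p : α} (hp : p ∈ X)
    (h1 : g.sd p = Side.top) (h2 : g.sd (f p) = Side.top) :
    g.T p (f p) (w p) = 2 * w p - 1 + 2 * g.b p (f p) := by
  have n1 := N p hp (g.nz_top h1) (g.nz_top h2) p hp (g.nz_top h1) (g.nz_top h2) 1 (by
      rintro (⟨_, c⟩ | ⟨c, _⟩)
      · omega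
      · exact H.ne p hp c.symm)
  have hix := hs p hp (f p) (H.mem p hp) (by rw [h1, h2]) (H.ne p hp).symm
  unfold Geo.L at n1
  rw [g.u_eq, g.u_eq, g.u_eq, g.u_eq, Geo.D_top h1 h1, Geo.D_top h2 h1, Geo.D_top h1 h2,
    Geo.D_top h2 h2] at n1
  have e1 : g.lt p p 1 := Or.inl (by omega)
  have e2 : g.lt (f p) (f p) (1 + w p - w p) := Or.inl (by omega)
  rw [if_pos e1, if_pos e2] at n1
  have A : g.lt (f p) p (1 - w p) := by
    by_contra h
    rw [if_neg h] at n1
    split_ifs at n1 <;> omega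
  have B : g.lt p (f p) (1 + w p) := by
    by_contra h
    rw [if_neg h] at n1
    split_ifs at n1 <;> omega
  unfold Geo.T
  rw [g.u_eq, g.u_eq, Geo.D_top h1 h2, Geo.D_top h2 h1]
  unfold Geo.lt at A B ⊢
  unfold Geo.b
  rcases lt_or_gt_of_ne hix with h | h
  · rw [if_pos h]
    have h' : ¬ g.ix (f p) < g.ix p := not_lt.mpr h.le
    simp only [h, h', and_true, and_false, or_false] at A B ⊢
    have c : w p = 0 ∨ w p = -1 := by omega
    rcases c with c | c <;> rw [c] <;> norm_num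
  · have h' : ¬ g.ix p < g.ix (f p) := not_lt.mpr h.le
    rw [if_neg h']
    simp only [h, h', and_true, and_false, or_false] at A B ⊢
    have c : w p = 0 ∨ w p = 1 := by omega
    rcases c with c | c <;> rw [c] <;> norm_num

/-- potential of the charges -/
def Geo.NN (g : Geo α) (z e : α) (κ : ℤ) (q : α) : ℤ :=
  (if g.sd q = Side.top then g.b z q - 1 else 0) + g.S e q κ

/-- number of seams per period which are not compensated -/
def Geo.dl (g : Geo α) (e : α) : ℤ := if g.sd e = Side.bot then 1 else 0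

/-- the law of the seam -/
def Geo.LC (g : Geo α) (X : Finset α) (f : α → α) (w c : α → ℤ) (z : α) : Prop :=
  ∀ p ∈ X, g.nz p → g.nz (f p) →
    c p = g.NN z (f z) (w z) (f p) + g.dl (f z) * w p - g.NN z (f z) (w z) p

/-- the phase of the strand of `z` -/
def Geo.LZ (g : Geo α) (f : α → α) (w t : α → ℤ) (z : α) : Prop :=
  t z = if g.sd (f z) = Side.top then 2 * w z - 1 + 2 * g.b z (f z) else 0

/-- the positions after `z` has been left behind as a puncture -/
def Geo.frz [DecidableEq α] (g : Geo α) (z : α) : Geo α where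
  sd p := if p = z then Side.non else g.sd p
  ix := g.ix

section frz

variable [DecidableEq α] {z : α}

lemma Geo.frz_sd {p : α} (h : p ≠ z) : (g.frz z).sd p = g.sd p := if_neg h

lemma Geo.frz_z : (g.frz z).sd z = Side.non := if_pos rfl

lemma Geo.frz_nz {p : α} (h : p ≠ z) : (g.frz z).nz p ↔ g.nz p := by
  unfold Geo.nz
  rw [Geo.frz_sd h]

lemma Geo.nz_frz {p : α} (h : (g.frz z).nz p) : p ≠ z := fun e => h (by rw [e, Geo.frz_z])

lemma Geo.frz_u {p q : α} (h1 : p ≠ z) (h2 : q ≠ z) (k : ℤ) : (g.frz z).u p q k = g.u p q k := by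
  unfold Geo.u
  rw [Geo.frz_sd h1, Geo.frz_sd h2]
  rfl

lemma Geo.frz_D {p q : α} (h1 : p ≠ z) (h2 : q ≠ z) : (g.frz z).D p q = g.D p q := by
  unfold Geo.D
  rw [Geo.frz_sd h1, Geo.frz_sd h2]

lemma Geo.frz_S {p q : α} (h1 : p ≠ z) (h2 : q ≠ z) (k : ℤ) : (g.frz z).S p q k = g.S p q k := by
  unfold Geo.S
  rw [Geo.frz_D h1 h2]
  rfl

lemma Geo.frz_T {p q : α} (h1 : p ≠ z) (h2 : q ≠ z) (k : ℤ) : (g.frz z).T p q k = g.T p q k := by
  unfold Geo.T
  rw [Geo.frz_u h1 h2, Geo.frz_u h2 h1]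

lemma Geo.frz_L {p q : α} (h1 : p ≠ z) (h2 : f p ≠ z) (h3 : q ≠ z) (k : ℤ) :
    (g.frz z).L f w p q k = g.L f w p q k := by
  unfold Geo.L
  rw [Geo.frz_u h1 h3, Geo.frz_u h2 h3]

theorem Geo.NC.frz (N : g.NC X f w) : (g.frz z).NC X f w := by
  intro p hp np nfp q hq nq nfq k hk
  have h1 := Geo.nz_frz np
  have h2 := Geo.nz_frz nfp
  have h3 := Geo.nz_frz nq
  have h4 := Geo.nz_frz nfq
  rw [Geo.frz_L h1 h2 h3, Geo.frz_L h1 h2 h4]
  exact N p hp ((Geo.frz_nz h1).mp np) ((Geo.frz_nz h2).mp nfp) q hq ((Geo.frz_nz h3).mp nq)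
    ((Geo.frz_nz h4).mp nfq) k hk

theorem Geo.LT.frz {c t : α → ℤ} (h : g.LT X f w c t) : (g.frz z).LT X f w c t := by
  intro p hp np nfp
  have h1 := Geo.nz_frz np
  have h2 := Geo.nz_frz nfp
  rw [h p hp ((Geo.frz_nz h1).mp np) ((Geo.frz_nz h2).mp nfp), Geo.frz_T h1 h2]

end frz

lemma Geo.dl_eq {e : α} (he : g.nz e) {q : α} (hq : g.nz q) :
    g.dl e = g.D e q + (if g.sd q = Side.top then 1 else 0) := by
  unfold Geo.dl Geo.D
  unfold Geo.nz at he hq
  cases h1 : g.sd e <;> cases h2 : g.sd q <;> simp_all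

lemma Geo.D_bt {p q : α} (h1 : g.sd p = Side.top) (h2 : g.sd q ≠ Side.top) : g.D p q = 0 := by
  unfold Geo.D
  rw [h1]
  simp [h2]

/-- the law of the seam when `z` is left behind -/
theorem Geo.LC.frz [DecidableEq α] {z : α} (H : Inv X f w) (N : g.NC X f w) (hz : z ∈ X)
    (tz : g.sd z = Side.top) (ne : g.nz (f z)) : (g.frz z).LC X f w (fun _ => 0) z := by
  intro p hp np nfp
  have h1 := Geo.nz_frz np
  have h2 := Geo.nz_frz nfp
  have h3 : f z ≠ z := H.ne z hz
  have h4 : p ≠ f z := fun h => h2 (by rw [h, H.inv z hz])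
  have key : ∀ q, q ≠ z → (g.frz z).NN z (f z) (w z) q = - g.S z q 0 + g.S (f z) q (w z) := by
    intro q hq
    unfold Geo.NN
    rw [Geo.frz_S h3 hq, Geo.frz_sd hq]
    congr 1
    unfold Geo.S
    by_cases hh : g.sd q = Side.top
    · rw [if_pos hh, Geo.D_top tz hh]
      change g.b z q - 1 = _
      ring
    · rw [if_neg hh, Geo.D_bt tz hh]
      ring
  have e := Geo.NC.sumL N hz (g.nz_top tz) ne hp ((Geo.frz_nz h1).mp np)
    ((Geo.frz_nz h2).mp nfp) h1 h4
  have e3 : (g.frz z).dl (f z) = - (g.D z (f p) - g.D (f z) (f p)) := by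
    have e1 : (g.frz z).dl (f z) = g.dl (f z) := by
      unfold Geo.dl
      rw [Geo.frz_sd h3]
    rw [e1, Geo.dl_eq ne ((Geo.frz_nz h2).mp nfp)]
    by_cases hh : g.sd (f p) = Side.top
    · rw [if_pos hh, Geo.D_top tz hh]
      ring
    · rw [if_neg hh, Geo.D_bt tz hh]
      ring
  rw [key _ h2, key _ h1, e3]
  linarith [e.2]

theorem Geo.LZ.frz [DecidableEq α] {z : α} {t : α → ℤ} (H : Inv X f w) (N : g.NC X f w)
    (hs : g.Sep X) (hz : z ∈ X) (tz : g.sd z = Side.top) (ne : g.nz (f z))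
    (h : g.LT X f w (fun _ => 0) t) : (g.frz z).LZ f w t z := by
  have h3 : f z ≠ z := H.ne z hz
  unfold Geo.LZ
  rw [Geo.frz_sd h3, h z hz (g.nz_top tz) ne]
  by_cases hh : g.sd (f z) = Side.top
  · rw [if_pos hh, Geo.NC.short H N hs hz tz hh]
    change _ = 2 * w z - 1 + 2 * g.b z (f z)
    ring
  · rw [if_neg hh]
    unfold Geo.T
    rw [g.u_eq, g.u_eq, Geo.D_bt tz hh]
    have : g.D (f z) z = 0 := by
      unfold Geo.D
      rw [tz]
      simp [hh]
    rw [this]
    ring

end Full.Loop
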